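import Pool.Agent.Y23.Zs

/-! # Weighted sums over the zeros in long windows -/

set_option autoImplicit false

open Complex Filter Topology Set MeasureTheory
open Pool.Agent.Y23

namespace Q270LD

/-- the weight of a long window -/
noncomputable def q (A t : ℝ) : ℝ := A ^ 2 / (A ^ 2 + t ^ 2) ^ 2

lemma q_nonneg (A t : ℝ) : 0 ≤ q A t := by unfold q; positivity

lemma q_le {A : ℝ} (hA : 1 ≤ A) (t : ℝ) : q A t ≤ (A ^ 2 + t ^ 2)⁻¹ := by
  unfold q
  have h1 : 0 < A ^ 2 + t ^ 2 := by positivity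
  rw [div_le_iff₀ (by positivity)]
  have h2 : (A ^ 2 + t ^ 2)⁻¹ * (A ^ 2 + t ^ 2) ^ 2 = A ^ 2 + t ^ 2 := by field_simp
  rw [h2]
  nlinarith [sq_nonneg t]

lemma q_abs_le {A : ℝ} (hA : 1 ≤ A) (t : ℝ) : q A t * |t| ≤ A / 2 * (A ^ 2 + t ^ 2)⁻¹ := by
  unfold q
  have h1 : 0 < A ^ 2 + t ^ 2 := by positivity
  rw [div_mul_eq_mul_div, div_le_iff₀ (by positivity)]
  have h2 : A / 2 * (A ^ 2 + t ^ 2)⁻¹ * (A ^ 2 + t ^ 2) ^ 2 = A / 2 * (A ^ 2 + t ^ 2) := by field_simp
  rw [h2]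
  have h3 : 2 * A * |t| ≤ A ^ 2 + t ^ 2 := by
    have := sq_nonneg (A - |t|)
    have h4 := sq_abs t
    nlinarith
  nlinarith

lemma inv_int {A : ℝ} (hA : 1 ≤ A) : Integrable (fun t : ℝ => (A ^ 2 + t ^ 2)⁻¹) ∧
    ∫ t : ℝ, (A ^ 2 + t ^ 2)⁻¹ = Real.pi / A := by
  have hA0 : 0 < A := by linarith
  have e : (fun t : ℝ => (A ^ 2 + t ^ 2)⁻¹) = fun t : ℝ => (A ^ 2)⁻¹ * (1 + (t / A) ^ 2)⁻¹ := by
    funext t
    rw [← mul_inv]
    congr 1
    field_simp
  rw [e]
  constructor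
  · exact (integrable_inv_one_add_sq.comp_div hA0.ne').const_mul _
  · rw [integral_const_mul, Measure.integral_comp_div (fun t : ℝ => (1 + t ^ 2)⁻¹),
      integral_univ_inv_one_add_sq, abs_of_pos hA0, smul_eq_mul]
    field_simp

lemma q_meas (A : ℝ) : Measurable (q A) := by
  unfold q
  fun_prop

lemma q_int {A : ℝ} (hA : 1 ≤ A) : Integrable (q A) :=
  (inv_int hA).1.mono' (q_meas A).aestronglyMeasurable (Eventually.of_forall fun t => by
    rw [Real.norm_of_nonneg (q_nonneg A t)]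
    exact q_le hA t)

lemma q_abs_int {A : ℝ} (hA : 1 ≤ A) : Integrable (fun t => q A t * |t|) :=
  ((inv_int hA).1.const_mul (A / 2)).mono' ((q_meas A).mul (by fun_prop)).aestronglyMeasurable
    (Eventually.of_forall fun t => by
      rw [Real.norm_of_nonneg (mul_nonneg (q_nonneg A t) (abs_nonneg _))]
      exact q_abs_le hA t)

lemma q_int_le {A : ℝ} (hA : 1 ≤ A) : ∫ t, q A t ≤ 4 / A := by
  have h1 := integral_mono (q_int hA) (inv_int hA).1 (q_le hA)
  rw [(inv_int hA).2] at h1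
  refine h1.trans ?_
  have := Real.pi_lt_four
  gcongr

lemma q_abs_int_le {A : ℝ} (hA : 1 ≤ A) : ∫ t, q A t * |t| ≤ 2 := by
  have hA0 : 0 < A := by linarith
  have h1 := integral_mono (q_abs_int hA) ((inv_int hA).1.const_mul (A / 2)) (q_abs_le hA)
  rw [integral_const_mul, (inv_int hA).2] at h1
  refine h1.trans ?_
  have e : A / 2 * (Real.pi / A) = Real.pi / 2 := by field_simp
  rw [e]
  linarith [Real.pi_lt_four]

lemma q_conv_int {A : ℝ} (hA : 1 ≤ A) (t : ℝ) : Integrable (fun u => q A u * (1 / (1 + (t - u) ^ 2))) :=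
  (q_int hA).mono' ((q_meas A).mul (by fun_prop)).aestronglyMeasurable (Eventually.of_forall fun u => by
    have h1 : 1 / (1 + (t - u) ^ 2) ≤ 1 := by
      rw [div_le_one (by positivity)]
      nlinarith [sq_nonneg (t - u)]
    have h2 := q_nonneg A u
    rw [Real.norm_of_nonneg (by positivity)]
    exact mul_le_of_le_one_right h2 h1)

lemma q_conv {A : ℝ} (hA : 1 ≤ A) (t : ℝ) : q A t ≤ 18 * ∫ u, q A u * (1 / (1 + (t - u) ^ 2)) := by
  have h1 : ∀ u ∈ Icc t (t + 1), q A t / 18 ≤ q A u * (1 / (1 + (t - u) ^ 2)) := by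
    intro u hu
    have h2 : (t - u) ^ 2 ≤ 1 := by nlinarith [hu.1, hu.2]
    have h3 : 1 / 2 ≤ 1 / (1 + (t - u) ^ 2) := by
      apply one_div_le_one_div_of_le (by positivity)
      linarith
    have h4 : q A t / 9 ≤ q A u := by
      unfold q
      rw [div_div, div_le_div_iff₀ (by positivity) (by positivity)]
      have h5 : A ^ 2 + u ^ 2 ≤ 3 * (A ^ 2 + t ^ 2) := by nlinarith [sq_nonneg (2 * t - u), sq_nonneg t]
      have h6 : (A ^ 2 + u ^ 2) ^ 2 ≤ (3 * (A ^ 2 + t ^ 2)) ^ 2 := pow_le_pow_left₀ (by positivity) h5 2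
      nlinarith [sq_nonneg A]
    calc q A t / 18 = q A t / 9 * (1 / 2) := by ring
      _ ≤ _ := mul_le_mul h4 h3 (by norm_num) (q_nonneg A u)
  have h2 : q A t / 18 ≤ ∫ u in Icc t (t + 1), q A u * (1 / (1 + (t - u) ^ 2)) := by
    have h3 : ∫ u in Icc t (t + 1), q A t / 18 = q A t / 18 := by
      rw [setIntegral_const]
      simp
    rw [← h3]
    refine setIntegral_mono_on ?_ (q_conv_int hA t).integrableOn measurableSet_Icc h1
    exact integrableOn_const (by simp)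
  have h3 : ∫ u in Icc t (t + 1), q A u * (1 / (1 + (t - u) ^ 2)) ≤ ∫ u, q A u * (1 / (1 + (t - u) ^ 2)) :=
    setIntegral_le_integral (q_conv_int hA t) (Eventually.of_forall fun u => by
      have := q_nonneg A u
      show 0 ≤ q A u * (1 / (1 + (t - u) ^ 2))
      positivity)
  linarith

lemma Lg_add (T u : ℝ) : Lg (T + u) ≤ Lg T + |u| := by
  unfold Lg
  have h1 : 3 + |T + u| ≤ (3 + |T|) * (1 + |u|) := by
    have := abs_add_le T u
    have h2 := abs_nonneg T
    have h3 := abs_nonneg u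
    nlinarith
  calc Real.log (3 + |T + u|) ≤ Real.log ((3 + |T|) * (1 + |u|)) := Real.log_le_log (by positivity) h1
    _ = Real.log (3 + |T|) + Real.log (1 + |u|) := Real.log_mul (by positivity) (by positivity)
    _ ≤ _ := by
      have := Real.log_le_sub_one_of_pos (show 0 < 1 + |u| by positivity)
      linarith

/-- the number of zeros in a window of length `A`, weighted by `1 / A ^ 2` -/
theorem qsum : ∃ K : ℝ, 0 < K ∧ ∀ A : ℝ, 1 ≤ A → ∀ T : ℝ, ∀ S : Finset ℂ, (∀ s ∈ S, IsZ s) →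
    ∑ s ∈ S, (mu s : ℝ) * q A (s.im - T) ≤ K * (Lg T / A + 1) := by
  obtain ⟨K, hK, h⟩ := zsum
  refine ⟨72 * K, by positivity, fun A hA T S hS => ?_⟩
  have hA0 : 0 < A := by linarith
  have h1 : ∑ s ∈ S, (mu s : ℝ) * q A (s.im - T) ≤
      18 * ∫ u, ∑ s ∈ S, (mu s : ℝ) * (q A u * (1 / (1 + (s.im - T - u) ^ 2))) := by
    rw [integral_finsetSum _ fun s _ => (q_conv_int hA (s.im - T)).const_mul _, Finset.mul_sum]
    refine Finset.sum_le_sum fun s _ => ?_
    rw [integral_const_mul]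
    have := q_conv hA (s.im - T)
    have h0 : (0 : ℝ) ≤ mu s := Nat.cast_nonneg _
    calc (mu s : ℝ) * q A (s.im - T) ≤ mu s * (18 * ∫ u, q A u * (1 / (1 + (s.im - T - u) ^ 2))) :=
          mul_le_mul_of_nonneg_left this h0
      _ = _ := by ring
  have h2 : ∫ u, ∑ s ∈ S, (mu s : ℝ) * (q A u * (1 / (1 + (s.im - T - u) ^ 2))) ≤
      ∫ u, (K * Lg T * q A u + K * (q A u * |u|)) := by
    refine integral_mono (integrable_finsetSum _ fun s _ => (q_conv_int hA (s.im - T)).const_mul _)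
      (((q_int hA).const_mul _).add ((q_abs_int hA).const_mul _)) fun u => ?_
    have h3 := h (T + u) S hS
    have h4 := q_nonneg A u
    have h5 : ∑ s ∈ S, (mu s : ℝ) * (q A u * (1 / (1 + (s.im - T - u) ^ 2))) =
        q A u * ∑ s ∈ S, (mu s : ℝ) * (1 / (1 + (s.im - (T + u)) ^ 2)) := by
      rw [Finset.mul_sum]
      refine Finset.sum_congr rfl fun s _ => ?_
      rw [show s.im - T - u = s.im - (T + u) by ring]
      ring
    show ∑ s ∈ S, (mu s : ℝ) * (q A u * (1 / (1 + (s.im - T - u) ^ 2))) ≤ K * Lg T * q A u + K * (q A u * |u|)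
    rw [h5]
    calc q A u * ∑ s ∈ S, (mu s : ℝ) * (1 / (1 + (s.im - (T + u)) ^ 2)) ≤ q A u * (K * Lg (T + u)) :=
          mul_le_mul_of_nonneg_left h3 h4
      _ ≤ q A u * (K * (Lg T + |u|)) := by
          refine mul_le_mul_of_nonneg_left (mul_le_mul_of_nonneg_left (Lg_add T u) hK.le) h4
      _ = _ := by ring
  rw [integral_add ((q_int hA).const_mul _) ((q_abs_int hA).const_mul _), integral_const_mul,
    integral_const_mul] at h2
  have h3 := q_int_le hA
  have h4 := q_abs_int_le hA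
  have h5 : K * Lg T * ∫ u, q A u ≤ K * Lg T * (4 / A) := by
    have := one_le_Lg T
    exact mul_le_mul_of_nonneg_left h3 (by positivity)
  have h6 : K * ∫ u, q A u * |u| ≤ K * 2 := mul_le_mul_of_nonneg_left h4 hK.le
  calc _ ≤ 18 * (K * Lg T * (4 / A) + K * 2) := by linarith
    _ = 72 * K * (Lg T / A) + 36 * K := by ring
    _ ≤ _ := by nlinarith

end Q270LD
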