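import Pool.Agent.Q270.LD.A1
import Pool.Agent.Q270.LD.A2

/-! # The pointwise inequality -/

set_option autoImplicit false

open Complex Filter Topology Set MeasureTheory
open Pool.Agent.Y23

namespace Q270LD

lemma ga_re (a T : ℝ) (w : ℂ) : (ga a T w).re =
    Real.exp (a * w.re ^ 2) * Real.exp (-a * (w.im - T) ^ 2) * Real.cos (2 * a * w.re * (w.im - T)) := by
  unfold ga
  rw [Complex.exp_re]
  have h : (a : ℂ) * (w - I * T) ^ 2 = a * ((w - I * T) * (w - I * T)) := by ring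
  rw [h]
  have e1 : ((a : ℂ) * ((w - I * T) * (w - I * T))).re = a * w.re ^ 2 + -a * (w.im - T) ^ 2 := by
    simp only [mul_re, sub_re, sub_im, mul_im, I_re, I_im, ofReal_re, ofReal_im]
    ring
  have e2 : ((a : ℂ) * ((w - I * T) * (w - I * T))).im = 2 * a * w.re * (w.im - T) := by
    simp only [mul_re, sub_re, sub_im, mul_im, I_re, I_im, ofReal_re, ofReal_im]
    ring
  rw [e1, e2, Real.exp_add]

lemma cube_le {y : ℝ} (hy : 0 ≤ y) : (1 + y) ^ 3 ≤ 27 * Real.exp y := by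
  have h1 : 1 + y / 3 ≤ Real.exp (y / 3) := by linarith [Real.add_one_le_exp (y / 3)]
  have h2 : (1 + y / 3) ^ 3 ≤ Real.exp (y / 3) ^ 3 := pow_le_pow_left₀ (by positivity) h1 3
  have h3 : Real.exp (y / 3) ^ 3 = Real.exp y := by
    rw [← Real.exp_nat_mul]; congr 1; push_cast; ring
  rw [h3] at h2
  have h4 : (1 + y) ^ 3 ≤ (3 * (1 + y / 3)) ^ 3 := pow_le_pow_left₀ (by positivity) (by linarith) 3
  nlinarith

lemma cube_le' {y : ℝ} (hy : 0 ≤ y) : (1 + y) ^ 3 ≤ 216 * Real.exp (y / 2) := by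
  have h1 := cube_le (y := y / 2) (by positivity)
  have h4 : (1 + y) ^ 3 ≤ (2 * (1 + y / 2)) ^ 3 := pow_le_pow_left₀ (by positivity) (by linarith) 3
  nlinarith

lemma q_eq {A : ℝ} (hA : 0 < A) (t : ℝ) : q A t = (1 / A ^ 2) / (1 + 1 / A ^ 2 * t ^ 2) ^ 2 := by
  unfold q
  field_simp

/-- mass of the Gaussian near `t` -/
noncomputable def Psi (a ϱ t : ℝ) : ℝ := ∫ v in Ioo (t - ϱ) (t + ϱ), Real.exp (-a * v ^ 2)

lemma Psi_nonpos {a ϱ t : ℝ} (h : ϱ ≤ 0) : Psi a ϱ t = 0 := by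
  unfold Psi
  rw [Ioo_eq_empty (by linarith), setIntegral_empty]

lemma Psi_le {a ϱ t : ℝ} (ha : 0 < a) (hϱ : 0 ≤ ϱ) :
    Psi a ϱ t ≤ 2 * ϱ * Real.exp (-(a * t ^ 2) * (1 - 2 * a * ϱ ^ 2)) := by
  unfold Psi
  have e1 : ∫ v in Ioo (t - ϱ) (t + ϱ), Real.exp (-a * v ^ 2) = ∫ v in (t - ϱ)..(t + ϱ), Real.exp (-a * v ^ 2) := by
    rw [intervalIntegral.integral_of_le (by linarith), ← integral_Ioc_eq_integral_Ioo]
  have e2 : ∫ v in (t - ϱ)..(t + ϱ), Real.exp (-a * v ^ 2) = ∫ u in (-ϱ)..ϱ, Real.exp (-a * (t + u) ^ 2) := by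
    rw [intervalIntegral.integral_comp_add_left (fun v => Real.exp (-a * v ^ 2)) t]
    rfl
  have e3 : ∫ u in (-ϱ)..ϱ, Real.exp (-a * (t + u) ^ 2) = ∫ u in (-ϱ)..ϱ, Real.exp (-a * (t - u) ^ 2) := by
    have := intervalIntegral.integral_comp_neg (a := -ϱ) (b := ϱ) (fun u => Real.exp (-a * (t + u) ^ 2))
    rw [neg_neg] at this
    rw [← this]
    rfl
  have hc : ∀ s : ℝ, Continuous (fun u : ℝ => Real.exp (-a * (t + s * u) ^ 2)) := fun s => by fun_prop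
  have i1 : IntervalIntegrable (fun u : ℝ => Real.exp (-a * (t + u) ^ 2)) volume (-ϱ) ϱ :=
    Continuous.intervalIntegrable (by fun_prop) _ _
  have i2 : IntervalIntegrable (fun u : ℝ => Real.exp (-a * (t - u) ^ 2)) volume (-ϱ) ϱ :=
    Continuous.intervalIntegrable (by fun_prop) _ _
  have e4 : 2 * ∫ u in (-ϱ)..ϱ, Real.exp (-a * (t + u) ^ 2) =
      ∫ u in (-ϱ)..ϱ, (Real.exp (-a * (t + u) ^ 2) + Real.exp (-a * (t - u) ^ 2)) := by
    rw [intervalIntegral.integral_add i1 i2, ← e3]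
    ring
  have key : ∀ u ∈ Icc (-ϱ) ϱ, Real.exp (-a * (t + u) ^ 2) + Real.exp (-a * (t - u) ^ 2) ≤
      2 * Real.exp (-(a * t ^ 2) * (1 - 2 * a * ϱ ^ 2)) := by
    intro u hu
    have h3 : Real.exp (-a * (t + u) ^ 2) + Real.exp (-a * (t - u) ^ 2) =
        Real.exp (-(a * t ^ 2) - a * u ^ 2) * (2 * Real.cosh (2 * a * t * u)) := by
      rw [Real.cosh_eq, show Real.exp (-(a * t ^ 2) - a * u ^ 2) *
        (2 * ((Real.exp (2 * a * t * u) + Real.exp (-(2 * a * t * u))) / 2)) =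
        Real.exp (-(a * t ^ 2) - a * u ^ 2) * Real.exp (-(2 * a * t * u)) +
        Real.exp (-(a * t ^ 2) - a * u ^ 2) * Real.exp (2 * a * t * u) by ring, ← Real.exp_add,
        ← Real.exp_add]
      congr 2 <;> ring
    rw [h3]
    have h4 := Real.cosh_le_exp_half_sq (2 * a * t * u)
    have h5 : u ^ 2 ≤ ϱ ^ 2 := by
      have := abs_le.2 hu
      rw [← sq_abs u]
      exact pow_le_pow_left₀ (abs_nonneg _) this 2
    calc Real.exp (-(a * t ^ 2) - a * u ^ 2) * (2 * Real.cosh (2 * a * t * u)) ≤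
          Real.exp (-(a * t ^ 2) - a * u ^ 2) * (2 * Real.exp ((2 * a * t * u) ^ 2 / 2)) := by gcongr
      _ = 2 * Real.exp (-(a * t ^ 2) - a * u ^ 2 + (2 * a * t * u) ^ 2 / 2) := by
          rw [Real.exp_add]; ring
      _ ≤ 2 * Real.exp (-(a * t ^ 2) * (1 - 2 * a * ϱ ^ 2)) := by
          gcongr
          have h6 : (2 * a * t * u) ^ 2 / 2 = 2 * a ^ 2 * t ^ 2 * u ^ 2 := by ring
          rw [h6]
          have h7 : 2 * a ^ 2 * t ^ 2 * u ^ 2 ≤ 2 * a ^ 2 * t ^ 2 * ϱ ^ 2 :=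
            mul_le_mul_of_nonneg_left h5 (by positivity)
          have h8 : 0 ≤ a * u ^ 2 := by positivity
          nlinarith
  have h6 : 2 * ∫ u in (-ϱ)..ϱ, Real.exp (-a * (t + u) ^ 2) ≤
      ∫ u in (-ϱ)..ϱ, 2 * Real.exp (-(a * t ^ 2) * (1 - 2 * a * ϱ ^ 2)) := by
    rw [e4]
    exact intervalIntegral.integral_mono_on (by linarith) (i1.add i2) intervalIntegrable_const key
  rw [intervalIntegral.integral_const, smul_eq_mul] at h6
  rw [e1, e2]
  nlinarith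

/-- the error of the mass -/
lemma exp_gap {y θ : ℝ} (hy : 0 ≤ y) (hθ0 : 0 ≤ θ) (hθ : θ ≤ 1 / 2) :
    Real.exp (-y * (1 - θ)) ≤ Real.exp (-y) + θ * (216 / (1 + y) ^ 2) := by
  have h1 : Real.exp (-y * (1 - θ)) - Real.exp (-y) = Real.exp (-y * (1 - θ)) * (1 - Real.exp (-(θ * y))) := by
    have h0 : Real.exp (-y) = Real.exp (-y * (1 - θ)) * Real.exp (-(θ * y)) := by
      rw [← Real.exp_add]; congr 1; ring
    rw [h0]
    ring
  have h2 : 1 - Real.exp (-(θ * y)) ≤ θ * y := by linarith [Real.add_one_le_exp (-(θ * y))]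
  have h3 : Real.exp (-y * (1 - θ)) ≤ Real.exp (-(y / 2)) := by
    apply Real.exp_le_exp.2
    nlinarith
  have h4 : Real.exp (-(y / 2)) * y ≤ 216 / (1 + y) ^ 2 := by
    rw [le_div_iff₀ (by positivity), Real.exp_neg]
    have h5 := cube_le' hy
    have h6 := Real.exp_pos (y / 2)
    rw [inv_mul_eq_div, div_mul_eq_mul_div, div_le_iff₀ h6]
    nlinarith [sq_nonneg (1 + y)]
  have h7 : Real.exp (-y * (1 - θ)) * (1 - Real.exp (-(θ * y))) ≤ θ * (216 / (1 + y) ^ 2) := by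
    calc Real.exp (-y * (1 - θ)) * (1 - Real.exp (-(θ * y))) ≤ Real.exp (-y * (1 - θ)) * (θ * y) :=
          mul_le_mul_of_nonneg_left h2 (Real.exp_pos _).le
      _ ≤ Real.exp (-(y / 2)) * (θ * y) := mul_le_mul_of_nonneg_right h3 (by positivity)
      _ = θ * (Real.exp (-(y / 2)) * y) := by ring
      _ ≤ _ := mul_le_mul_of_nonneg_left h4 hθ0
  linarith

/-- lower bound of the real part of the Gaussian -/
lemma re_ge {a x t : ℝ} (ha : 0 < a) (ha1 : a ≤ 1) (hx : |x| ≤ 1 / 2) :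
    Real.exp (-a * t ^ 2) ≤ Real.exp (a * x ^ 2) * Real.exp (-a * t ^ 2) * Real.cos (2 * a * x * t) +
      a * (27 / (1 + a * t ^ 2) ^ 2) := by
  have hx2 : x ^ 2 ≤ 1 / 4 := by rw [← sq_abs]; nlinarith [abs_nonneg x]
  have h1 := Real.one_sub_sq_div_two_le_cos (x := 2 * a * x * t)
  have h2 : 1 ≤ Real.exp (a * x ^ 2) := Real.one_le_exp (by positivity)
  have h3 : Real.exp (a * x ^ 2) ≤ 2 := by
    have h4 : Real.exp (a * x ^ 2) ≤ Real.exp (1 / 4) := Real.exp_le_exp.2 (by nlinarith [sq_nonneg x])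
    have h5 : Real.exp (1 / 4) ≤ 2 := by
      have h6 := Real.exp_one_lt_d9
      have h7 : Real.exp (1 / 4) ≤ Real.exp 1 ^ (1 / 4 : ℝ) := by
        rw [← Real.exp_mul]; norm_num
      have h8 : Real.exp (1 / 4) ^ 4 = Real.exp 1 := by
        rw [← Real.exp_nat_mul]; norm_num
      have h9 := Real.exp_pos (1 / 4)
      by_contra hcon
      push Not at hcon
      have : (2 : ℝ) ^ 4 < Real.exp (1 / 4) ^ 4 := pow_lt_pow_left₀ hcon (by norm_num) (by norm_num)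
      rw [h8] at this
      norm_num at this
      linarith
    linarith
  set y := a * t ^ 2 with hy
  have hy0 : 0 ≤ y := by positivity
  have h4 : 1 - a * y ≤ Real.exp (a * x ^ 2) * Real.cos (2 * a * x * t) := by
    have h5 : (2 * a * x * t) ^ 2 / 2 = 2 * a * x ^ 2 * y := by rw [hy]; ring
    rw [h5] at h1
    have h6 : 2 * a * x ^ 2 * y ≤ a * y / 2 := by
      have : 0 ≤ a * y := by positivity
      nlinarith
    have h7 : 0 ≤ 2 * a * x ^ 2 * y := by positivity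
    calc 1 - a * y ≤ Real.exp (a * x ^ 2) * (1 - 2 * a * x ^ 2 * y) := by nlinarith
      _ ≤ _ := mul_le_mul_of_nonneg_left h1 (by linarith)
  have h5 : Real.exp (-a * t ^ 2) = Real.exp (-y) := by rw [hy]; congr 1; ring
  rw [h5]
  have h6 : Real.exp (-y) * y ≤ 27 / (1 + y) ^ 2 := by
    rw [le_div_iff₀ (by positivity), Real.exp_neg]
    have h7 := cube_le hy0
    have h8 := Real.exp_pos y
    rw [inv_mul_eq_div, div_mul_eq_mul_div, div_le_iff₀ h8]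
    nlinarith [sq_nonneg (1 + y)]
  have h7 : Real.exp (-y) * (1 - a * y) ≤ Real.exp (-y) * (Real.exp (a * x ^ 2) * Real.cos (2 * a * x * t)) :=
    mul_le_mul_of_nonneg_left h4 (Real.exp_pos _).le
  have h8 : a * (Real.exp (-y) * y) ≤ a * (27 / (1 + y) ^ 2) := mul_le_mul_of_nonneg_left h6 ha.le
  nlinarith

/-- **The pointwise inequality.** -/
theorem pointwise {A r0 ϱ T : ℝ} (hA1 : 1 ≤ A) (hr : 0 < r0) (hA : 2 * r0 ≤ A) (hϱ : ϱ ≤ r0) {w : ℂ}
    (hw : |w.re| ≤ 1 / 2) :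
    Psi (1 / A ^ 2) ϱ (w.im - T) + 2 * (r0 - max ϱ 0) * Real.exp (-(1 / A ^ 2) * (w.im - T) ^ 2) ≤
      2 * r0 * (ga (1 / A ^ 2) T w).re + (54 * r0 + 864 * r0 ^ 3) * q A (w.im - T) := by
  have hA0 : 0 < A := by linarith
  obtain ⟨a, ha⟩ : ∃ a : ℝ, a = 1 / A ^ 2 := ⟨_, rfl⟩
  have ha0 : 0 < a := by rw [ha]; positivity
  have ha1 : a ≤ 1 := by rw [ha, div_le_one (by positivity)]; nlinarith
  set t := w.im - T with ht
  rw [ga_re, ← ht, q_eq hA0, ← ha]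
  have har : a * r0 ^ 2 ≤ 1 / 4 := by
    rw [ha, div_mul_eq_mul_div, one_mul, div_le_iff₀ (by positivity)]
    nlinarith
  set p := max ϱ 0 with hp
  have hp0 : 0 ≤ p := le_max_right _ _
  have hpr : p ≤ r0 := max_le hϱ hr.le
  have hpsq : p ^ 2 ≤ r0 ^ 2 := pow_le_pow_left₀ hp0 hpr 2
  have hθ : 2 * a * p ^ 2 ≤ 1 / 2 := by nlinarith
  have h1 : Psi a ϱ t ≤ 2 * p * Real.exp (-(a * t ^ 2) * (1 - 2 * a * p ^ 2)) := by
    rcases le_total ϱ 0 with h | h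
    · rw [Psi_nonpos h]
      positivity
    · rw [hp, max_eq_left h] at hθ ⊢
      exact Psi_le ha0 h
  have h2 := exp_gap (y := a * t ^ 2) (θ := 2 * a * p ^ 2) (by positivity) (by positivity) hθ
  have h3 := re_ge (x := w.re) (t := t) ha0 ha1 hw
  have e : Real.exp (-(a * t ^ 2)) = Real.exp (-a * t ^ 2) := by congr 1; ring
  rw [e] at h2
  set E := Real.exp (-a * t ^ 2) with hE
  set R := Real.exp (a * w.re ^ 2) * E * Real.cos (2 * a * w.re * t) with hR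
  set Q := 1 / (1 + a * t ^ 2) ^ 2 with hQ
  have hQ0 : 0 ≤ Q := by positivity
  have e1 : (216 : ℝ) / (1 + a * t ^ 2) ^ 2 = 216 * Q := by rw [hQ]; ring
  have e2 : (27 : ℝ) / (1 + a * t ^ 2) ^ 2 = 27 * Q := by rw [hQ]; ring
  have e3 : a / (1 + a * t ^ 2) ^ 2 = a * Q := by rw [hQ]; ring
  rw [e1] at h2
  rw [e2] at h3
  rw [e3]
  have h4 : 2 * p * Real.exp (-(a * t ^ 2) * (1 - 2 * a * p ^ 2)) ≤ 2 * p * (E + 2 * a * p ^ 2 * (216 * Q)) :=
    mul_le_mul_of_nonneg_left h2 (by positivity)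
  have h5 : p ^ 3 ≤ r0 ^ 3 := pow_le_pow_left₀ hp0 hpr 3
  have h6 : 864 * p ^ 3 * (a * Q) ≤ 864 * r0 ^ 3 * (a * Q) := by
    have : 0 ≤ a * Q := by positivity
    nlinarith
  have h7 : 2 * r0 * E ≤ 2 * r0 * (R + a * (27 * Q)) := mul_le_mul_of_nonneg_left h3 (by positivity)
  nlinarith

end Q270LD
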