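import Pool.Agent.Q270.LD.A4
import Pool.Agent.H31R2.DH.BackZeta
import Pool.Agent.Q240.QS.FE
import Pool.Agent.W186.LH.Ex

/-! # Few zeros off the line give growth bounds -/

set_option autoImplicit false

open Complex Filter Topology Set Metric
open Pool.Agent.Y23

namespace Q270LD

/-- a profile: a function with a strict global maximum at `0`, continuous there -/
structure Prof (r : ℝ → ℝ) : Prop where
  pos : 0 < r 0
  cont : ContinuousAt r 0
  gap : ∀ δ : ℝ, 0 < δ → ∃ η : ℝ, 0 < η ∧ ∀ x : ℝ, δ ≤ |x| → r x ≤ r 0 - η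

lemma Prof.le {r : ℝ → ℝ} (h : Prof r) (x : ℝ) : r x ≤ r 0 := by
  by_cases hx : x = 0
  · rw [hx]
  · obtain ⟨η, hη, h2⟩ := h.gap |x| (abs_pos.2 hx)
    linarith [h2 x le_rfl]

/-- few zeros away from the line -/
def Few (δ η T2 : ℝ) : Prop := ∀ T : ℝ, T2 ≤ T → ∀ F : Finset Zt,
  (∀ ρ ∈ F, |(ρ : ℂ).im - T| ≤ 1 ∧ δ ≤ |(ρ : ℂ).re - 1 / 2|) → ∑ ρ ∈ F, (mu ρ : ℝ) ≤ η * Real.log T

theorem few {r : ℝ → ℝ} (hr : Prof r) {δ η' : ℝ} (hδ : 0 < δ) (hη' : 0 < η') : ∃ η1 : ℝ, 0 < η1 ∧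
    ∀ T1 : ℝ, Hyp r (r 0 / Real.pi - η1) T1 → ∃ T2 : ℝ, Few δ η' T2 := by
  obtain ⟨K, hK, hm⟩ := master hr.pos
  obtain ⟨g, hg, hgap⟩ := hr.gap δ hδ
  obtain ⟨m, hmd⟩ : ∃ m : ℝ, m = min g (r 0) := ⟨_, rfl⟩
  have hm0 : 0 < m := by rw [hmd]; exact lt_min hg hr.pos
  obtain ⟨θ, hθ⟩ : ∃ θ : ℝ, θ = 2 * m * Real.exp (-1) * η' := ⟨_, rfl⟩
  have hθ0 : 0 < θ := by rw [hθ]; positivity
  obtain ⟨A, hA⟩ : ∃ A : ℝ, A = max (max 1 (2 * r 0)) (4 * K / θ) := ⟨_, rfl⟩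
  have hA1 : 1 ≤ A := by rw [hA]; exact (le_max_left _ _).trans (le_max_left _ _)
  have hA2 : 2 * r 0 ≤ A := by rw [hA]; exact (le_max_right _ _).trans (le_max_left _ _)
  have hA3 : K / A ≤ θ / 4 := by
    have h1 : 4 * K / θ ≤ A := by rw [hA]; exact le_max_right _ _
    rw [div_le_iff₀ hθ0] at h1
    rw [div_le_iff₀ (by linarith)]
    linarith
  have hA0 : 0 < A := by linarith
  obtain ⟨C, hC, hm2⟩ := hm A hA1 hA2
  have hsp : 0 < Real.sqrt Real.pi := Real.sqrt_pos.2 Real.pi_pos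
  have hrpi : 0 < r 0 / Real.pi := div_pos hr.pos Real.pi_pos
  refine ⟨min (r 0 / Real.pi) (θ / 4 / (Real.sqrt Real.pi * A)), lt_min hrpi (by positivity), ?_⟩
  intro T1 hH
  set η1 := min (r 0 / Real.pi) (θ / 4 / (Real.sqrt Real.pi * A)) with hη1
  have hc0 : 0 ≤ r 0 / Real.pi - η1 := by
    have : η1 ≤ r 0 / Real.pi := min_le_left _ _
    linarith
  have hη1b : η1 * (Real.sqrt Real.pi * A) ≤ θ / 4 := by
    have : η1 ≤ θ / 4 / (Real.sqrt Real.pi * A) := min_le_right _ _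
    rwa [le_div_iff₀ (by positivity)] at this
  obtain ⟨C', hC'⟩ : ∃ C' : ℝ, C' = C * (1 + (r 0 / Real.pi - η1)) := ⟨_, rfl⟩
  refine ⟨max (max 20 (2 * r 0)) (max (2 * T1) (Real.exp (2 * C' / θ))), fun T hT F hF => ?_⟩
  have hT20 : 20 ≤ T := ((le_max_left _ _).trans (le_max_left _ _)).trans hT
  have hTr : 2 * r 0 ≤ T := ((le_max_right _ _).trans (le_max_left _ _)).trans hT
  have hT1 : 2 * T1 ≤ T := ((le_max_left _ _).trans (le_max_right _ _)).trans hT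
  have hTe : Real.exp (2 * C' / θ) ≤ T := ((le_max_right _ _).trans (le_max_right _ _)).trans hT
  have hL : 2 * C' / θ ≤ Real.log T := by
    rw [Real.le_log_iff_exp_le (by linarith)]; exact hTe
  rw [div_le_iff₀ hθ0] at hL
  have hL0 : 0 ≤ Real.log T := Real.log_nonneg (by linarith)
  have h1 := hm2 r _ T1 hc0 hr.le hH T hT20 hTr hT1
  have h2 : 2 * (m * Real.exp (-1)) * ∑ ρ ∈ F, (mu ρ : ℝ) ≤
      2 * ∑ ρ ∈ W (2 * T), (mu ρ : ℝ) * ((r 0 - max (r ((ρ : ℂ).re - 1 / 2)) 0) *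
        Real.exp (-(1 / A ^ 2) * ((ρ : ℂ).im - T) ^ 2)) := by
    have hsub : F ⊆ W (2 * T) := by
      intro ρ hρ
      rw [mem_W]
      have h3 := abs_le.1 (hF ρ hρ).1
      rw [abs_le]
      constructor <;> linarith [h3.1, h3.2]
    have hmx : ∀ x : ℝ, 0 ≤ r 0 - max (r x) 0 := fun x => by
      have := max_le (hr.le x) hr.pos.le
      linarith
    have h3 : ∑ ρ ∈ F, (mu ρ : ℝ) * (m * Real.exp (-1)) ≤
        ∑ ρ ∈ F, (mu ρ : ℝ) * ((r 0 - max (r ((ρ : ℂ).re - 1 / 2)) 0) *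
        Real.exp (-(1 / A ^ 2) * ((ρ : ℂ).im - T) ^ 2)) := by
      refine Finset.sum_le_sum fun ρ hρ => ?_
      obtain ⟨h4, h5⟩ := hF ρ hρ
      refine mul_le_mul_of_nonneg_left ?_ (Nat.cast_nonneg _)
      refine mul_le_mul ?_ ?_ (Real.exp_pos _).le (hmx _)
      · rcases le_total (r ((ρ : ℂ).re - 1 / 2)) 0 with h6 | h6
        · rw [max_eq_right h6, hmd, sub_zero]
          exact min_le_right _ _
        · rw [max_eq_left h6, hmd]
          have := hgap _ h5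
          have h7 : min g (r 0) ≤ g := min_le_left _ _
          linarith
      · apply Real.exp_le_exp.2
        have h6 : ((ρ : ℂ).im - T) ^ 2 ≤ 1 := by
          rw [← sq_abs]
          nlinarith [abs_nonneg ((ρ : ℂ).im - T)]
        have h7 : 1 / A ^ 2 ≤ 1 := by rw [div_le_one (by positivity)]; nlinarith
        have h8 : 0 < 1 / A ^ 2 := by positivity
        nlinarith [sq_nonneg ((ρ : ℂ).im - T)]
    have h4 : ∑ ρ ∈ F, (mu ρ : ℝ) * ((r 0 - max (r ((ρ : ℂ).re - 1 / 2)) 0) *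
        Real.exp (-(1 / A ^ 2) * ((ρ : ℂ).im - T) ^ 2)) ≤
        ∑ ρ ∈ W (2 * T), (mu ρ : ℝ) * ((r 0 - max (r ((ρ : ℂ).re - 1 / 2)) 0) *
        Real.exp (-(1 / A ^ 2) * ((ρ : ℂ).im - T) ^ 2)) :=
      Finset.sum_le_sum_of_subset_of_nonneg hsub fun ρ _ _ =>
        mul_nonneg (Nat.cast_nonneg _) (mul_nonneg (hmx _) (Real.exp_pos _).le)
    rw [← Finset.sum_mul] at h3
    linarith
  have e1 : (r 0 / Real.pi - (r 0 / Real.pi - η1)) * (Real.sqrt Real.pi * A) * Real.log T =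
      η1 * (Real.sqrt Real.pi * A) * Real.log T := by ring
  rw [e1, ← hC'] at h1
  have h3 : η1 * (Real.sqrt Real.pi * A) * Real.log T ≤ θ / 4 * Real.log T :=
    mul_le_mul_of_nonneg_right hη1b hL0
  have h4 : K * (Real.log T / A) ≤ θ / 4 * Real.log T := by
    calc K * (Real.log T / A) = K / A * Real.log T := by ring
      _ ≤ _ := mul_le_mul_of_nonneg_right hA3 hL0
  have h5 : 2 * (m * Real.exp (-1)) * ∑ ρ ∈ F, (mu ρ : ℝ) ≤ θ * Real.log T := by linarith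
  have h6 : 0 < 2 * (m * Real.exp (-1)) := by positivity
  rw [hθ] at h5
  have h7 : 2 * (m * Real.exp (-1)) * ∑ ρ ∈ F, (mu ρ : ℝ) ≤ 2 * (m * Real.exp (-1)) * (η' * Real.log T) := by
    linarith
  exact le_of_mul_le_mul_left h7 h6

lemma FF_eq' {s : ℂ} (hs : s ≠ 1) : H353.FF s = (s - 1) * riemannZeta s := Function.update_of_ne hs _ _

/-- Phragmen-Lindelof between two vertical lines -/
theorem strip {a b μ T0 : ℝ} (ha : 1 / 4 ≤ a) (hab : a < b) (hb2 : b ≤ 2) (hμ : 0 ≤ μ) (hT0 : 1 ≤ T0)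
    (h : ∀ σ : ℝ, σ = a ∨ σ = b → ∀ t : ℝ, T0 ≤ t → ‖riemannZeta (σ + t * I)‖ ≤ T0 * t ^ μ) :
    ∃ C : ℝ, 0 ≤ C ∧ ∀ s : ℂ, a ≤ s.re → s.re ≤ b → ‖H353.FF s‖ ≤ C * (1 + |s.im|) ^ (1 + μ) := by
  have hFc : Continuous H353.FF := (ZU.J_g2b.FF_diff).continuous
  -- the bound for `FF` on the two lines
  have hline : ∀ σ : ℝ, σ = a ∨ σ = b → ∃ B : ℝ, 0 ≤ B ∧ ∀ t : ℝ,
      ‖H353.FF (σ + t * I)‖ ≤ B * (1 + |t|) ^ (1 + μ) := by
    intro σ hσ
    have hσ1 : |σ - 1| ≤ 1 := by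
      rw [abs_le]
      rcases hσ with h | h <;> constructor <;> linarith
    obtain ⟨B, hB⟩ := (isCompact_Icc (a := -T0) (b := T0)).exists_bound_of_continuousOn
      (f := fun t : ℝ => H353.FF (σ + t * I)) (hFc.comp (by fun_prop)).continuousOn
    refine ⟨|B| + T0, by positivity, fun t => ?_⟩
    have h0 := abs_nonneg t
    have hp : 1 ≤ (1 + |t|) ^ (1 + μ) := Real.one_le_rpow (by linarith) (by linarith)
    rcases le_or_gt |t| T0 with h1 | h1
    · have h2 := hB t (abs_le.1 h1)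
      have h3 := le_abs_self B
      nlinarith [abs_nonneg B]
    · have hne : (σ : ℂ) + t * I ≠ 1 := by
        intro h2
        have := congrArg Complex.im h2
        simp at this
        rw [this, abs_zero] at h1
        linarith
      have h3 : ‖riemannZeta (σ + t * I)‖ ≤ T0 * |t| ^ μ := by
        rcases le_total 0 t with h4 | h4
        · rw [abs_of_nonneg h4] at h1 ⊢
          exact h σ hσ t h1.le
        · rw [abs_of_nonpos h4] at h1 ⊢
          have h5 := h σ hσ (-t) h1.le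
          rwa [Pool.Agent.W186.LH.conj_line] at h5
      have h4 : ‖(σ : ℂ) + t * I - 1‖ ≤ 1 + |t| := by
        have e : (σ : ℂ) + t * I - 1 = ((σ - 1 : ℝ) : ℂ) + (t : ℂ) * I := by push_cast; ring
        rw [e]
        refine (norm_add_le _ _).trans ?_
        rw [Complex.norm_real, norm_mul, Complex.norm_I, Complex.norm_real, mul_one, Real.norm_eq_abs,
          Real.norm_eq_abs]
        linarith
      rw [FF_eq' hne, norm_mul]
      have h5 : |t| ^ μ ≤ (1 + |t|) ^ μ := Real.rpow_le_rpow h0 (by linarith) hμ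
      calc ‖(σ : ℂ) + t * I - 1‖ * ‖riemannZeta (σ + t * I)‖ ≤ (1 + |t|) * (T0 * (1 + |t|) ^ μ) := by
            apply mul_le_mul h4 (h3.trans (by gcongr)) (norm_nonneg _) (by positivity)
        _ = T0 * (1 + |t|) ^ (1 + μ) := by
            rw [Real.rpow_add (by positivity), Real.rpow_one]; ring
        _ ≤ (|B| + T0) * (1 + |t|) ^ (1 + μ) := by
            have := abs_nonneg B
            gcongr
            linarith
  obtain ⟨B1, hB1, hb1⟩ := hline _ (Or.inl rfl)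
  obtain ⟨B2, hB2, hb2'⟩ := hline _ (Or.inr rfl)
  obtain ⟨B, hB⟩ : ∃ B : ℝ, B = B1 + B2 := ⟨_, rfl⟩
  have hb : ∀ s : ℂ, s.re = a ∨ s.re = b → ‖H353.FF s‖ ≤ B * (1 + |s.im|) ^ (1 + μ) := by
    intro s hs
    have e : s = (s.re : ℂ) + s.im * I := (Complex.re_add_im s).symm
    have hp : 0 ≤ (1 + |s.im|) ^ (1 + μ) := by positivity
    rcases hs with h1 | h1
    · have := hb1 s.im
      rw [← h1, ← e] at this
      nlinarith
    · have := hb2' s.im
      rw [← h1, ← e] at this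
      nlinarith
  obtain ⟨f, hf⟩ : ∃ f : ℂ → ℂ, f = fun s => H353.FF s * (s + 2) ^ ((-(1 + μ) : ℝ) : ℂ) := ⟨_, rfl⟩
  have hslit : ∀ s : ℂ, 1 / 4 ≤ s.re → s + 2 ∈ slitPlane := by
    intro s hs
    left
    simp
    linarith
  have hn2 : ∀ s : ℂ, 1 / 4 ≤ s.re → 1 + |s.im| ≤ 2 * ‖s + 2‖ := by
    intro s hs
    have h1 := Complex.re_le_norm (s + 2)
    have h2 := Complex.abs_im_le_norm (s + 2)
    simp at h1 h2
    linarith
  have hfn : ∀ s : ℂ, ‖f s‖ = ‖H353.FF s‖ * ‖s + 2‖ ^ (-(1 + μ)) := by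
    intro s
    rw [hf, norm_mul, Complex.norm_cpow_real]
  have hpl : ∀ s : ℂ, 1 / 4 ≤ s.re → ‖s + 2‖ ^ (-(1 + μ)) ≤ 1 := fun s hs => by
    refine Real.rpow_le_one_of_one_le_of_nonpos ?_ (by linarith)
    have h1 := Complex.re_le_norm (s + 2)
    simp at h1
    linarith
  have hFFb : ∀ s : ℂ, 1 / 4 ≤ s.re → ‖H353.FF s‖ ≤ 5 * (1 + ‖s‖) ^ 2 := by
    intro s hs
    have := H353.FF_bound (1 / 4) (by norm_num) s hs
    norm_num at this ⊢
    exact this
  have hfd : ∀ s : ℂ, 1 / 4 ≤ s.re → DifferentiableAt ℂ f s := by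
    intro s hs
    rw [hf]
    refine (ZU.J_g2b.FF_diff s).mul ?_
    exact (differentiableAt_id.add_const 2).cpow_const (hslit s hs)
  obtain ⟨M, hM⟩ : ∃ M : ℝ, M = B * 2 ^ (1 + μ) := ⟨_, rfl⟩
  have hedge : ∀ z : ℂ, z.re = a ∨ z.re = b → ‖f z‖ ≤ M := by
    intro z hz
    have hz4 : 1 / 4 ≤ z.re := by rcases hz with h | h <;> linarith
    rw [hfn]
    have h1 := hb z hz
    have h2 := hn2 z hz4
    have h0 := abs_nonneg z.im
    have h3 : 0 < ‖z + 2‖ := by linarith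
    have h4 : (1 + |z.im|) ^ (1 + μ) ≤ 2 ^ (1 + μ) * ‖z + 2‖ ^ (1 + μ) := by
      rw [← Real.mul_rpow (by norm_num) h3.le]
      exact Real.rpow_le_rpow (by positivity) h2 (by linarith)
    rw [Real.rpow_neg h3.le, ← div_eq_mul_inv, div_le_iff₀ (by positivity), hM]
    have : 0 ≤ B := by rw [hB]; linarith
    calc ‖H353.FF z‖ ≤ B * (1 + |z.im|) ^ (1 + μ) := h1
      _ ≤ B * (2 ^ (1 + μ) * ‖z + 2‖ ^ (1 + μ)) := by gcongr
      _ = _ := by ring
  have key : ∀ s : ℂ, a ≤ s.re → s.re ≤ b → ‖f s‖ ≤ M := by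
    intro s hs1 hs2
    refine PhragmenLindelof.vertical_strip (a := a) (b := b) (C := M) ?_ ?_ ?_ ?_ hs1 hs2
    · apply DifferentiableOn.diffContOnCl
      intro z hz
      have h1 : closure (re ⁻¹' Ioo a b) ⊆ re ⁻¹' Icc a b := by
        apply closure_minimal
        · intro z hz; exact ⟨hz.1.le, hz.2.le⟩
        · exact isClosed_Icc.preimage Complex.continuous_re
      have h2 : 1 / 4 ≤ z.re := by
        have := (h1 hz).1
        linarith
      exact (hfd z h2).differentiableWithinAt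
    · refine ⟨1, ?_, 2, ?_⟩
      · rw [lt_div_iff₀ (by linarith)]
        linarith [Real.pi_gt_three]
      · apply Asymptotics.IsBigO.of_bound 45
        apply Filter.mem_inf_of_right
        intro z hz
        have hz1 : 1 / 4 ≤ z.re := by linarith [hz.1]
        have hz2 : z.re ≤ 2 := by linarith [hz.2]
        have h1 : ‖f z‖ ≤ 5 * (1 + ‖z‖) ^ 2 := by
          rw [hfn]
          calc ‖H353.FF z‖ * ‖z + 2‖ ^ (-(1 + μ)) ≤ ‖H353.FF z‖ * 1 :=
                mul_le_mul_of_nonneg_left (hpl z hz1) (norm_nonneg _)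
            _ ≤ _ := by rw [mul_one]; exact hFFb z hz1
        have h2 : ‖z‖ ≤ 2 + |z.im| := by
          refine (Complex.norm_le_abs_re_add_abs_im z).trans ?_
          rw [abs_of_nonneg (by linarith : (0 : ℝ) ≤ z.re)]
          linarith
        have h3 : 1 + |z.im| ≤ Real.exp |z.im| := by
          have := Real.add_one_le_exp |z.im|
          linarith
        have h0 := abs_nonneg z.im
        have h4 : (1 + ‖z‖) ^ 2 ≤ 9 * (Real.exp |z.im|) ^ 2 := by
          have h5 : 1 + ‖z‖ ≤ 3 * Real.exp |z.im| := by linarith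
          calc (1 + ‖z‖) ^ 2 ≤ (3 * Real.exp |z.im|) ^ 2 := by
                apply pow_le_pow_left₀ (by positivity) h5
            _ = _ := by ring
        have h6 : (Real.exp |z.im|) ^ 2 ≤ Real.exp (2 * Real.exp (1 * |z.im|)) := by
          rw [← Real.exp_nat_mul, one_mul]
          apply Real.exp_le_exp.2
          push_cast
          linarith
        rw [Set.mem_setOf_eq, Real.norm_of_nonneg (Real.exp_pos _).le]
        linarith
    · exact fun z hz => hedge z (Or.inl hz)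
    · exact fun z hz => hedge z (Or.inr hz)
  have hM0 : 0 ≤ M := (norm_nonneg _).trans (key (a : ℂ) (by simp) (by simp; linarith))
  refine ⟨M * 4 ^ (1 + μ), by positivity, fun s hs1 hs2 => ?_⟩
  have h0 := abs_nonneg s.im
  have h1 := key s hs1 hs2
  rw [hfn] at h1
  have h3 : ‖s + 2‖ ≤ 4 * (1 + |s.im|) := by
    refine (Complex.norm_le_abs_re_add_abs_im _).trans ?_
    rw [add_re, add_im, re_ofNat, im_ofNat, add_zero, abs_of_nonneg (by linarith)]
    linarith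
  have h4 : 0 < ‖s + 2‖ := by
    have := hn2 s (by linarith)
    linarith
  rw [Real.rpow_neg h4.le, ← div_eq_mul_inv, div_le_iff₀ (by positivity)] at h1
  have h5 : ‖s + 2‖ ^ (1 + μ) ≤ 4 ^ (1 + μ) * (1 + |s.im|) ^ (1 + μ) := by
    rw [← Real.mul_rpow (by norm_num) (by positivity)]
    exact Real.rpow_le_rpow h4.le h3 (by linarith)
  calc ‖H353.FF s‖ ≤ M * ‖s + 2‖ ^ (1 + μ) := h1
    _ ≤ M * (4 ^ (1 + μ) * (1 + |s.im|) ^ (1 + μ)) := by gcongr
    _ = _ := by ring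

/-- from `FF` to zeta -/
lemma FF_div {C μ k : ℝ} (hk : 0 < k) {s : ℂ} (hs : s ≠ 1) (h1 : 1 + |s.im| ≤ k * ‖s - 1‖)
    (h : ‖H353.FF s‖ ≤ C * (1 + |s.im|) ^ (1 + μ)) : ‖riemannZeta s‖ ≤ k * C * (1 + |s.im|) ^ μ := by
  have h0 := abs_nonneg s.im
  rw [FF_eq' hs, norm_mul, Real.rpow_add (by positivity), Real.rpow_one] at h
  have hZ0 : 0 ≤ ‖riemannZeta s‖ := norm_nonneg _
  have h7 : (1 + |s.im|) * ‖riemannZeta s‖ ≤ (1 + |s.im|) * (k * C * (1 + |s.im|) ^ μ) := by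
    calc (1 + |s.im|) * ‖riemannZeta s‖ ≤ k * ‖s - 1‖ * ‖riemannZeta s‖ := mul_le_mul_of_nonneg_right h1 hZ0
      _ = k * (‖s - 1‖ * ‖riemannZeta s‖) := by ring
      _ ≤ k * (C * ((1 + |s.im|) * (1 + |s.im|) ^ μ)) := mul_le_mul_of_nonneg_left h hk.le
      _ = _ := by ring
  exact le_of_mul_le_mul_left h7 (by positivity)

/-- from two lines to the critical line -/
theorem stripc {d μ T0 : ℝ} (hd : 0 < d) (hd1 : d ≤ 1 / 4) (hμ : 0 ≤ μ) (hT0 : 1 ≤ T0)
    (h : ∀ σ : ℝ, σ = 1 / 2 - d ∨ σ = 1 / 2 + d → ∀ t : ℝ, T0 ≤ t → ‖riemannZeta (σ + t * I)‖ ≤ T0 * t ^ μ) :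
    ∃ C : ℝ, ∀ t : ℝ, ‖riemannZeta (1 / 2 + t * I)‖ ≤ C * (1 + |t|) ^ μ := by
  obtain ⟨C, hC, hb⟩ := strip (by linarith) (by linarith) (by linarith) hμ hT0 h
  refine ⟨4 * C, fun t => ?_⟩
  have hs : ((1 / 2 : ℂ) + t * I).re = 1 / 2 := by simp
  have hsi : ((1 / 2 : ℂ) + t * I).im = t := by simp
  have h1 := hb (1 / 2 + t * I) (by rw [hs]; linarith) (by rw [hs]; linarith)
  have hne : (1 / 2 : ℂ) + t * I ≠ 1 := by
    intro h2
    have := congrArg Complex.re h2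
    rw [hs] at this
    norm_num at this
  have h2 : 1 + |((1 / 2 : ℂ) + t * I).im| ≤ 4 * ‖(1 / 2 : ℂ) + t * I - 1‖ := by
    have a1 := Complex.abs_re_le_norm ((1 / 2 : ℂ) + t * I - 1)
    have a2 := Complex.abs_im_le_norm ((1 / 2 : ℂ) + t * I - 1)
    rw [sub_re, hs] at a1
    rw [sub_im, hsi] at a2
    rw [hsi]
    norm_num at a1 a2
    linarith
  have h3 := FF_div (by norm_num) hne h2 h1
  rwa [hsi] at h3

/-- **Backlund's theorem, quantitative form.** -/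
theorem backl {κ : ℝ} (hκ : 0 < κ) : ∃ δ η : ℝ, 0 < δ ∧ 0 < η ∧ ∀ T2 : ℝ, Few δ η T2 →
    ∃ C : ℝ, ∀ t : ℝ, ‖riemannZeta (1 / 2 + t * I)‖ ≤ C * (1 + |t|) ^ κ := by
  obtain ⟨d, hd⟩ : ∃ d : ℝ, d = min (1 / 12) (κ / 12) := ⟨_, rfl⟩
  have hd0 : 0 < d := by rw [hd]; exact lt_min (by norm_num) (by positivity)
  have hd1 : d ≤ 1 / 12 := by rw [hd]; exact min_le_left _ _
  have hd2 : d ≤ κ / 12 := by rw [hd]; exact min_le_right _ _
  obtain ⟨η, hη, T0, hB⟩ := DH31.backlund_zeta hd0 hd1 (show 0 < κ / 4 by positivity)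
  obtain ⟨K, T3, hK, hT3, hfe⟩ := Q240.QS.fe
  refine ⟨2 * d, η, by positivity, hη, fun T2 hF => ?_⟩
  have hright : ∀ t : ℝ, max (max T0 T2) 3 ≤ t → ‖riemannZeta (((1 / 2 + 3 * d : ℝ) : ℂ) + t * I)‖ ≤ t ^ (κ / 4) := by
    intro t ht
    have ht0 : T0 ≤ t := ((le_max_left _ _).trans (le_max_left _ _)).trans ht
    have ht2 : T2 ≤ t := ((le_max_right _ _).trans (le_max_left _ _)).trans ht
    have ht3 : 3 ≤ t := (le_max_right _ _).trans ht
    refine hB t ht0 t ht3 le_rfl (1 / 2 + 4 * d) (by linarith) (by linarith) ?_ _ ?_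
    · intro S hS
      have hz : ∀ z ∈ S, riemannZeta z = 0 ∧ 0 < z.re ∧ z.re < 1 := by
        intro z hz
        obtain ⟨h1, h2⟩ := hS z hz
        have h3 := (DH31.ball_re_im h1).1
        refine ⟨h2, by linarith, ?_⟩
        by_contra hcon
        push Not at hcon
        exact riemannZeta_ne_zero_of_one_le_re hcon h2
      have h1 := hF t ht2 (S.subtype _) (fun ρ hρ => ?_)
      · refine le_trans (le_of_eq ?_) h1
        have e : ∑ ρ ∈ S.subtype (fun z : ℂ => riemannZeta z = 0 ∧ 0 < z.re ∧ z.re < 1), (mu (ρ : ℂ) : ℝ) =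
            ∑ z ∈ S, (mu z : ℝ) := by
          rw [Finset.sum_subtype_of_mem (fun z => (mu z : ℝ)) hz]
        rw [e]
        rfl
      · rw [Finset.mem_subtype] at hρ
        obtain ⟨h2, h3⟩ := hS _ hρ
        have h4 := DH31.ball_re_im h2
        refine ⟨by linarith [h4.2], ?_⟩
        rw [abs_of_nonneg (by linarith [h4.1])]
        linarith [h4.1]
    · rw [mem_closedBall, dist_eq_norm]
      have e : ((1 / 2 + 3 * d : ℝ) : ℂ) + t * I - ⟨1 + d, t⟩ = ((-(1 / 2 - 2 * d) : ℝ) : ℂ) := by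
        apply Complex.ext
        · simp; ring
        · simp
      rw [e, Complex.norm_real, Real.norm_eq_abs, abs_neg, abs_of_nonneg (by linarith)]
      linarith
  obtain ⟨T4, hT4⟩ : ∃ T4 : ℝ, T4 = max (max (max T0 T2) 3) (max T3 (Real.exp K)) := ⟨_, rfl⟩
  have hT4a : max (max T0 T2) 3 ≤ T4 := by rw [hT4]; exact le_max_left _ _
  have hT4b : T3 ≤ T4 := by rw [hT4]; exact (le_max_left _ _).trans (le_max_right _ _)
  have hT4c : Real.exp K ≤ T4 := by rw [hT4]; exact (le_max_right _ _).trans (le_max_right _ _)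
  have hT41 : 3 ≤ T4 := (le_max_right _ _).trans hT4a
  refine stripc (d := 3 * d) (μ := κ) (T0 := T4) (by positivity) (by linarith) hκ.le (by linarith) ?_
  intro σ hσ t ht
  have ht1 : 1 ≤ t := by linarith
  have ht0 : 0 < t := by linarith
  have h1 := hright t (hT4a.trans ht)
  have hK4 : t ^ (κ / 4) ≤ t ^ κ := Real.rpow_le_rpow_of_exponent_le ht1 (by linarith)
  have hp : 0 ≤ t ^ κ := by positivity
  rcases hσ with h | h
  · have hs : ((σ : ℂ) + t * I).im = t := by simp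
    have hsr : ((σ : ℂ) + t * I).re = σ := by simp
    have h2 := (hfe (σ + t * I) (by rw [hs]; exact hT4b.trans ht) (by
      rw [hsr, h, abs_le]; constructor <;> linarith)).1
    have e : 1 - (starRingEnd ℂ) ((σ : ℂ) + t * I) = ((1 / 2 + 3 * d : ℝ) : ℂ) + t * I := by
      rw [h]
      apply Complex.ext
      · simp; ring
      · simp
    rw [e, hs, hsr] at h2
    refine h2.trans ?_
    have e2 : 1 / 2 - σ = 3 * d := by rw [h]; ring
    rw [e2]
    have h3 : t ^ (3 * d) * t ^ (κ / 4) ≤ t ^ κ := by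
      rw [← Real.rpow_add ht0]
      exact Real.rpow_le_rpow_of_exponent_le ht1 (by linarith)
    calc Real.exp K * t ^ (3 * d) * ‖riemannZeta (((1 / 2 + 3 * d : ℝ) : ℂ) + t * I)‖ ≤
          Real.exp K * t ^ (3 * d) * t ^ (κ / 4) := by gcongr
      _ = Real.exp K * (t ^ (3 * d) * t ^ (κ / 4)) := by ring
      _ ≤ T4 * t ^ κ := by gcongr
  · rw [h]
    calc _ ≤ t ^ (κ / 4) := h1
      _ ≤ t ^ κ := hK4
      _ ≤ T4 * t ^ κ := by nlinarith

end Q270LD
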