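import Pool.Agent.Q270.LD.B1

/-! # The upper bound under the Lindelof hypothesis: conclusion -/

set_option autoImplicit false

open Complex Filter Topology Set MeasureTheory
open Pool.Agent.Y23

namespace Q270LD

lemma Q_ge_neg {a r' : ℝ} (hr : 0 ≤ r') (T : ℝ) (ρ : Zt) :
    -(Real.exp (a * ((ρ : ℂ).re - 1 / 2) ^ 2) * G a r' ((ρ : ℂ).im - T)) ≤ Q a r' T ρ := by
  unfold Q G
  have h1 : ∫ u in (-r')..r', -(Real.exp (a * ((ρ : ℂ).re - 1 / 2) ^ 2) *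
        Real.exp (-a * ((ρ : ℂ).im - T - u) ^ 2)) ≤
      ∫ u in (-r')..r', (ga a (T + u) ((ρ : ℂ) - 1 / 2)).re := by
    refine intervalIntegral.integral_mono_on (by linarith)
      (Continuous.intervalIntegrable (by fun_prop) _ _) ((ga_cont a T _).intervalIntegrable _ _) fun u _ => ?_
    have := ga_re_abs a (T + u) ρ
    rw [show (ρ : ℂ).im - (T + u) = (ρ : ℂ).im - T - u by ring] at this
    exact (neg_le_neg this).trans (neg_abs_le _)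
  rw [intervalIntegral.integral_neg, intervalIntegral.integral_const_mul] at h1
  calc -(Real.exp (a * ((ρ : ℂ).re - 1 / 2) ^ 2) * (Real.sqrt (a / Real.pi) *
      ∫ u in (-r')..r', Real.exp (-a * ((ρ : ℂ).im - T - u) ^ 2))) =
      Real.sqrt (a / Real.pi) * -(Real.exp (a * ((ρ : ℂ).re - 1 / 2) ^ 2) *
      ∫ u in (-r')..r', Real.exp (-a * ((ρ : ℂ).im - T - u) ^ 2)) := by ring
    _ ≤ _ := mul_le_mul_of_nonneg_left h1 (Real.sqrt_nonneg _)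

/-- the three parts of the integral, from below -/
lemma point_low {r : ℝ → ℝ} {a r' r0 ε1 δ Ca T : ℝ} (hr0 : 0 < r0) (hr'0 : r0 < r') (hε10 : 0 < ε1)
    (ha4 : 4 ≤ a) (ha3 : 3 / ((r' - r0) ^ 2 * ε1) ≤ a)
    (hδb : a * δ ^ 2 ≤ 1)
    (hδc : δ ^ 2 * (Real.sqrt (a / Real.pi) * (2 * r' * (6 * a * (Real.exp (a * r' ^ 2) * 27)))) ≤ ε1)
    (hr : ∀ x : ℝ, r x ≤ r0)
    (hCa : Ca = Real.exp a * (Real.sqrt (a / Real.pi) * (2 * r' * (Real.exp (a * r' ^ 2) * 27)))) (ρ : Zt) :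
    (if |(ρ : ℂ).im - T| < r ((ρ : ℂ).re - 1 / 2) then (1 - ε1) else 0) ≤ Q a r' T ρ +
      (if δ ≤ |(ρ : ℂ).re - 1 / 2| then (Ca + (1 + r0 ^ 2) ^ 2) * (1 / (1 + ((ρ : ℂ).im - T) ^ 2) ^ 2) else 0) +
      ε1 * (1 / (1 + ((ρ : ℂ).im - T) ^ 2)) := by
  have ha0 : 0 < a := by linarith
  have h1 := Q_ge_neg (a := a) (r' := r') (by linarith) T ρ
  have h7 := zt_re ρ
  rw [zt_re'] at h7
  have hge := Q_ge (a := a) (r' := r') (δ := δ) (by linarith) ha4 hδb T ρ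
  obtain ⟨x, hx⟩ : ∃ x : ℝ, x = (ρ : ℂ).re - 1 / 2 := ⟨_, rfl⟩
  obtain ⟨t, ht⟩ : ∃ t : ℝ, t = (ρ : ℂ).im - T := ⟨_, rfl⟩
  rw [← hx, ← ht] at h1 hge
  rw [← hx] at h7
  rw [← hx, ← ht]
  have hG0 : 0 ≤ G a r' t := G_nonneg (by linarith) t
  have hp3 : 0 ≤ ε1 * (1 / (1 + t ^ 2)) := by positivity
  by_cases hx2 : δ ≤ |x|
  · rw [if_pos hx2]
    have h2 := G_all (a := a) (r' := r') (by linarith) (by linarith) t
    have h3 : Real.exp (a * x ^ 2) ≤ Real.exp a := by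
      apply Real.exp_le_exp.2
      have h8 : x ^ 2 ≤ 1 := by
        rw [← sq_abs]
        nlinarith [abs_nonneg x]
      nlinarith
    have h4 : -(Ca * (1 / (1 + t ^ 2) ^ 2)) ≤ Q a r' T ρ := by
      refine le_trans (neg_le_neg ?_) h1
      refine ((mul_le_mul h3 h2 hG0 (Real.exp_pos _).le).trans (le_of_eq ?_))
      rw [hCa]; ring
    have h5 : 0 ≤ (1 + r0 ^ 2) ^ 2 * (1 / (1 + t ^ 2) ^ 2) := by positivity
    have h6 : (if |t| < r x then (1 - ε1) else 0) ≤ (1 + r0 ^ 2) ^ 2 * (1 / (1 + t ^ 2) ^ 2) := by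
      split_ifs with hh
      · have h8 : t ^ 2 ≤ r0 ^ 2 := by
          rw [← sq_abs t]
          exact pow_le_pow_left₀ (abs_nonneg _) (hh.le.trans (hr x)) 2
        have h9 : (1 + t ^ 2) ^ 2 ≤ (1 + r0 ^ 2) ^ 2 := pow_le_pow_left₀ (by positivity) (by linarith) 2
        have h10 : 1 ≤ (1 + r0 ^ 2) ^ 2 * (1 / (1 + t ^ 2) ^ 2) := by
          rw [mul_one_div, one_le_div (by positivity)]
          exact h9
        linarith
      · exact h5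
    have h8 : (Ca + (1 + r0 ^ 2) ^ 2) * (1 / (1 + t ^ 2) ^ 2) =
      Ca * (1 / (1 + t ^ 2) ^ 2) + (1 + r0 ^ 2) ^ 2 * (1 / (1 + t ^ 2) ^ 2) := by ring
    rw [h8]
    linarith
  · rw [if_neg hx2]
    rw [not_le] at hx2
    have h2 := hge hx2.le
    have h3 : 1 / (1 + t ^ 2) ^ 2 ≤ 1 / (1 + t ^ 2) := by
      apply one_div_le_one_div_of_le (by positivity)
      nlinarith [sq_nonneg t]
    have h4 : δ ^ 2 * (Real.sqrt (a / Real.pi) * (2 * r' * (6 * a * (Real.exp (a * r' ^ 2) * 27)))) *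
        (1 / (1 + t ^ 2) ^ 2) ≤ ε1 * (1 / (1 + t ^ 2)) :=
      mul_le_mul hδc h3 (by positivity) hε10.le
    split_ifs with hh
    · have h5 := G_near (t := t) (by linarith) hr'0 hε10 ha0 ha3 (hh.le.trans (hr x))
      linarith
    · linarith

/-- the arithmetic at the end -/
lemma final_arith2 {ε ε1 r0 K L C4 S π' : ℝ} (hε10 : 0 < ε1) (hε11 : ε1 ≤ 1 / 2) (hK : 0 < K)
    (hr0 : 0 < r0) (hπ : 1 ≤ π') (hL : 0 < L) (hε : 0 < ε) (hLC : 4 * (C4 + K) ≤ ε * L)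
    (hε12 : ε1 * (8 * (1 + r0 + K + ε)) ≤ ε)
    (h : (1 - ε1) * S ≤ (r0 / π' + ε / 4) * L + C4 + ε1 * L + ε1 * (K * (L + 1))) :
    S ≤ (r0 / π' + ε) * L := by
  by_contra hcon
  push Not at hcon
  have h9 : (1 - ε1) * ((r0 / π' + ε) * L) < (1 - ε1) * S := mul_lt_mul_of_pos_left hcon (by linarith)
  have h10 : r0 / π' ≤ r0 := div_le_self hr0.le hπ
  have h11 : ε1 * ((r0 / π' + ε) * L) ≤ ε1 * ((r0 + ε) * L) :=
    mul_le_mul_of_nonneg_left (mul_le_mul_of_nonneg_right (by linarith) hL.le) hε10.le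
  have h12 : ε1 * (8 * (1 + r0 + K + ε)) * L ≤ ε * L := mul_le_mul_of_nonneg_right hε12 hL.le
  have h13 : 0 < ε * L := by positivity
  have h14 : ε1 * K ≤ K := by nlinarith
  have h15 : 0 < ε1 * (K * L) := by positivity
  have h16 : 0 < ε1 * (r0 * L) := by positivity
  have h17 : 0 < ε1 * (ε * L) := by positivity
  have h18 : 0 < ε1 * L := by positivity
  linarith

/-- **Under the Lindelof hypothesis no region has more than the expected number of zeros.** -/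
theorem upper (h : Lind) {r : ℝ → ℝ} (hr : Prof r) {ε : ℝ} (hε : 0 < ε) :
    ∀ᶠ T : ℝ in atTop, (zc r T : ℝ) ≤ (r 0 / Real.pi + ε) * Real.log T := by
  classical
  have hpi := Real.pi_pos
  have hpi3 := Real.pi_gt_three
  have hr0 := hr.pos
  obtain ⟨K, hK, hz⟩ := zsum
  obtain ⟨r', hr'⟩ : ∃ r' : ℝ, r' = r 0 + Real.pi * ε / 4 := ⟨_, rfl⟩
  have hr'1 : r 0 < r' := by
    have : 0 < Real.pi * ε / 4 := by positivity
    linarith
  have hr'0 : 0 < r' := hr0.trans hr'1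
  have hr'2 : r' / Real.pi = r 0 / Real.pi + ε / 4 := by
    rw [hr']; field_simp
  obtain ⟨ε1, hε1⟩ : ∃ ε1 : ℝ, ε1 = min (1 / 2) (ε / (8 * (1 + r 0 + K + ε))) := ⟨_, rfl⟩
  have hε10 : 0 < ε1 := by rw [hε1]; exact lt_min (by norm_num) (by positivity)
  have hε11 : ε1 ≤ 1 / 2 := by rw [hε1]; exact min_le_left _ _
  have hε12 : ε1 * (8 * (1 + r 0 + K + ε)) ≤ ε := by
    have : ε1 ≤ ε / (8 * (1 + r 0 + K + ε)) := by rw [hε1]; exact min_le_right _ _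
    rwa [le_div_iff₀ (by positivity)] at this
  obtain ⟨a, ha⟩ : ∃ a : ℝ, a = max 4 (3 / ((r' - r 0) ^ 2 * ε1)) := ⟨_, rfl⟩
  have ha4 : 4 ≤ a := by rw [ha]; exact le_max_left _ _
  have ha3 : 3 / ((r' - r 0) ^ 2 * ε1) ≤ a := by rw [ha]; exact le_max_right _ _
  have ha0 : 0 < a := by linarith
  have ha1 : 1 ≤ a := by linarith
  obtain ⟨E, hE⟩ : ∃ E : ℝ, E = Real.sqrt (a / Real.pi) * (2 * r' * (6 * a * (Real.exp (a * r' ^ 2) * 27))) := ⟨_, rfl⟩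
  have hE0 : 0 < E := by rw [hE]; positivity
  obtain ⟨δ, hδ⟩ : ∃ δ : ℝ, δ = Real.sqrt (min (1 / a) (ε1 / E)) := ⟨_, rfl⟩
  have hm0 : 0 < min (1 / a) (ε1 / E) := lt_min (by positivity) (by positivity)
  have hδ0 : 0 < δ := by rw [hδ]; exact Real.sqrt_pos.2 hm0
  have hδ2 : δ ^ 2 = min (1 / a) (ε1 / E) := by rw [hδ]; exact Real.sq_sqrt hm0.le
  have hδb : a * δ ^ 2 ≤ 1 := by
    have h1 : δ ^ 2 ≤ 1 / a := by rw [hδ2]; exact min_le_left _ _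
    rw [le_div_iff₀ ha0] at h1
    linarith
  have hδc : δ ^ 2 * (Real.sqrt (a / Real.pi) * (2 * r' * (6 * a * (Real.exp (a * r' ^ 2) * 27)))) ≤ ε1 := by
    have h1 : δ ^ 2 ≤ ε1 / E := by rw [hδ2]; exact min_le_right _ _
    rw [le_div_iff₀ hE0] at h1
    rwa [← hE]
  obtain ⟨Ca, hCa⟩ : ∃ Ca : ℝ, Ca = Real.exp a * (Real.sqrt (a / Real.pi) * (2 * r' * (Real.exp (a * r' ^ 2) * 27))) := ⟨_, rfl⟩
  have hCa0 : 0 < Ca := by rw [hCa]; positivity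
  obtain ⟨C6, hC6⟩ : ∃ C6 : ℝ, C6 = Ca + (1 + r 0 ^ 2) ^ 2 := ⟨_, rfl⟩
  have hC60 : 0 < C6 := by rw [hC6]; positivity
  obtain ⟨T3, hT3⟩ := off_sum h hδ0 (show 0 < ε1 / C6 by positivity)
  obtain ⟨C4, T4, hQ⟩ := Q_up ha1 hr'0
  obtain ⟨C5, hC5⟩ : ∃ C5 : ℝ, C5 = |C4| + K := ⟨_, rfl⟩
  have hC50 : 0 < C5 := by
    have := abs_nonneg C4
    linarith
  filter_upwards [eventually_ge_atTop 20, eventually_ge_atTop T3, eventually_ge_atTop T4,
    eventually_ge_atTop (Real.exp (4 * C5 / ε)), eventually_gt_atTop (r 0)] with T hT20 hTT3 hTT4 hTe hTr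
  have hT0 : 0 < T := by linarith
  have hL : 4 * C5 / ε ≤ Real.log T := by rw [Real.le_log_iff_exp_le hT0]; exact hTe
  have hLC : 4 * C5 ≤ ε * Real.log T := by
    rw [div_le_iff₀ hε] at hL
    linarith
  have hL0 : 0 < Real.log T := Real.log_pos (by linarith)
  rw [zc_eq hr.le hTr]
  obtain ⟨L, hLd⟩ : ∃ L : ℝ, L = Real.log T := ⟨_, rfl⟩
  have h1 := hQ T hTT4
  obtain ⟨S, hS⟩ : ∃ S : ℝ, S = ∑ ρ ∈ (W (2 * T)).filter (fun ρ : Zt => |(ρ : ℂ).im - T| < r ((ρ : ℂ).re - 1 / 2)), (mu ρ : ℝ) := ⟨_, rfl⟩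
  rw [← hS]
  have h2 : (1 - ε1) * S ≤ ∑ ρ ∈ W (2 * T), (mu ρ : ℝ) * Q a r' T ρ +
      C6 * ∑ ρ ∈ (W (2 * T)).filter (fun ρ : Zt => δ ≤ |(ρ : ℂ).re - 1 / 2|),
        (mu ρ : ℝ) * (1 / (1 + ((ρ : ℂ).im - T) ^ 2) ^ 2) +
      ε1 * ∑ ρ ∈ W (2 * T), (mu ρ : ℝ) * (1 / (1 + ((ρ : ℂ).im - T) ^ 2)) := by
    rw [hS, Finset.sum_filter, Finset.sum_filter, Finset.mul_sum, Finset.mul_sum, Finset.mul_sum,
      ← Finset.sum_add_distrib, ← Finset.sum_add_distrib]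
    refine Finset.sum_le_sum fun ρ _ => ?_
    have h3 := mul_le_mul_of_nonneg_left (point_low (r := r) (T := T) hr0 hr'1 hε10 ha4 ha3 hδb hδc
      hr.le hCa ρ) (Nat.cast_nonneg (α := ℝ) (mu ρ))
    rw [← hC6] at h3
    refine le_trans (le_of_eq ?_) (h3.trans (le_of_eq ?_))
    · split_ifs <;> ring
    · split_ifs <;> ring
  have h3 := hT3 T hTT3 ((W (2 * T)).filter (fun ρ : Zt => δ ≤ |(ρ : ℂ).re - 1 / 2|)) (fun ρ hρ =>
    (Finset.mem_filter.1 hρ).2)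
  have h4 : C6 * ∑ ρ ∈ (W (2 * T)).filter (fun ρ : Zt => δ ≤ |(ρ : ℂ).re - 1 / 2|),
        (mu ρ : ℝ) * (1 / (1 + ((ρ : ℂ).im - T) ^ 2) ^ 2) ≤ ε1 * L := by
    calc _ ≤ C6 * (ε1 / C6 * Real.log T) := mul_le_mul_of_nonneg_left h3 hC60.le
      _ = ε1 * L := by rw [hLd]; field_simp
  have h5 : ∑ ρ ∈ W (2 * T), (mu ρ : ℝ) * (1 / (1 + ((ρ : ℂ).im - T) ^ 2)) ≤ K * (L + 1) := by
    have b2 := hz T ((W (2 * T)).map (Function.Embedding.subtype _)) (by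
      intro s hs
      rw [Finset.mem_map] at hs
      obtain ⟨u, _, rfl⟩ := hs
      exact u.2)
    rw [Finset.sum_map] at b2
    refine le_trans b2 (mul_le_mul_of_nonneg_left ?_ hK.le)
    unfold Lg
    rw [abs_of_pos hT0, hLd]
    have h8 : Real.log (3 + T) ≤ Real.log (2 * T) := Real.log_le_log (by linarith) (by linarith)
    rw [Real.log_mul (by norm_num) (by linarith)] at h8
    linarith [Real.log_two_lt_d9]
  have h6 : ε1 * ∑ ρ ∈ W (2 * T), (mu ρ : ℝ) * (1 / (1 + ((ρ : ℂ).im - T) ^ 2)) ≤ ε1 * (K * (L + 1)) :=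
    mul_le_mul_of_nonneg_left h5 hε10.le
  rw [hr'2] at h1
  rw [← hLd] at h1 hLC hL0 ⊢
  have h7 : C4 ≤ |C4| := le_abs_self _
  have h8 : (1 - ε1) * S ≤ (r 0 / Real.pi + ε / 4) * L + C4 + ε1 * L + ε1 * (K * (L + 1)) := by
    linarith
  exact final_arith2 hε10 hε11 hK hr0 (by linarith) hL0 hε (by linarith) hε12 h8

/-- **Under the Lindelof hypothesis the number of zeros is asymptotic to the expected number.** -/
theorem limit (h : Lind) {r : ℝ → ℝ} (hr : Prof r) :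
    Tendsto (fun T : ℝ => (zc r T : ℝ) / Real.log T) atTop (𝓝 (r 0 / Real.pi)) := by
  rw [Metric.tendsto_nhds]
  intro ε hε
  filter_upwards [(main hr).1.1 h (ε / 2) (half_pos hε), upper h hr (half_pos hε), eventually_gt_atTop 1]
    with T h1 h2 h3
  have hL : 0 < Real.log T := Real.log_pos h3
  rw [Real.dist_eq, abs_lt]
  constructor
  · have := (le_div_iff₀ hL).2 h1
    linarith
  · have := (div_le_iff₀ hL).2 h2
    linarith

end Q270LD
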