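import Pool.Agent.Y23.EF2

/-! # The explicit formula for Gaussians -/

set_option autoImplicit false

open Complex Filter Topology Set MeasureTheory
open scoped ComplexConjugate
open Pool.Agent.Y23

namespace Q270LD

/-- the Gaussian at height `T` -/
noncomputable def ga (a T : ℝ) (w : ℂ) : ℂ := cexp (a * (w - I * T) ^ 2)

lemma ga_norm (a T : ℝ) (w : ℂ) :
    ‖ga a T w‖ = Real.exp (a * w.re ^ 2) * Real.exp (-a * (w.im - T) ^ 2) := by
  unfold ga
  rw [Complex.norm_exp, ← Real.exp_add]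
  congr 1
  have h : (w - I * T) ^ 2 = (w - I * T) * (w - I * T) := by ring
  rw [h]
  simp only [mul_re, sub_re, sub_im, mul_im, I_re, I_im, ofReal_re, ofReal_im]
  ring

lemma ga_diff (a T : ℝ) : Differentiable ℂ (ga a T) := by
  unfold ga
  fun_prop

lemma ga_dec {a : ℝ} (ha : 0 < a) (T : ℝ) :
    Dec (ga a T) (Real.exp (2 * a)) (a / (2 * (1 + T ^ 2))) := by
  refine ⟨ga_diff a T, fun w hw => ?_⟩
  rw [ga_norm, ← Real.exp_add, ← Real.exp_add]
  apply Real.exp_le_exp.2
  have h1 : w.re ^ 2 ≤ 1 := by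
    rw [← sq_abs]
    nlinarith [abs_nonneg w.re]
  have h2 : a * w.re ^ 2 ≤ a := by nlinarith
  have h3 : a / (2 * (1 + T ^ 2)) * w.im ^ 2 ≤ a * (w.im - T) ^ 2 + a := by
    rw [div_mul_eq_mul_div, div_le_iff₀ (by positivity)]
    have h4 : w.im ^ 2 ≤ 2 * (w.im - T) ^ 2 + 2 * T ^ 2 := by nlinarith [sq_nonneg (w.im - 2 * T)]
    have h5 : a * w.im ^ 2 ≤ a * (2 * (w.im - T) ^ 2 + 2 * T ^ 2) := mul_le_mul_of_nonneg_left h4 ha.le
    have h6 : 0 ≤ a * ((w.im - T) ^ 2 * T ^ 2) := by positivity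
    nlinarith
  linarith

lemma ga_line (a T σ v : ℝ) : ‖ga a T ⟨σ, v⟩‖ = Real.exp (a * σ ^ 2) * Real.exp (-a * (v - T) ^ 2) :=
  ga_norm a T ⟨σ, v⟩

lemma ga_zero (a T v : ℝ) : ga a T ⟨0, v⟩ = ((Real.exp (-a * (v - T) ^ 2) : ℝ) : ℂ) := by
  unfold ga
  rw [Complex.ofReal_exp]
  congr 1
  have h : (⟨0, v⟩ : ℂ) - I * T = I * ((v - T : ℝ) : ℂ) := by
    apply Complex.ext <;> simp
  rw [h, mul_pow, I_sq]
  push_cast
  ring

lemma int_shift {a : ℝ} (T : ℝ) : ∫ v : ℝ, Real.exp (-a * (v - T) ^ 2) = Real.sqrt (Real.pi / a) := by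
  rw [← integral_gaussian a, ← integral_sub_right_eq_self (fun v => Real.exp (-a * v ^ 2)) T]

/-- the majorant -/
noncomputable def maj (a u : ℝ) : ℝ := (|u| + 3) * Real.exp (-a * u ^ 2)

lemma maj_nonneg (a u : ℝ) : 0 ≤ maj a u := by unfold maj; positivity

lemma maj_int {a : ℝ} (ha : 0 < a) : Integrable (maj a) := by
  unfold maj
  have h1 := (integrable_mul_exp_neg_mul_sq ha).norm
  have h2 := (integrable_exp_neg_mul_sq ha).const_mul 3
  refine (h1.add h2).congr (Eventually.of_forall fun u => ?_)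
  simp only [Pi.add_apply, norm_mul, Real.norm_eq_abs, abs_of_pos (Real.exp_pos _)]
  ring

lemma log_sub_le {x y : ℝ} (hx : 1 ≤ x) (hy : 1 ≤ y) : |Real.log x - Real.log y| ≤ |x - y| := by
  have key : ∀ x y : ℝ, 1 ≤ y → y ≤ x → Real.log x - Real.log y ≤ x - y := by
    intro x y hy hyx
    have hy0 : 0 < y := by linarith
    have hx0 : 0 < x := by linarith
    rw [← Real.log_div hx0.ne' hy0.ne']
    have h1 := Real.log_le_sub_one_of_pos (show 0 < x / y by positivity)
    have h2 : x / y - 1 ≤ x - y := by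
      rw [div_sub_one hy0.ne', div_le_iff₀ hy0]
      nlinarith
    linarith
  rcases le_total y x with h | h
  · rw [abs_of_nonneg (sub_nonneg.2 (Real.log_le_log (by linarith) h)), abs_of_nonneg (sub_nonneg.2 h)]
    exact key x y hy h
  · rw [abs_sub_comm, abs_sub_comm x y, abs_of_nonneg (sub_nonneg.2 (Real.log_le_log (by linarith) h)),
      abs_of_nonneg (sub_nonneg.2 h)]
    exact key y x hx h

lemma piece {a : ℝ} (ha : 0 < a) {s : Set ℝ} (hs : MeasurableSet s) (f : ℝ → ℝ) (c : ℝ)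
    (hf : ∀ v ∈ s, |f v| ≤ maj a (v - c)) : |∫ v in s, f v| ≤ ∫ u, maj a u := by
  have hi : Integrable (fun v => maj a (v - c)) := (maj_int ha).comp_sub_right c
  calc |∫ v in s, f v| = ‖∫ v in s, f v‖ := (Real.norm_eq_abs _).symm
    _ ≤ ∫ v in s, maj a (v - c) := by
        apply norm_integral_le_of_norm_le hi.integrableOn
        rw [ae_restrict_iff' hs]
        exact Eventually.of_forall fun v hv => by rw [Real.norm_eq_abs]; exact hf v hv
    _ ≤ ∫ v, maj a (v - c) := setIntegral_le_integral hi (Eventually.of_forall fun v => maj_nonneg _ _)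
    _ = ∫ u, maj a u := integral_sub_right_eq_self (fun u => maj a u) c

lemma main_int {a : ℝ} (ha : 0 < a) {U0 T : ℝ} (hU : 3 ≤ U0) (hU4 : U0 ≤ 4) (hT : 10 ≤ T) :
    |(∫ v in Ioi U0, Real.log v * Real.exp (-a * (v - T) ^ 2)) +
      (∫ v in Ioi U0, Real.log v * Real.exp (-a * (-v - T) ^ 2)) - Real.log T * Real.sqrt (Real.pi / a)| ≤
      3 * ∫ u, maj a u := by
  have hg : Integrable (fun v : ℝ => Real.exp (-a * (v - T) ^ 2)) :=
    (integrable_exp_neg_mul_sq ha).comp_sub_right T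
  have hsplit : Real.sqrt (Real.pi / a) = (∫ v in Iic U0, Real.exp (-a * (v - T) ^ 2)) +
      ∫ v in Ioi U0, Real.exp (-a * (v - T) ^ 2) := by
    rw [← int_shift T, ← compl_Iic, integral_add_compl measurableSet_Iic hg]
  have hd : IntegrableOn (fun v => (Real.log v - Real.log T) * Real.exp (-a * (v - T) ^ 2)) (Ioi U0) := by
    have hi : Integrable (fun v => maj a (v - T)) := (maj_int ha).comp_sub_right T
    refine Integrable.mono' hi.integrableOn ?_ ?_
    · exact (((Real.measurable_log.sub_const _).mul (by fun_prop)) : Measurable _).aestronglyMeasurable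
    · rw [ae_restrict_iff' measurableSet_Ioi]
      refine Eventually.of_forall fun v hv => ?_
      have hv' : U0 < v := hv
      rw [norm_mul, Real.norm_eq_abs, Real.norm_eq_abs, abs_of_pos (Real.exp_pos _)]
      unfold maj
      have := log_sub_le (x := v) (y := T) (by linarith) (by linarith)
      gcongr
      linarith
  have h1 : (∫ v in Ioi U0, Real.log v * Real.exp (-a * (v - T) ^ 2)) =
      (∫ v in Ioi U0, (Real.log v - Real.log T) * Real.exp (-a * (v - T) ^ 2)) +
      Real.log T * ∫ v in Ioi U0, Real.exp (-a * (v - T) ^ 2) := by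
    rw [← integral_const_mul, ← integral_add hd (hg.integrableOn.const_mul _)]
    refine setIntegral_congr_fun measurableSet_Ioi fun v _ => ?_
    ring
  have e : (∫ v in Ioi U0, Real.log v * Real.exp (-a * (v - T) ^ 2)) +
      (∫ v in Ioi U0, Real.log v * Real.exp (-a * (-v - T) ^ 2)) - Real.log T * Real.sqrt (Real.pi / a) =
      (∫ v in Ioi U0, (Real.log v - Real.log T) * Real.exp (-a * (v - T) ^ 2)) +
      (∫ v in Ioi U0, Real.log v * Real.exp (-a * (-v - T) ^ 2)) -
      ∫ v in Iic U0, Real.log T * Real.exp (-a * (v - T) ^ 2) := by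
    rw [h1, hsplit, integral_const_mul]
    ring
  rw [e]
  have b1 := piece ha measurableSet_Ioi (s := Ioi U0)
    (fun v => (Real.log v - Real.log T) * Real.exp (-a * (v - T) ^ 2)) T (fun v hv => by
      have hv' : U0 < v := hv
      rw [abs_mul, abs_of_pos (Real.exp_pos _)]
      unfold maj
      have := log_sub_le (x := v) (y := T) (by linarith) (by linarith)
      gcongr
      linarith)
  have b2 := piece ha measurableSet_Ioi (s := Ioi U0)
    (fun v => Real.log v * Real.exp (-a * (-v - T) ^ 2)) (-T) (fun v hv => by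
      have hv' : U0 < v := hv
      have h2 : (-v - T) ^ 2 = (v - -T) ^ 2 := by ring
      rw [abs_mul, abs_of_pos (Real.exp_pos _), h2]
      unfold maj
      have h3 : |Real.log v| ≤ |v - -T| + 3 := by
        rw [abs_of_nonneg (Real.log_nonneg (by linarith)), abs_of_nonneg (by linarith : 0 ≤ v - -T)]
        have := Real.log_le_sub_one_of_pos (show 0 < v by linarith)
        linarith
      gcongr)
  have b3 := piece ha measurableSet_Iic (s := Iic U0)
    (fun v => Real.log T * Real.exp (-a * (v - T) ^ 2)) T (fun v hv => by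
      have hv' : v ≤ U0 := hv
      rw [abs_mul, abs_of_pos (Real.exp_pos _)]
      unfold maj
      have h3 : |Real.log T| ≤ |v - T| + 3 := by
        rw [abs_of_nonneg (Real.log_nonneg (by linarith)), abs_of_neg (by linarith : v - T < 0)]
        have := Real.log_le_sub_one_of_pos (show 0 < T by linarith)
        linarith
      gcongr)
  calc _ ≤ |∫ v in Ioi U0, (Real.log v - Real.log T) * Real.exp (-a * (v - T) ^ 2)| +
      |∫ v in Ioi U0, Real.log v * Real.exp (-a * (-v - T) ^ 2)| +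
      |∫ v in Iic U0, Real.log T * Real.exp (-a * (v - T) ^ 2)| := by
        refine (abs_sub _ _).trans ?_
        gcongr
        exact abs_add_le _ _
    _ ≤ _ := by linarith

/-- the sum of the Gaussians over the zeros -/
noncomputable def SG (a T : ℝ) : ℝ := ∑' ρ : Zt, (mu ρ : ℝ) * (ga a T ((ρ : ℂ) - 1 / 2)).re

lemma ga_summable {a : ℝ} (ha : 0 < a) (T : ℝ) :
    Summable (fun ρ : Zt => ‖(mu ρ : ℂ) * ga a T ((ρ : ℂ) - 1 / 2)‖) :=
  dec_summable (by positivity) (by positivity) (ga_dec ha T)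

lemma ga_summable_re {a : ℝ} (ha : 0 < a) (T : ℝ) :
    Summable (fun ρ : Zt => (mu ρ : ℝ) * (ga a T ((ρ : ℂ) - 1 / 2)).re) := by
  have h := (ga_summable ha T).of_norm
  have h2 := h.mapL reCLM
  refine h2.congr fun ρ => ?_
  simp

/-- the explicit formula for Gaussians at height `T` -/
theorem gsum {a : ℝ} (ha : 0 < a) : ∃ C : ℝ, 0 < C ∧ ∀ T : ℝ, 10 ≤ T →
    |2 * Real.pi * SG a T - Real.log T * Real.sqrt (Real.pi / a)| ≤ C := by
  obtain ⟨C, U0, hC, hU3, hU4, h⟩ := ef_two
  have hJ0 : 0 ≤ ∫ u, maj a u := integral_nonneg fun u => maj_nonneg a u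
  refine ⟨C * (Real.exp (2 * a) + Real.exp a * Real.sqrt (Real.pi / a) +
    Real.exp a * Real.sqrt (Real.pi / a)) + 3 * ∫ u, maj a u, by positivity, fun T hT => ?_⟩
  have h1 := h (ga a T) (Real.exp (2 * a)) (a / (2 * (1 + T ^ 2))) (by positivity) (by positivity)
    (ga_dec ha T)
  have hJ : ∀ σ : ℝ, σ ^ 2 = 1 → ∫ v : ℝ, ‖ga a T (⟨σ, v⟩ : ℂ)‖ = Real.exp a * Real.sqrt (Real.pi / a) := by
    intro σ hσ
    simp only [ga_line, hσ, mul_one]
    rw [integral_const_mul, int_shift]
  rw [hJ 1 (by norm_num), hJ (-1) (by norm_num)] at h1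
  have e1 : (∫ v in Ioi U0, (Real.log v : ℂ) * ga a T (⟨0, v⟩ : ℂ)) =
      ((∫ v in Ioi U0, Real.log v * Real.exp (-a * (v - T) ^ 2) : ℝ) : ℂ) := by
    rw [← integral_complex_ofReal]
    refine setIntegral_congr_fun measurableSet_Ioi fun v _ => ?_
    simp only [ga_zero]
    push_cast
    ring
  have e2 : (∫ v in Ioi U0, (Real.log v : ℂ) * ga a T (⟨0, -v⟩ : ℂ)) =
      ((∫ v in Ioi U0, Real.log v * Real.exp (-a * (-v - T) ^ 2) : ℝ) : ℂ) := by
    rw [← integral_complex_ofReal]
    refine setIntegral_congr_fun measurableSet_Ioi fun v _ => ?_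
    simp only [ga_zero]
    push_cast
    ring
  rw [e1, e2] at h1
  set I1 := ∫ v in Ioi U0, Real.log v * Real.exp (-a * (v - T) ^ 2) with hI1
  set I2 := ∫ v in Ioi U0, Real.log v * Real.exp (-a * (-v - T) ^ 2) with hI2
  have h2 : SG a T = (∑' ρ : Zt, (mu ρ : ℂ) * ga a T ((ρ : ℂ) - 1 / 2)).re := by
    unfold SG
    rw [Complex.re_tsum (ga_summable ha T).of_norm]
    refine tsum_congr fun ρ => ?_
    simp
  have h3 : |2 * Real.pi * SG a T - (I1 + I2)| ≤ C * (Real.exp (2 * a) +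
      Real.exp a * Real.sqrt (Real.pi / a) + Real.exp a * Real.sqrt (Real.pi / a)) := by
    refine le_trans ?_ h1
    have h4 := Complex.abs_re_le_norm ((2 * Real.pi : ℂ) * (∑' ρ : Zt, (mu ρ : ℂ) * ga a T ((ρ : ℂ) - 1 / 2)) -
      ((I1 : ℂ) + (I2 : ℂ)))
    refine le_trans (le_of_eq ?_) h4
    congr 1
    rw [h2]
    simp only [sub_re, mul_re, add_re, ofReal_re, ofReal_im, re_ofNat, im_ofNat, mul_im]
    ring
  have h5 := main_int ha hU3 hU4 hT
  have h6 := abs_sub_le (2 * Real.pi * SG a T) (I1 + I2) (Real.log T * Real.sqrt (Real.pi / a))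
  linarith

end Q270LD
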