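import Pool.Agent.Q270.LD.A3

/-! # The main inequality -/

set_option autoImplicit false

open Complex Filter Topology Set MeasureTheory
open Pool.Agent.Y23

namespace Q270LD

/-- zeros at height at most `R` -/
noncomputable def W (R : ℝ) : Finset Zt := (finite_low R).toFinset

lemma mem_W {R : ℝ} {ρ : Zt} : ρ ∈ W R ↔ |(ρ : ℂ).im| ≤ R := by
  unfold W
  rw [Set.Finite.mem_toFinset]
  rfl

/-- at height `T ≥ T1` the region with profile `r` has at least `c log T` zeros -/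
def Hyp (r : ℝ → ℝ) (c T1 : ℝ) : Prop := ∀ T : ℝ, T1 ≤ T → ∃ F : Finset Zt,
  (∀ ρ ∈ F, |(ρ : ℂ).im - T| < r ((ρ : ℂ).re - 1 / 2)) ∧ c * Real.log T ≤ ∑ ρ ∈ F, (mu ρ : ℝ)

lemma zt_re (ρ : Zt) : |((ρ : ℂ) - 1 / 2).re| ≤ 1 / 2 := by
  have := ρ.2
  have e : ((ρ : ℂ) - 1 / 2).re = (ρ : ℂ).re - 1 / 2 := by simp
  rw [e, abs_le]
  constructor <;> linarith [this.2.1, this.2.2]

lemma zt_re' (ρ : Zt) : ((ρ : ℂ) - 1 / 2).re = (ρ : ℂ).re - 1 / 2 := by simp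

lemma zt_im (ρ : Zt) : ((ρ : ℂ) - 1 / 2).im = (ρ : ℂ).im := by simp

lemma qsumZ : ∃ K : ℝ, 0 < K ∧ ∀ A : ℝ, 1 ≤ A → ∀ T : ℝ, ∀ S : Finset Zt,
    ∑ ρ ∈ S, (mu ρ : ℝ) * q A ((ρ : ℂ).im - T) ≤ K * (Lg T / A + 1) := by
  obtain ⟨K, hK, h⟩ := qsum
  refine ⟨K, hK, fun A hA T S => ?_⟩
  have := h A hA T (S.map (Function.Embedding.subtype _)) (by
    intro s hs
    rw [Finset.mem_map] at hs
    obtain ⟨u, _, rfl⟩ := hs
    exact u.2)
  rwa [Finset.sum_map] at this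

lemma gauss_q {a t : ℝ} (ha : 0 < a) (ha1 : a ≤ 1) :
    Real.exp (-a * t ^ 2) ≤ 27 / (a ^ 2 * (1 + t ^ 2) ^ 2) := by
  have h1 := cube_le (y := a * t ^ 2) (by positivity)
  have h2 : a * (1 + t ^ 2) ≤ 1 + a * t ^ 2 := by nlinarith
  have h3 : (a * (1 + t ^ 2)) ^ 2 ≤ (1 + a * t ^ 2) ^ 2 := pow_le_pow_left₀ (by positivity) h2 2
  have h4 : (1 + a * t ^ 2) ^ 2 ≤ (1 + a * t ^ 2) ^ 3 := by
    have h5 : 1 ≤ 1 + a * t ^ 2 := by
      have : 0 ≤ a * t ^ 2 := by positivity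
      linarith
    exact pow_le_pow_right₀ h5 (by norm_num)
  have e : -a * t ^ 2 = -(a * t ^ 2) := by ring
  rw [e, le_div_iff₀ (by positivity), Real.exp_neg, inv_mul_eq_div, div_le_iff₀ (Real.exp_pos _)]
  nlinarith

lemma exp_quarter : Real.exp (1 / 4) ≤ 2 := by
  have h6 := Real.exp_one_lt_d9
  have h8 : Real.exp (1 / 4) ^ 4 = Real.exp 1 := by
    rw [← Real.exp_nat_mul]; norm_num
  by_contra hcon
  push Not at hcon
  have : (2 : ℝ) ^ 4 < Real.exp (1 / 4) ^ 4 := pow_lt_pow_left₀ hcon (by norm_num) (by norm_num)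
  rw [h8] at this
  norm_num at this
  linarith

lemma ga_abs_le {a : ℝ} (ha1 : a ≤ 1) (T : ℝ) (ρ : Zt) :
    |(ga a T ((ρ : ℂ) - 1 / 2)).re| ≤ 2 * Real.exp (-a * ((ρ : ℂ).im - T) ^ 2) := by
  refine (Complex.abs_re_le_norm _).trans ?_
  rw [ga_norm, zt_im]
  have h1 := zt_re ρ
  have h2 : ((ρ : ℂ) - 1 / 2).re ^ 2 ≤ 1 / 4 := by
    rw [← sq_abs]; nlinarith [abs_nonneg ((ρ : ℂ) - 1 / 2).re]
  have h3 : Real.exp (a * ((ρ : ℂ) - 1 / 2).re ^ 2) ≤ 2 :=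
    (Real.exp_le_exp.2 (by nlinarith [sq_nonneg ((ρ : ℂ) - 1 / 2).re])).trans exp_quarter
  exact mul_le_mul_of_nonneg_right h3 (Real.exp_pos _).le

/-- the finite sum against the full sum -/
lemma sum_low {a : ℝ} (ha : 0 < a) (ha1 : a ≤ 1) : ∃ C : ℝ, 0 < C ∧ ∀ T : ℝ, 20 ≤ T →
    ∑ ρ ∈ W (2 * T), (mu ρ : ℝ) * (ga a T ((ρ : ℂ) - 1 / 2)).re ≤ SG a T + C := by
  obtain ⟨K, hK, hz⟩ := zsum_le
  refine ⟨54 / a ^ 2 * K, by positivity, fun T hT => ?_⟩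
  have hs1 := ga_summable_re ha T
  have hs2 := zsummable T
  set η : ℝ := 54 / (a ^ 2 * (1 + T ^ 2)) with hη
  have hη0 : 0 ≤ η := by positivity
  have h1 : ∑ ρ ∈ W (2 * T), (mu ρ : ℝ) * (ga a T ((ρ : ℂ) - 1 / 2)).re ≤
      ∑ ρ ∈ W (2 * T), ((mu ρ : ℝ) * (ga a T ((ρ : ℂ) - 1 / 2)).re +
        η * ((mu ρ : ℝ) * (1 / (1 + ((ρ : ℂ).im - T) ^ 2)))) := by
    refine Finset.sum_le_sum fun ρ _ => ?_
    have : 0 ≤ η * ((mu ρ : ℝ) * (1 / (1 + ((ρ : ℂ).im - T) ^ 2))) := by positivity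
    linarith
  have h2 : ∑ ρ ∈ W (2 * T), ((mu ρ : ℝ) * (ga a T ((ρ : ℂ) - 1 / 2)).re +
        η * ((mu ρ : ℝ) * (1 / (1 + ((ρ : ℂ).im - T) ^ 2)))) ≤
      ∑' ρ : Zt, ((mu ρ : ℝ) * (ga a T ((ρ : ℂ) - 1 / 2)).re +
        η * ((mu ρ : ℝ) * (1 / (1 + ((ρ : ℂ).im - T) ^ 2)))) := by
    refine Summable.sum_le_tsum _ (fun ρ hρ => ?_) (hs1.add (hs2.mul_left η))
    rw [mem_W, not_le] at hρ
    have h3 : T ^ 2 ≤ ((ρ : ℂ).im - T) ^ 2 := by
      rcases abs_cases (ρ : ℂ).im with ⟨h, _⟩ | ⟨h, _⟩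
      · rw [h] at hρ; nlinarith
      · rw [h] at hρ; nlinarith
    have h4 := ga_abs_le ha1 T ρ
    have h5 := gauss_q (t := (ρ : ℂ).im - T) ha ha1
    set t := (ρ : ℂ).im - T with ht
    have h6 : 54 / (a ^ 2 * (1 + t ^ 2) ^ 2) ≤ η * (1 / (1 + t ^ 2)) := by
      rw [hη, div_mul_div_comm, mul_one]
      have h6a : a ^ 2 * (1 + T ^ 2) * (1 + t ^ 2) ≤ a ^ 2 * (1 + t ^ 2) ^ 2 := by
        have : (1 + T ^ 2) * (1 + t ^ 2) ≤ (1 + t ^ 2) * (1 + t ^ 2) := by gcongr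
        nlinarith [sq_nonneg a, this]
      exact div_le_div_of_nonneg_left (by norm_num) (by positivity) h6a
    have h7 : |(ga a T ((ρ : ℂ) - 1 / 2)).re| ≤ η * (1 / (1 + t ^ 2)) := by
      have e : 2 * (27 / (a ^ 2 * (1 + t ^ 2) ^ 2)) = 54 / (a ^ 2 * (1 + t ^ 2) ^ 2) := by ring
      linarith
    have h8 := neg_abs_le (ga a T ((ρ : ℂ) - 1 / 2)).re
    have h9 : (0 : ℝ) ≤ mu ρ := Nat.cast_nonneg _
    have h10 : 0 ≤ (ga a T ((ρ : ℂ) - 1 / 2)).re + η * (1 / (1 + t ^ 2)) := by linarith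
    nlinarith [mul_nonneg h9 h10]
  rw [Summable.tsum_add hs1 (hs2.mul_left η), tsum_mul_left] at h2
  have h3 : η * ∑' ρ : Zt, (mu ρ : ℝ) * (1 / (1 + ((ρ : ℂ).im - T) ^ 2)) ≤ 54 / a ^ 2 * K := by
    calc η * ∑' ρ : Zt, (mu ρ : ℝ) * (1 / (1 + ((ρ : ℂ).im - T) ^ 2)) ≤ η * (K * Lg T) :=
          mul_le_mul_of_nonneg_left (hz T) hη0
      _ = 54 / a ^ 2 * K * (Lg T / (1 + T ^ 2)) := by
          rw [hη]; field_simp
      _ ≤ 54 / a ^ 2 * K * 1 := by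
          refine mul_le_mul_of_nonneg_left ?_ (by positivity)
          rw [div_le_one (by positivity)]
          unfold Lg
          rw [abs_of_nonneg (by linarith)]
          have := Real.log_le_sub_one_of_pos (show 0 < 3 + T by linarith)
          nlinarith
      _ = _ := mul_one _
  have h4 : SG a T = ∑' ρ : Zt, (mu ρ : ℝ) * (ga a T ((ρ : ℂ) - 1 / 2)).re := rfl
  linarith

/-- mass of the Gaussian in `[-T/2, T/2]` -/
lemma mass_low {a : ℝ} (ha : 0 < a) {T : ℝ} (hT : 20 ≤ T) :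
    Real.log T * Real.sqrt (Real.pi / a) - (Real.sqrt (Real.pi / a) + ∫ u, maj a u) ≤
      Real.log (T / 2) * ∫ v in Icc (-(T / 2)) (T / 2), Real.exp (-a * v ^ 2) := by
  have hg := integrable_exp_neg_mul_sq ha
  have h1 : Real.sqrt (Real.pi / a) = (∫ v in Icc (-(T / 2)) (T / 2), Real.exp (-a * v ^ 2)) +
      ∫ v in (Icc (-(T / 2)) (T / 2))ᶜ, Real.exp (-a * v ^ 2) := by
    rw [← integral_gaussian a, integral_add_compl measurableSet_Icc hg]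
  set G := Real.sqrt (Real.pi / a)
  set M := ∫ v in Icc (-(T / 2)) (T / 2), Real.exp (-a * v ^ 2) with hM
  set N := ∫ v in (Icc (-(T / 2)) (T / 2))ᶜ, Real.exp (-a * v ^ 2) with hN
  have hN0 : 0 ≤ N := integral_nonneg fun v => (Real.exp_pos _).le
  have hM0 : 0 ≤ M := integral_nonneg fun v => (Real.exp_pos _).le
  have hlog2 : Real.log (T / 2) = Real.log T - Real.log 2 := Real.log_div (by linarith) (by norm_num)
  have hl2 := Real.log_two_lt_d9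
  have hl20 := Real.log_two_gt_d9
  have h2 : |∫ v in (Icc (-(T / 2)) (T / 2))ᶜ, Real.log T * Real.exp (-a * v ^ 2)| ≤ ∫ u, maj a u := by
    refine piece ha measurableSet_Icc.compl _ 0 fun v hv => ?_
    have hv' : T / 2 < |v| := by
      rw [mem_compl_iff, mem_Icc, ← abs_le] at hv
      exact not_le.1 hv
    rw [sub_zero, abs_mul, abs_of_pos (Real.exp_pos _)]
    unfold maj
    have h3 : |Real.log T| ≤ |v| + 3 := by
      rw [abs_of_nonneg (Real.log_nonneg (by linarith))]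
      have := Real.log_le_sub_one_of_pos (show 0 < T / 2 by linarith)
      linarith
    gcongr
  rw [integral_const_mul, ← hN] at h2
  have h3 := le_abs_self (Real.log T * N)
  have hL : 0 ≤ Real.log T := Real.log_nonneg (by linarith)
  rw [hlog2, h1]
  nlinarith [mul_nonneg hM0 (by linarith : 0 ≤ 1 - Real.log 2)]

lemma hyp_point {r : ℝ → ℝ} {r0 c T1 T v : ℝ} (hc : 0 ≤ c) (hr : ∀ x, r x ≤ r0) (h : Hyp r c T1)
    (hT : 20 ≤ T) (hT2 : 2 * r0 ≤ T) (hT3 : 2 * T1 ≤ T) (hv : v ∈ Icc (-(T / 2)) (T / 2)) :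
    c * Real.log (T / 2) ≤ ∑ ρ ∈ W (2 * T), (mu ρ : ℝ) *
      (Ioo ((ρ : ℂ).im - T - r ((ρ : ℂ).re - 1 / 2)) ((ρ : ℂ).im - T + r ((ρ : ℂ).re - 1 / 2))).indicator
        (fun _ => (1 : ℝ)) v := by
  obtain ⟨F, hF, hF2⟩ := h (T + v) (by linarith [hv.1])
  have h1 : c * Real.log (T / 2) ≤ c * Real.log (T + v) :=
    mul_le_mul_of_nonneg_left (Real.log_le_log (by linarith) (by linarith [hv.1])) hc
  refine h1.trans (hF2.trans ?_)
  have hsub : F ⊆ W (2 * T) := by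
    intro ρ hρ
    rw [mem_W]
    have h2 := hF ρ hρ
    have h3 := hr ((ρ : ℂ).re - 1 / 2)
    have h4 := abs_lt.1 (h2.trans_le h3)
    rw [abs_le]
    constructor <;> linarith [h4.1, h4.2, hv.1, hv.2]
  calc ∑ ρ ∈ F, (mu ρ : ℝ) = ∑ ρ ∈ F, (mu ρ : ℝ) *
      (Ioo ((ρ : ℂ).im - T - r ((ρ : ℂ).re - 1 / 2)) ((ρ : ℂ).im - T + r ((ρ : ℂ).re - 1 / 2))).indicator
        (fun _ => (1 : ℝ)) v := by
        refine Finset.sum_congr rfl fun ρ hρ => ?_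
        have h2 := abs_lt.1 (hF ρ hρ)
        rw [indicator_of_mem (by constructor <;> linarith [h2.1, h2.2]), mul_one]
    _ ≤ _ := by
        refine Finset.sum_le_sum_of_subset_of_nonneg hsub fun ρ _ _ => ?_
        exact mul_nonneg (Nat.cast_nonneg _) (indicator_nonneg (fun _ _ => zero_le_one) _)

lemma hyp_int {r : ℝ → ℝ} {r0 c T1 T a : ℝ} (ha : 0 < a) (hc : 0 ≤ c) (hr : ∀ x, r x ≤ r0) (h : Hyp r c T1)
    (hT : 20 ≤ T) (hT2 : 2 * r0 ≤ T) (hT3 : 2 * T1 ≤ T) :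
    c * (Real.log (T / 2) * ∫ v in Icc (-(T / 2)) (T / 2), Real.exp (-a * v ^ 2)) ≤
      ∑ ρ ∈ W (2 * T), (mu ρ : ℝ) * Psi a (r ((ρ : ℂ).re - 1 / 2)) ((ρ : ℂ).im - T) := by
  have hg := integrable_exp_neg_mul_sq ha
  set J : Zt → Set ℝ := fun ρ =>
    Ioo ((ρ : ℂ).im - T - r ((ρ : ℂ).re - 1 / 2)) ((ρ : ℂ).im - T + r ((ρ : ℂ).re - 1 / 2)) with hJ
  have h1 : c * (Real.log (T / 2) * ∫ v in Icc (-(T / 2)) (T / 2), Real.exp (-a * v ^ 2)) =
      ∫ v in Icc (-(T / 2)) (T / 2), c * Real.log (T / 2) * Real.exp (-a * v ^ 2) := by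
    rw [integral_const_mul, mul_assoc]
  have hi : ∀ ρ : Zt, IntegrableOn (fun v => (mu ρ : ℝ) * (J ρ).indicator (fun v => Real.exp (-a * v ^ 2)) v)
      (Icc (-(T / 2)) (T / 2)) := fun ρ =>
    ((hg.indicator measurableSet_Ioo).const_mul _).integrableOn
  rw [h1]
  calc ∫ v in Icc (-(T / 2)) (T / 2), c * Real.log (T / 2) * Real.exp (-a * v ^ 2) ≤
      ∫ v in Icc (-(T / 2)) (T / 2), ∑ ρ ∈ W (2 * T),
        (mu ρ : ℝ) * (J ρ).indicator (fun v => Real.exp (-a * v ^ 2)) v := by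
        refine setIntegral_mono_on (hg.const_mul _).integrableOn (integrable_finsetSum _ fun ρ _ => hi ρ)
          measurableSet_Icc fun v hv => ?_
        have h2 := mul_le_mul_of_nonneg_right (hyp_point hc hr h hT hT2 hT3 hv) (Real.exp_pos (-a * v ^ 2)).le
        refine h2.trans (le_of_eq ?_)
        rw [Finset.sum_mul]
        refine Finset.sum_congr rfl fun ρ _ => ?_
        by_cases hm : v ∈ J ρ
        · rw [indicator_of_mem hm, indicator_of_mem hm, mul_one]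
        · rw [indicator_of_notMem hm, indicator_of_notMem hm]
          ring
    _ = ∑ ρ ∈ W (2 * T), ∫ v in Icc (-(T / 2)) (T / 2),
        (mu ρ : ℝ) * (J ρ).indicator (fun v => Real.exp (-a * v ^ 2)) v := integral_finsetSum _ fun ρ _ => hi ρ
    _ ≤ _ := by
        refine Finset.sum_le_sum fun ρ _ => ?_
        rw [integral_const_mul]
        refine mul_le_mul_of_nonneg_left ?_ (Nat.cast_nonneg _)
        rw [setIntegral_indicator measurableSet_Ioo]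
        unfold Psi
        refine setIntegral_mono_set hg.integrableOn (Eventually.of_forall fun v => (Real.exp_pos _).le) ?_
        exact (inter_subset_right).eventuallyLE

/-- **The main inequality.** -/
theorem master {r0 : ℝ} (hr0 : 0 < r0) : ∃ K : ℝ, 0 < K ∧ ∀ A : ℝ, 1 ≤ A → 2 * r0 ≤ A → ∃ C : ℝ, 0 < C ∧
    ∀ (r : ℝ → ℝ) (c T1 : ℝ), 0 ≤ c → (∀ x, r x ≤ r0) → Hyp r c T1 → ∀ T : ℝ, 20 ≤ T → 2 * r0 ≤ T →
      2 * T1 ≤ T →
      2 * ∑ ρ ∈ W (2 * T), (mu ρ : ℝ) * ((r0 - max (r ((ρ : ℂ).re - 1 / 2)) 0) *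
        Real.exp (-(1 / A ^ 2) * ((ρ : ℂ).im - T) ^ 2)) ≤
      (r0 / Real.pi - c) * (Real.sqrt Real.pi * A) * Real.log T + K * (Real.log T / A) + C * (1 + c) := by
  obtain ⟨Kq, hKq, hq⟩ := qsumZ
  set C0 : ℝ := 54 * r0 + 864 * r0 ^ 3 with hC0
  have hC00 : 0 < C0 := by positivity
  refine ⟨C0 * Kq, by positivity, fun A hA1 hA2 => ?_⟩
  have hA0 : 0 < A := by linarith
  have ha : 0 < 1 / A ^ 2 := by positivity
  have ha1 : 1 / A ^ 2 ≤ 1 := by rw [div_le_one (by positivity)]; nlinarith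
  obtain ⟨C1, hC1, hg⟩ := gsum ha
  obtain ⟨C2, hC2, hs⟩ := sum_low ha ha1
  have hJ0 : 0 ≤ ∫ u, maj (1 / A ^ 2) u := integral_nonneg fun u => maj_nonneg _ u
  set G := Real.sqrt (Real.pi / (1 / A ^ 2)) with hG
  have hGe : G = Real.sqrt Real.pi * A := by
    rw [hG, div_div_eq_mul_div, div_one, Real.sqrt_mul Real.pi_pos.le, Real.sqrt_sq hA0.le]
  have hG0 : 0 ≤ G := Real.sqrt_nonneg _
  refine ⟨(G + ∫ u, maj (1 / A ^ 2) u) + (r0 * C1 + 2 * r0 * C2 + 2 * (C0 * Kq)) , by positivity, ?_⟩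
  intro r c T1 hc hr h T hT hT2 hT3
  have h1 := hyp_int ha hc hr h hT hT2 hT3
  have h2 := mass_low ha hT
  rw [← hG] at h2
  have h3 := mul_le_mul_of_nonneg_left h2 hc
  have h4 : ∑ ρ ∈ W (2 * T), (mu ρ : ℝ) * Psi (1 / A ^ 2) (r ((ρ : ℂ).re - 1 / 2)) ((ρ : ℂ).im - T) +
      2 * ∑ ρ ∈ W (2 * T), (mu ρ : ℝ) * ((r0 - max (r ((ρ : ℂ).re - 1 / 2)) 0) *
        Real.exp (-(1 / A ^ 2) * ((ρ : ℂ).im - T) ^ 2)) ≤
      2 * r0 * ∑ ρ ∈ W (2 * T), (mu ρ : ℝ) * (ga (1 / A ^ 2) T ((ρ : ℂ) - 1 / 2)).re +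
      C0 * ∑ ρ ∈ W (2 * T), (mu ρ : ℝ) * q A ((ρ : ℂ).im - T) := by
    rw [Finset.mul_sum, Finset.mul_sum, Finset.mul_sum, ← Finset.sum_add_distrib, ← Finset.sum_add_distrib]
    refine Finset.sum_le_sum fun ρ _ => ?_
    have h5 := pointwise (T := T) hA1 hr0 hA2 (hr (((ρ : ℂ) - 1 / 2).re)) (zt_re ρ)
    rw [zt_im, zt_re'] at h5
    have h6 := mul_le_mul_of_nonneg_left h5 (Nat.cast_nonneg (α := ℝ) (mu ρ))
    rw [← hC0] at h6
    nlinarith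
  have h5 := hs T hT
  have h6 := hq A hA1 T (W (2 * T))
  have h7 := (abs_le.1 (hg T (by linarith))).2
  have hLg : Lg T ≤ Real.log T + 1 := by
    unfold Lg
    rw [abs_of_nonneg (by linarith)]
    have h8 : Real.log (3 + T) ≤ Real.log (2 * T) := Real.log_le_log (by linarith) (by linarith)
    rw [Real.log_mul (by norm_num) (by linarith)] at h8
    linarith [Real.log_two_lt_d9]
  have h8 : Lg T / A + 1 ≤ Real.log T / A + 2 := by
    have : Lg T / A ≤ (Real.log T + 1) / A := by gcongr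
    have h9 : 1 / A ≤ 1 := by rw [div_le_one hA0]; exact hA1
    rw [add_div] at this
    linarith
  have h9 : C0 * ∑ ρ ∈ W (2 * T), (mu ρ : ℝ) * q A ((ρ : ℂ).im - T) ≤ C0 * Kq * (Real.log T / A) + 2 * (C0 * Kq) := by
    calc C0 * ∑ ρ ∈ W (2 * T), (mu ρ : ℝ) * q A ((ρ : ℂ).im - T) ≤ C0 * (Kq * (Real.log T / A + 2)) :=
          mul_le_mul_of_nonneg_left (h6.trans (mul_le_mul_of_nonneg_left h8 hKq.le)) hC00.le
      _ = _ := by ring
  have h10 : 2 * r0 * SG (1 / A ^ 2) T ≤ r0 / Real.pi * (Real.log T * G) + r0 * C1 := by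
    have hpi := Real.pi_pos
    have hpi3 := Real.pi_gt_three
    have h11 : SG (1 / A ^ 2) T ≤ (Real.log T * G + C1) / (2 * Real.pi) := by
      rw [le_div_iff₀ (by positivity)]
      linarith
    calc 2 * r0 * SG (1 / A ^ 2) T ≤ 2 * r0 * ((Real.log T * G + C1) / (2 * Real.pi)) :=
          mul_le_mul_of_nonneg_left h11 (by positivity)
      _ = r0 / Real.pi * (Real.log T * G) + r0 * (C1 / Real.pi) := by field_simp
      _ ≤ _ := by
          have : C1 / Real.pi ≤ C1 := div_le_self hC1.le (by linarith)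
          nlinarith
  have h11 : 2 * r0 * ∑ ρ ∈ W (2 * T), (mu ρ : ℝ) * (ga (1 / A ^ 2) T ((ρ : ℂ) - 1 / 2)).re ≤
      2 * r0 * (SG (1 / A ^ 2) T + C2) := mul_le_mul_of_nonneg_left h5 (by positivity)
  rw [← hGe]
  have h12 : 0 ≤ c * (r0 * C1 + 2 * r0 * C2 + 2 * (C0 * Kq)) := by positivity
  have h13 : 0 ≤ G + ∫ u, maj (1 / A ^ 2) u := by positivity
  nlinarith

end Q270LD
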