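import Pool.Agent.Q270.LD.A5

/-! # The Lindelof hypothesis gives few zeros off the line -/

set_option autoImplicit false

open Complex Filter Topology Set Metric
open Pool.Agent.Y23

namespace Q270LD

/-- the Lindelof hypothesis -/
def Lind : Prop := ∀ ε : ℝ, 0 < ε → ∃ C : ℝ, ∀ t : ℝ, ‖riemannZeta (1 / 2 + t * I)‖ ≤ C * (1 + |t|) ^ ε

/-- growth to the right of the critical line -/
theorem right_growth (h : Lind) {ε : ℝ} (hε : 0 < ε) : ∃ C : ℝ, 1 ≤ C ∧ ∀ s : ℂ, 1 / 2 ≤ s.re → 1 ≤ |s.im| →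
    ‖riemannZeta s‖ ≤ C * (1 + |s.im|) ^ ε := by
  obtain ⟨A, hA1, hA⟩ := DH31.zeta_bounds (a := 2) (by norm_num)
  obtain ⟨C, hC⟩ := h ε hε
  obtain ⟨T0, hT0⟩ : ∃ T0 : ℝ, T0 = max (max (|C| * 2 ^ ε) A) 1 := ⟨_, rfl⟩
  have hT1 : 1 ≤ T0 := by rw [hT0]; exact le_max_right _ _
  have hTC : |C| * 2 ^ ε ≤ T0 := by rw [hT0]; exact (le_max_left _ _).trans (le_max_left _ _)
  have hTA : A ≤ T0 := by rw [hT0]; exact (le_max_right _ _).trans (le_max_left _ _)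
  have hl : ∀ σ : ℝ, σ = 1 / 2 ∨ σ = 2 → ∀ t : ℝ, T0 ≤ t → ‖riemannZeta (σ + t * I)‖ ≤ T0 * t ^ ε := by
    intro σ hσ t ht
    have ht0 : 0 < t := by linarith
    have hp : 1 ≤ t ^ ε := Real.one_le_rpow (by linarith) hε.le
    rcases hσ with h1 | h1
    · have h2 := hC t
      rw [h1]
      push_cast
      refine h2.trans ?_
      have h3 : (1 + |t|) ^ ε ≤ 2 ^ ε * t ^ ε := by
        rw [← Real.mul_rpow (by norm_num) ht0.le, abs_of_pos ht0]
        exact Real.rpow_le_rpow (by linarith) (by linarith) hε.le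
      have h4 := le_abs_self C
      calc C * (1 + |t|) ^ ε ≤ |C| * (2 ^ ε * t ^ ε) := by gcongr
        _ = (|C| * 2 ^ ε) * t ^ ε := by ring
        _ ≤ T0 * t ^ ε := by gcongr
    · have h2 := (hA (σ + t * I) (by simp [h1])).1
      nlinarith
  obtain ⟨B, hB, hb⟩ := strip (by norm_num) (by norm_num) le_rfl hε.le hT1 hl
  refine ⟨max (2 * B) A, hA1.trans (le_max_right _ _), fun s hs1 hs2 => ?_⟩
  have hp : 1 ≤ (1 + |s.im|) ^ ε := Real.one_le_rpow (by linarith) hε.le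
  rcases le_or_gt s.re 2 with h1 | h1
  · have hne : s ≠ 1 := by
      intro h2
      rw [h2] at hs2
      norm_num at hs2
    have h3 : 1 + |s.im| ≤ 2 * ‖s - 1‖ := by
      have h4 := Complex.abs_im_le_norm (s - 1)
      rw [sub_im, one_im, sub_zero] at h4
      linarith
    refine (FF_div (by norm_num) hne h3 (hb s hs1 h1)).trans ?_
    exact mul_le_mul_of_nonneg_right (le_max_left _ _) (by linarith)
  · have h2 := (hA s h1.le).1
    have h3 : A ≤ max (2 * B) A := le_max_right _ _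
    nlinarith

/-- few zeros to the right of the line -/
theorem few_right (h : Lind) {δ η : ℝ} (hδ : 0 < δ) (hδ1 : δ ≤ 1 / 2) (hη : 0 < η) : ∃ T2 : ℝ,
    ∀ T : ℝ, T2 ≤ T → ∀ F : Finset Zt, (∀ ρ ∈ F, |(ρ : ℂ).im - T| ≤ 1 ∧ δ ≤ (ρ : ℂ).re - 1 / 2) →
      ∑ ρ ∈ F, (mu ρ : ℝ) ≤ η * Real.log T := by
  classical
  obtain ⟨b, hb⟩ : ∃ b : ℝ, b = 2 / δ + 2 := ⟨_, rfl⟩
  have h2δ : 4 ≤ 2 / δ := by rw [le_div_iff₀ hδ]; linarith
  have hb6 : 6 ≤ b := by linarith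
  obtain ⟨R, hR⟩ : ∃ R : ℝ, R = b - 1 / 2 - δ / 2 := ⟨_, rfl⟩
  obtain ⟨r, hr⟩ : ∃ r : ℝ, r = Real.sqrt ((b - 1 / 2 - δ) ^ 2 + 1) := ⟨_, rfl⟩
  have hr0 : 0 < r := by rw [hr]; apply Real.sqrt_pos.2; positivity
  have hR0 : 0 < R := by linarith
  have hrR : r < R := by
    rw [hr, Real.sqrt_lt' hR0, hR]
    have h1 : δ * b = 2 + 2 * δ := by rw [hb]; field_simp
    nlinarith
  have hlog : 0 < Real.log (R / r) := Real.log_pos (by rw [one_lt_div hr0]; exact hrR)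
  obtain ⟨ε, hε⟩ : ∃ ε : ℝ, ε = η * Real.log (R / r) / 2 := ⟨_, rfl⟩
  have hε0 : 0 < ε := by rw [hε]; positivity
  obtain ⟨C, hC1, hC⟩ := right_growth h hε0
  obtain ⟨A, hA1, hA⟩ := DH31.zeta_bounds (a := 2) (by norm_num)
  obtain ⟨D, hD⟩ : ∃ D : ℝ, D = Real.log C + ε * Real.log 2 + Real.log A := ⟨_, rfl⟩
  refine ⟨max (R + 1) (Real.exp (D / ε)), fun T hT F hF => ?_⟩
  have hTR : R + 1 ≤ T := (le_max_left _ _).trans hT
  have hTe : Real.exp (D / ε) ≤ T := (le_max_right _ _).trans hT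
  have hT0 : 0 < T := by linarith
  have hDL : D ≤ ε * Real.log T := by
    have h1 : D / ε ≤ Real.log T := by rw [Real.le_log_iff_exp_le hT0]; exact hTe
    rw [div_le_iff₀ hε0] at h1
    linarith
  have hball : ∀ z ∈ closedBall (⟨b, T⟩ : ℂ) R, 1 / 2 ≤ z.re ∧ 1 ≤ z.im ∧ z.im ≤ T + R := by
    intro z hz
    have h1 := DH31.ball_re_im hz
    have h2 := abs_le.1 h1.2
    refine ⟨by linarith [h1.1], by linarith [h2.1], by linarith [h2.2]⟩
  obtain ⟨M, hM⟩ : ∃ M : ℝ, M = C * (2 * T) ^ ε := ⟨_, rfl⟩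
  have hp1 : 1 ≤ (2 * T) ^ ε := Real.one_le_rpow (by linarith) hε0.le
  have hM1 : 1 ≤ M := by rw [hM]; nlinarith
  have hj := H370.Loc.jensen_mult (f := riemannZeta) (c := (⟨b, T⟩ : ℂ)) (r := r) (R := R) (M := M) hr0 hrR hM1
    (fun z hz => DH31.zeta_analyticAt (by linarith [(hball z hz).2.1]))
    (riemannZeta_ne_zero_of_one_le_re (by simp only; linarith))
    (fun z hz => by
      obtain ⟨h1, h2, h3⟩ := hball z hz
      have h4 : |z.im| = z.im := abs_of_nonneg (by linarith)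
      refine (hC z h1 (by rw [h4]; exact h2)).trans ?_
      rw [hM, h4]
      have : (1 + z.im) ^ ε ≤ (2 * T) ^ ε := Real.rpow_le_rpow (by linarith) (by linarith) hε0.le
      gcongr)
    (F.map (Function.Embedding.subtype _)) (by
      intro z hz
      rw [Finset.mem_map] at hz
      obtain ⟨ρ, hρ, rfl⟩ := hz
      obtain ⟨h1, h2⟩ := hF ρ hρ
      have h3 := ρ.2.2.2
      rw [mem_closedBall, dist_eq_norm]
      show ‖(ρ : ℂ) - ⟨b, T⟩‖ ≤ r
      rw [hr]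
      apply Real.le_sqrt_of_sq_le
      rw [← Complex.normSq_eq_norm_sq, Complex.normSq_apply, sub_re, sub_im]
      simp only
      have h4 : ((ρ : ℂ).im - T) * ((ρ : ℂ).im - T) ≤ 1 := by
        have := abs_mul_abs_self ((ρ : ℂ).im - T)
        nlinarith [abs_nonneg ((ρ : ℂ).im - T)]
      have h5 : 0 ≤ b - (ρ : ℂ).re := by linarith
      have h6 : b - (ρ : ℂ).re ≤ b - 1 / 2 - δ := by linarith
      nlinarith)
  rw [Finset.sum_map] at hj
  have hj2 : ∑ ρ ∈ F, (mu ρ : ℝ) ≤ Real.log (M / ‖riemannZeta ⟨b, T⟩‖) / Real.log (R / r) := hj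
  refine hj2.trans ?_
  rw [div_le_iff₀ hlog]
  have hz := hA (⟨b, T⟩ : ℂ) (by simp only; linarith)
  have hzp : 0 < ‖riemannZeta (⟨b, T⟩ : ℂ)‖ := lt_of_lt_of_le (by positivity) hz.2
  have hA0 : 0 < A := by linarith
  rw [Real.log_div (by linarith) hzp.ne']
  have h1 : -Real.log ‖riemannZeta (⟨b, T⟩ : ℂ)‖ ≤ Real.log A := by
    have := Real.log_le_log (by positivity) hz.2
    rw [one_div, Real.log_inv] at this
    linarith
  have h2 : Real.log M = Real.log C + ε * (Real.log 2 + Real.log T) := by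
    rw [hM, Real.log_mul (by linarith) (by linarith), Real.log_rpow (by positivity),
      Real.log_mul (by norm_num) hT0.ne']
  have h3 : η * Real.log T * Real.log (R / r) = 2 * (ε * Real.log T) := by rw [hε]; ring
  rw [h2, h3]
  have h4 : D = Real.log C + ε * Real.log 2 + Real.log A := hD
  nlinarith

/-- the reflection in the critical line -/
noncomputable def rf : Zt ↪ Zt where
  toFun ρ := ⟨1 - (starRingEnd ℂ) (ρ : ℂ), isZ_refl ρ.2⟩
  inj' := by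
    intro ρ ρ' h
    have h1 := congrArg (fun x : Zt => 1 - (starRingEnd ℂ) (x : ℂ)) h
    ext1
    simpa using h1

lemma rf_re (ρ : Zt) : ((rf ρ : Zt) : ℂ).re = 1 - (ρ : ℂ).re := by
  show (1 - (starRingEnd ℂ) (ρ : ℂ)).re = _
  simp

lemma rf_im (ρ : Zt) : ((rf ρ : Zt) : ℂ).im = (ρ : ℂ).im := by
  show (1 - (starRingEnd ℂ) (ρ : ℂ)).im = _
  simp

/-- **few zeros off the line** -/
theorem few_of_lind (h : Lind) {δ η : ℝ} (hδ : 0 < δ) (hη : 0 < η) : ∃ T2 : ℝ, Few δ η T2 := by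
  classical
  obtain ⟨T2, hT2⟩ := few_right h (δ := min δ (1 / 2)) (lt_min hδ (by norm_num)) (min_le_right _ _)
    (half_pos hη)
  refine ⟨T2, fun T hT F hF => ?_⟩
  have h1 := hT2 T hT (F.filter (fun ρ : Zt => 1 / 2 ≤ (ρ : ℂ).re)) (fun ρ hρ => by
    rw [Finset.mem_filter] at hρ
    obtain ⟨a1, a2⟩ := hF ρ hρ.1
    rw [abs_of_nonneg (by linarith [hρ.2])] at a2
    exact ⟨a1, (min_le_left _ _).trans a2⟩)
  have h2 := hT2 T hT ((F.filter (fun ρ : Zt => ¬ 1 / 2 ≤ (ρ : ℂ).re)).map rf) (fun ρ hρ => by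
    rw [Finset.mem_map] at hρ
    obtain ⟨ρ', hρ', rfl⟩ := hρ
    rw [Finset.mem_filter, not_le] at hρ'
    obtain ⟨a1, a2⟩ := hF ρ' hρ'.1
    rw [abs_of_neg (by linarith [hρ'.2])] at a2
    rw [rf_re, rf_im]
    exact ⟨a1, (min_le_left _ _).trans (by linarith)⟩)
  rw [Finset.sum_map] at h2
  have h3 : ∑ ρ ∈ F.filter (fun ρ : Zt => ¬ 1 / 2 ≤ (ρ : ℂ).re), (mu (rf ρ : Zt) : ℝ) =
      ∑ ρ ∈ F.filter (fun ρ : Zt => ¬ 1 / 2 ≤ (ρ : ℂ).re), (mu ρ : ℝ) := by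
    refine Finset.sum_congr rfl fun ρ _ => ?_
    have := mu_refl ρ.2
    exact_mod_cast this
  rw [h3] at h2
  rw [← Finset.sum_filter_add_sum_filter_not F (fun ρ : Zt => 1 / 2 ≤ (ρ : ℂ).re)]
  linarith

/-- the weighted sum over the zeros off the line -/
theorem off_sum (h : Lind) {δ η : ℝ} (hδ : 0 < δ) (hη : 0 < η) : ∃ T3 : ℝ, ∀ T : ℝ, T3 ≤ T →
    ∀ F : Finset Zt, (∀ ρ ∈ F, δ ≤ |(ρ : ℂ).re - 1 / 2|) →
      ∑ ρ ∈ F, (mu ρ : ℝ) * (1 / (1 + ((ρ : ℂ).im - T) ^ 2) ^ 2) ≤ η * Real.log T := by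
  classical
  obtain ⟨K, hK, hz⟩ := zsum
  obtain ⟨B, hB⟩ := exists_nat_ge (max 1 (4 * K / η))
  have hB1 : (1 : ℝ) ≤ B := (le_max_left _ _).trans hB
  have hBK : 4 * K / η ≤ B := (le_max_right _ _).trans hB
  rw [div_le_iff₀ hη] at hBK
  obtain ⟨η2, hη2⟩ : ∃ η2 : ℝ, η2 = η / (4 * (2 * B + 1)) := ⟨_, rfl⟩
  have hη20 : 0 < η2 := by rw [hη2]; positivity
  obtain ⟨T2, hT2⟩ := few_of_lind h hδ hη20
  refine ⟨max (T2 + B) (B + 3), fun T hT F hF => ?_⟩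
  have hTa : T2 + B ≤ T := (le_max_left _ _).trans hT
  have hTb : (B : ℝ) + 3 ≤ T := (le_max_right _ _).trans hT
  have hT0 : 0 < T := by linarith
  have hlog2T : Real.log (2 * T) ≤ 2 * Real.log T := by
    rw [Real.log_mul (by norm_num) hT0.ne']
    have : Real.log 2 ≤ Real.log T := Real.log_le_log (by norm_num) (by linarith)
    linarith
  rw [← Finset.sum_filter_add_sum_filter_not F (fun ρ : Zt => |(ρ : ℂ).im - T| ≤ B)]
  -- the near part
  have h1 : ∑ ρ ∈ F.filter (fun ρ : Zt => |(ρ : ℂ).im - T| ≤ B), (mu ρ : ℝ) * (1 / (1 + ((ρ : ℂ).im - T) ^ 2) ^ 2) ≤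
      η / 2 * Real.log T := by
    have a1 : ∑ ρ ∈ F.filter (fun ρ : Zt => |(ρ : ℂ).im - T| ≤ B), (mu ρ : ℝ) * (1 / (1 + ((ρ : ℂ).im - T) ^ 2) ^ 2) ≤
        ∑ ρ ∈ F.filter (fun ρ : Zt => |(ρ : ℂ).im - T| ≤ B), (mu ρ : ℝ) := by
      refine Finset.sum_le_sum fun ρ _ => ?_
      refine mul_le_of_le_one_right (Nat.cast_nonneg _) ?_
      rw [div_le_one (by positivity)]
      have : 1 ≤ 1 + ((ρ : ℂ).im - T) ^ 2 := by nlinarith [sq_nonneg ((ρ : ℂ).im - T)]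
      exact one_le_pow₀ this
    have a2 : ∑ ρ ∈ F.filter (fun ρ : Zt => |(ρ : ℂ).im - T| ≤ B), (mu ρ : ℝ) =
        ∑ j ∈ Finset.Icc (-(B : ℤ)) B, ∑ ρ ∈ (F.filter (fun ρ : Zt => |(ρ : ℂ).im - T| ≤ B)).filter
          (fun ρ : Zt => ⌊(ρ : ℂ).im - T⌋ = j), (mu ρ : ℝ) := by
      refine (Finset.sum_fiberwise_of_maps_to (fun ρ hρ => ?_) _).symm
      rw [Finset.mem_filter] at hρ
      have h3 := abs_le.1 hρ.2
      rw [Finset.mem_Icc]
      constructor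
      · rw [Int.le_floor]
        push_cast
        exact h3.1
      · have h4 := Int.floor_le ((ρ : ℂ).im - T)
        have h5 : ((⌊(ρ : ℂ).im - T⌋ : ℤ) : ℝ) ≤ (B : ℝ) := h4.trans h3.2
        exact_mod_cast h5
    have a3 : ∀ j ∈ Finset.Icc (-(B : ℤ)) B, ∑ ρ ∈ (F.filter (fun ρ : Zt => |(ρ : ℂ).im - T| ≤ B)).filter
          (fun ρ : Zt => ⌊(ρ : ℂ).im - T⌋ = j), (mu ρ : ℝ) ≤ η2 * (2 * Real.log T) := by
      intro j hj
      rw [Finset.mem_Icc] at hj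
      have hj1 : -(B : ℝ) ≤ j := by exact_mod_cast hj.1
      have hj2 : (j : ℝ) ≤ B := by exact_mod_cast hj.2
      refine (hT2 (T + j) (by linarith) _ (fun ρ hρ => ?_)).trans ?_
      · rw [Finset.mem_filter, Finset.mem_filter] at hρ
        refine ⟨?_, hF ρ hρ.1.1⟩
        have h4 := Int.floor_le ((ρ : ℂ).im - T)
        have h5 := Int.lt_floor_add_one ((ρ : ℂ).im - T)
        rw [hρ.2] at h4 h5
        rw [abs_le]
        constructor <;> linarith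
      · have h6 : Real.log (T + j) ≤ 2 * Real.log T :=
          (Real.log_le_log (by linarith) (by linarith)).trans hlog2T
        exact mul_le_mul_of_nonneg_left h6 hη20.le
    have a4 := Finset.sum_le_sum a3
    rw [Finset.sum_const, Int.card_Icc, nsmul_eq_mul] at a4
    have a5 : (((B : ℤ) + 1 - -(B : ℤ)).toNat : ℝ) = 2 * B + 1 := by
      have : ((B : ℤ) + 1 - -(B : ℤ)).toNat = 2 * B + 1 := by omega
      rw [this]
      push_cast
      ring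
    rw [a5] at a4
    have a6 : (2 * (B : ℝ) + 1) * (η2 * (2 * Real.log T)) = η / 2 * Real.log T := by
      rw [hη2]
      field_simp
      ring
    linarith
  -- the far part
  have h2 : ∑ ρ ∈ F.filter (fun ρ : Zt => ¬ |(ρ : ℂ).im - T| ≤ B), (mu ρ : ℝ) * (1 / (1 + ((ρ : ℂ).im - T) ^ 2) ^ 2) ≤
      η / 2 * Real.log T := by
    have b1 : ∑ ρ ∈ F.filter (fun ρ : Zt => ¬ |(ρ : ℂ).im - T| ≤ B), (mu ρ : ℝ) * (1 / (1 + ((ρ : ℂ).im - T) ^ 2) ^ 2) ≤
        ∑ ρ ∈ F.filter (fun ρ : Zt => ¬ |(ρ : ℂ).im - T| ≤ B), (1 / B) * ((mu ρ : ℝ) * (1 / (1 + ((ρ : ℂ).im - T) ^ 2))) := by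
      refine Finset.sum_le_sum fun ρ hρ => ?_
      rw [Finset.mem_filter, not_le] at hρ
      have h3 : (B : ℝ) ≤ 1 + ((ρ : ℂ).im - T) ^ 2 := by
        rw [← sq_abs]
        nlinarith [hρ.2]
      have h4 : 1 / (1 + ((ρ : ℂ).im - T) ^ 2) ^ 2 ≤ 1 / B * (1 / (1 + ((ρ : ℂ).im - T) ^ 2)) := by
        rw [div_mul_div_comm, one_mul]
        apply one_div_le_one_div_of_le (by positivity)
        nlinarith [sq_nonneg ((ρ : ℂ).im - T)]
      calc (mu ρ : ℝ) * (1 / (1 + ((ρ : ℂ).im - T) ^ 2) ^ 2) ≤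
            mu ρ * (1 / B * (1 / (1 + ((ρ : ℂ).im - T) ^ 2))) := mul_le_mul_of_nonneg_left h4 (Nat.cast_nonneg _)
        _ = _ := by ring
    have b2 := hz T ((F.filter (fun ρ : Zt => ¬ |(ρ : ℂ).im - T| ≤ B)).map (Function.Embedding.subtype _)) (by
      intro s hs
      rw [Finset.mem_map] at hs
      obtain ⟨u, _, rfl⟩ := hs
      exact u.2)
    rw [Finset.sum_map] at b2
    rw [← Finset.mul_sum] at b1
    have b3 : Lg T ≤ 2 * Real.log T := by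
      unfold Lg
      rw [abs_of_pos hT0]
      exact (Real.log_le_log (by linarith) (by linarith)).trans hlog2T
    have hL0 : 0 ≤ Real.log T := Real.log_nonneg (by linarith)
    calc _ ≤ _ := b1
      _ ≤ 1 / B * (K * (2 * Real.log T)) := by
          refine mul_le_mul_of_nonneg_left (b2.trans ?_) (by positivity)
          exact mul_le_mul_of_nonneg_left b3 hK.le
      _ ≤ η / 2 * Real.log T := by
          rw [one_div, inv_mul_le_iff₀ (by positivity)]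
          nlinarith
  linarith

end Q270LD
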