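import Pool.Agent.Q270.LD.A6

/-! # The Lindelof hypothesis gives many zeros in regions about the line -/

set_option autoImplicit false

open Complex Filter Topology Set MeasureTheory
open Pool.Agent.Y23

namespace Q270LD

lemma ga_re_le (a T : ℝ) (ρ : Zt) : (ga a T ((ρ : ℂ) - 1 / 2)).re ≤
    Real.exp (a * ((ρ : ℂ).re - 1 / 2) ^ 2) * Real.exp (-a * ((ρ : ℂ).im - T) ^ 2) := by
  refine (le_abs_self _).trans ((Complex.abs_re_le_norm _).trans ?_)
  rw [ga_norm, zt_im, zt_re']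

lemma gauss_one (t : ℝ) : Real.exp (-(t ^ 2)) ≤ 27 / (1 + t ^ 2) ^ 2 := by
  have := gauss_q (a := 1) (t := t) one_pos le_rfl
  rw [one_pow, one_mul] at this
  rwa [neg_one_mul] at this

/-- the full sum against the finite sum -/
lemma sum_up {a : ℝ} (ha : 1 ≤ a) : ∃ C : ℝ, 0 < C ∧ ∀ T R : ℝ, 10 ≤ T → 3 / 2 * T ≤ R →
    SG a T ≤ ∑ ρ ∈ W R, (mu ρ : ℝ) * (ga a T ((ρ : ℂ) - 1 / 2)).re + C := by
  obtain ⟨K, hK, hz⟩ := zsum_le
  have ha0 : 0 < a := by linarith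
  refine ⟨27 * Real.exp a * K, by positivity, fun T R hT hR => ?_⟩
  have hs1 := ga_summable_re ha0 T
  have hs2 := zsummable T
  set η : ℝ := 27 * Real.exp a / (1 + T ^ 2 / 4) with hη
  have hη0 : 0 ≤ η := by positivity
  have h2 : ∑ ρ ∈ W R, (η * ((mu ρ : ℝ) * (1 / (1 + ((ρ : ℂ).im - T) ^ 2))) -
        (mu ρ : ℝ) * (ga a T ((ρ : ℂ) - 1 / 2)).re) ≤
      ∑' ρ : Zt, (η * ((mu ρ : ℝ) * (1 / (1 + ((ρ : ℂ).im - T) ^ 2))) -
        (mu ρ : ℝ) * (ga a T ((ρ : ℂ) - 1 / 2)).re) := by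
    refine Summable.sum_le_tsum _ (fun ρ hρ => ?_) ((hs2.mul_left η).sub hs1)
    rw [mem_W, not_le] at hρ
    have h3 : T ^ 2 / 4 ≤ ((ρ : ℂ).im - T) ^ 2 := by
      rcases abs_cases (ρ : ℂ).im with ⟨h, _⟩ | ⟨h, _⟩
      · rw [h] at hρ; nlinarith
      · rw [h] at hρ; nlinarith
    have h4 := ga_re_le a T ρ
    have h5 := gauss_one ((ρ : ℂ).im - T)
    set t := (ρ : ℂ).im - T with ht
    have h6 : Real.exp (a * ((ρ : ℂ).re - 1 / 2) ^ 2) ≤ Real.exp a := by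
      apply Real.exp_le_exp.2
      have h7 := zt_re ρ
      rw [zt_re'] at h7
      have h8 : ((ρ : ℂ).re - 1 / 2) ^ 2 ≤ 1 := by
        rw [← sq_abs]
        nlinarith [abs_nonneg ((ρ : ℂ).re - 1 / 2)]
      nlinarith
    have h7 : Real.exp (-a * t ^ 2) ≤ Real.exp (-(t ^ 2)) := Real.exp_le_exp.2 (by nlinarith [sq_nonneg t])
    have h8 : (ga a T ((ρ : ℂ) - 1 / 2)).re ≤ η * (1 / (1 + t ^ 2)) := by
      calc (ga a T ((ρ : ℂ) - 1 / 2)).re ≤ Real.exp a * (27 / (1 + t ^ 2) ^ 2) :=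
            h4.trans (mul_le_mul h6 (h7.trans h5) (Real.exp_pos _).le (Real.exp_pos _).le)
        _ = 27 * Real.exp a / ((1 + t ^ 2) * (1 + t ^ 2)) := by ring
        _ ≤ 27 * Real.exp a / ((1 + T ^ 2 / 4) * (1 + t ^ 2)) := by gcongr
        _ = _ := by rw [hη, div_mul_div_comm, mul_one]
    have h9 : (0 : ℝ) ≤ mu ρ := Nat.cast_nonneg _
    have h10 := mul_le_mul_of_nonneg_left h8 h9
    linarith
  rw [Summable.tsum_sub (hs2.mul_left η) hs1, tsum_mul_left, Finset.sum_sub_distrib] at h2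
  have h1 : 0 ≤ ∑ ρ ∈ W R, η * ((mu ρ : ℝ) * (1 / (1 + ((ρ : ℂ).im - T) ^ 2))) :=
    Finset.sum_nonneg fun ρ _ => by positivity
  have h3 : η * ∑' ρ : Zt, (mu ρ : ℝ) * (1 / (1 + ((ρ : ℂ).im - T) ^ 2)) ≤ 27 * Real.exp a * K := by
    calc η * ∑' ρ : Zt, (mu ρ : ℝ) * (1 / (1 + ((ρ : ℂ).im - T) ^ 2)) ≤ η * (K * Lg T) :=
          mul_le_mul_of_nonneg_left (hz T) hη0
      _ = 27 * Real.exp a * K * (Lg T / (1 + T ^ 2 / 4)) := by
          rw [hη]; field_simp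
      _ ≤ 27 * Real.exp a * K * 1 := by
          refine mul_le_mul_of_nonneg_left ?_ (by positivity)
          rw [div_le_one (by positivity)]
          unfold Lg
          rw [abs_of_nonneg (by linarith)]
          have := Real.log_le_sub_one_of_pos (show 0 < 3 + T by linarith)
          nlinarith
      _ = _ := mul_one _
  have h4 : SG a T = ∑' ρ : Zt, (mu ρ : ℝ) * (ga a T ((ρ : ℂ) - 1 / 2)).re := rfl
  linarith

section kernel

variable {a r' : ℝ}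

/-- the smoothed indicator of `[-r', r']` -/
noncomputable def G (a r' t : ℝ) : ℝ := Real.sqrt (a / Real.pi) * ∫ u in (-r')..r', Real.exp (-a * (t - u) ^ 2)

lemma sqrt_mul_sqrt (ha : 0 < a) : Real.sqrt (a / Real.pi) * Real.sqrt (Real.pi / a) = 1 := by
  rw [← Real.sqrt_mul (by positivity)]
  have : a / Real.pi * (Real.pi / a) = 1 := by
    have := Real.pi_pos
    field_simp
  rw [this, Real.sqrt_one]

lemma G_le_one (ha : 0 < a) (hr : 0 ≤ r') (t : ℝ) : G a r' t ≤ 1 := by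
  unfold G
  rw [← sqrt_mul_sqrt ha]
  refine mul_le_mul_of_nonneg_left ?_ (Real.sqrt_nonneg _)
  have hg : Integrable (fun u : ℝ => Real.exp (-a * (t - u) ^ 2)) := by
    have := (integrable_exp_neg_mul_sq ha).comp_sub_right t
    refine this.congr (Eventually.of_forall fun u => ?_)
    show Real.exp (-a * (u - t) ^ 2) = Real.exp (-a * (t - u) ^ 2)
    congr 1; ring
  have h1 : ∫ u : ℝ, Real.exp (-a * (t - u) ^ 2) = Real.sqrt (Real.pi / a) := by
    rw [← int_shift (a := a) t]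
    refine integral_congr_ae (Eventually.of_forall fun u => ?_)
    show Real.exp (-a * (t - u) ^ 2) = Real.exp (-a * (u - t) ^ 2)
    congr 1; ring
  rw [← h1, intervalIntegral.integral_of_le (by linarith)]
  exact setIntegral_le_integral hg (Eventually.of_forall fun u => (Real.exp_pos _).le)

lemma G_const (hr : 0 ≤ r') {t M : ℝ} (h : ∀ u ∈ Icc (-r') r', Real.exp (-a * (t - u) ^ 2) ≤ M) :
    G a r' t ≤ Real.sqrt (a / Real.pi) * (2 * r' * M) := by
  unfold G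
  refine mul_le_mul_of_nonneg_left ?_ (Real.sqrt_nonneg _)
  have h1 : ∫ u in (-r')..r', Real.exp (-a * (t - u) ^ 2) ≤ ∫ u in (-r')..r', M :=
    intervalIntegral.integral_mono_on (by linarith) (Continuous.intervalIntegrable (by fun_prop) _ _)
      intervalIntegrable_const h
  rw [intervalIntegral.integral_const, smul_eq_mul] at h1
  linarith

lemma sqrt_le_self' (ha : 1 ≤ a) : Real.sqrt (a / Real.pi) ≤ a := by
  rw [Real.sqrt_le_left (by linarith)]
  rw [div_le_iff₀ Real.pi_pos]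
  have := Real.pi_gt_three
  nlinarith [sq_nonneg a]

/-- away from the interval -/
lemma G_far {r2 ε1 : ℝ} (hr : 0 < r') (hr2 : r' < r2) (hε : 0 < ε1) (ha : 1 ≤ a)
    (ha1 : 16 * r' / ((r2 - r') ^ 4 * ε1) ≤ a) (ha2 : 2 / ((r2 - r') / r2) ^ 2 ≤ a) {t : ℝ} (ht : r2 ≤ |t|) :
    G a r' t ≤ ε1 * (1 / (1 + t ^ 2)) := by
  obtain ⟨D, hD⟩ : ∃ D : ℝ, D = r2 - r' := ⟨_, rfl⟩
  obtain ⟨k, hk⟩ : ∃ k : ℝ, k = D / r2 := ⟨_, rfl⟩
  have hD0 : 0 < D := by linarith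
  have hr20 : 0 < r2 := by linarith
  have hk0 : 0 < k := by rw [hk]; positivity
  rw [← hD] at ha1 ha2
  rw [← hk] at ha2
  rw [div_le_iff₀ (by positivity)] at ha1 ha2
  have ha0 : 0 < a := by linarith
  have h1 : D ≤ |t| - r' := by linarith
  have h2 : k * |t| ≤ |t| - r' := by
    rw [hk, div_mul_eq_mul_div, div_le_iff₀ hr20]
    nlinarith
  have h3 : ∀ u ∈ Icc (-r') r', Real.exp (-a * (t - u) ^ 2) ≤ Real.exp (-(a * D ^ 2 / 2)) * Real.exp (-(t ^ 2)) := by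
    intro u hu
    rw [← Real.exp_add]
    apply Real.exp_le_exp.2
    have h4 : |u| ≤ r' := abs_le.2 hu
    have h5 : |t| - r' ≤ |t - u| := by
      have := abs_sub_abs_le_abs_sub t u
      linarith
    have h6 : (|t| - r') ^ 2 ≤ (t - u) ^ 2 := by
      rw [← sq_abs (t - u)]
      exact pow_le_pow_left₀ (by linarith) h5 2
    have h7 : D ^ 2 ≤ (|t| - r') ^ 2 := pow_le_pow_left₀ hD0.le h1 2
    have h8 : (k * |t|) ^ 2 ≤ (|t| - r') ^ 2 := pow_le_pow_left₀ (by positivity) h2 2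
    rw [mul_pow, sq_abs] at h8
    have h9 : 2 * t ^ 2 ≤ a * k ^ 2 * t ^ 2 := by nlinarith [sq_nonneg t]
    nlinarith
  have h4 := G_const hr.le h3
  refine h4.trans ?_
  have h5 : Real.exp (-(t ^ 2)) ≤ 1 / (1 + t ^ 2) := by
    rw [Real.exp_neg, ← one_div]
    apply one_div_le_one_div_of_le (by positivity)
    linarith [Real.add_one_le_exp (t ^ 2)]
  have h6 : Real.exp (-(a * D ^ 2 / 2)) ≤ 8 / (a ^ 2 * D ^ 4) := by
    rw [Real.exp_neg, ← one_div]
    have h7 := Real.quadratic_le_exp_of_nonneg (show 0 ≤ a * D ^ 2 / 2 by positivity)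
    rw [div_le_div_iff₀ (Real.exp_pos _) (by positivity)]
    have h8 : 0 ≤ a * D ^ 2 / 2 := by positivity
    nlinarith
  have h7 : Real.sqrt (a / Real.pi) * (2 * r' * Real.exp (-(a * D ^ 2 / 2))) ≤ ε1 := by
    calc Real.sqrt (a / Real.pi) * (2 * r' * Real.exp (-(a * D ^ 2 / 2))) ≤
          a * (2 * r' * (8 / (a ^ 2 * D ^ 4))) := by
          have := sqrt_le_self' ha
          gcongr
      _ = 16 * r' / (a * D ^ 4) := by field_simp; ring
      _ ≤ ε1 := by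
          rw [div_le_iff₀ (by positivity)]
          nlinarith
  calc Real.sqrt (a / Real.pi) * (2 * r' * (Real.exp (-(a * D ^ 2 / 2)) * Real.exp (-(t ^ 2)))) =
        Real.sqrt (a / Real.pi) * (2 * r' * Real.exp (-(a * D ^ 2 / 2))) * Real.exp (-(t ^ 2)) := by ring
    _ ≤ ε1 * (1 / (1 + t ^ 2)) := mul_le_mul h7 h5 (Real.exp_pos _).le hε.le

/-- everywhere -/
lemma G_all (hr : 0 ≤ r') (ha : 2 ≤ a) (t : ℝ) :
    G a r' t ≤ Real.sqrt (a / Real.pi) * (2 * r' * (Real.exp (a * r' ^ 2) * 27)) * (1 / (1 + t ^ 2) ^ 2) := by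
  have h3 : ∀ u ∈ Icc (-r') r', Real.exp (-a * (t - u) ^ 2) ≤ Real.exp (a * r' ^ 2) * Real.exp (-(t ^ 2)) := by
    intro u hu
    rw [← Real.exp_add]
    apply Real.exp_le_exp.2
    have h4 : u ^ 2 ≤ r' ^ 2 := by
      rw [← sq_abs u]
      exact pow_le_pow_left₀ (abs_nonneg _) (abs_le.2 hu) 2
    have h5 : t ^ 2 / 2 - u ^ 2 ≤ (t - u) ^ 2 := by nlinarith [sq_nonneg (t - 2 * u)]
    have h6 : a * (t ^ 2 / 2 - u ^ 2) ≤ a * (t - u) ^ 2 := mul_le_mul_of_nonneg_left h5 (by linarith)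
    nlinarith [sq_nonneg t]
  refine (G_const hr h3).trans ?_
  have h5 := gauss_one t
  have e : Real.sqrt (a / Real.pi) * (2 * r' * (Real.exp (a * r' ^ 2) * 27)) * (1 / (1 + t ^ 2) ^ 2) =
      Real.sqrt (a / Real.pi) * (2 * r' * (Real.exp (a * r' ^ 2) * (27 / (1 + t ^ 2) ^ 2))) := by ring
  rw [e]
  gcongr

end kernel

end Q270LD
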