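import Pool.Agent.Q270.LD.A7

/-! # The Lindelof hypothesis gives many zeros in regions about the line: conclusion -/

set_option autoImplicit false

open Complex Filter Topology Set MeasureTheory
open Pool.Agent.Y23

namespace Q270LD

/-- integral of the Gaussian over the interval of heights -/
noncomputable def Q (a r' T : ℝ) (ρ : Zt) : ℝ :=
  Real.sqrt (a / Real.pi) * ∫ u in (-r')..r', (ga a (T + u) ((ρ : ℂ) - 1 / 2)).re

lemma ga_cont (a T : ℝ) (w : ℂ) : Continuous (fun u : ℝ => (ga a (T + u) w).re) := by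
  unfold ga
  fun_prop

lemma Q_le {a r' : ℝ} (hr : 0 ≤ r') (T : ℝ) (ρ : Zt) :
    Q a r' T ρ ≤ Real.exp (a * ((ρ : ℂ).re - 1 / 2) ^ 2) * G a r' ((ρ : ℂ).im - T) := by
  unfold Q G
  have h1 : ∫ u in (-r')..r', (ga a (T + u) ((ρ : ℂ) - 1 / 2)).re ≤
      ∫ u in (-r')..r', Real.exp (a * ((ρ : ℂ).re - 1 / 2) ^ 2) *
        Real.exp (-a * ((ρ : ℂ).im - T - u) ^ 2) := by
    refine intervalIntegral.integral_mono_on (by linarith) ((ga_cont a T _).intervalIntegrable _ _)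
      (Continuous.intervalIntegrable (by fun_prop) _ _) fun u _ => ?_
    have := ga_re_le a (T + u) ρ
    rwa [show (ρ : ℂ).im - (T + u) = (ρ : ℂ).im - T - u by ring] at this
  rw [intervalIntegral.integral_const_mul] at h1
  calc _ ≤ Real.sqrt (a / Real.pi) * (Real.exp (a * ((ρ : ℂ).re - 1 / 2) ^ 2) *
      ∫ u in (-r')..r', Real.exp (-a * ((ρ : ℂ).im - T - u) ^ 2)) :=
        mul_le_mul_of_nonneg_left h1 (Real.sqrt_nonneg _)
    _ = _ := by ring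

/-- lower bound for the sum of the integrals -/
lemma Q_low {a r' : ℝ} (ha : 1 ≤ a) (hr : 0 < r') : ∃ C T0 : ℝ, ∀ T : ℝ, T0 ≤ T →
    r' / Real.pi * Real.log T - C ≤ ∑ ρ ∈ W (2 * T), (mu ρ : ℝ) * Q a r' T ρ := by
  have ha0 : 0 < a := by linarith
  obtain ⟨C1, hC1, hg⟩ := gsum ha0
  obtain ⟨C2, hC2, hs⟩ := sum_up ha
  have hpi := Real.pi_pos
  set g := Real.sqrt (a / Real.pi) with hgd
  have hg0 : 0 ≤ g := Real.sqrt_nonneg _
  refine ⟨r' / Real.pi + g * (2 * r') * (C1 / (2 * Real.pi) + C2), max 20 (3 * r'), fun T hT => ?_⟩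
  have hT20 : 20 ≤ T := (le_max_left _ _).trans hT
  have hTr : 3 * r' ≤ T := (le_max_right _ _).trans hT
  have h1 : ∀ u ∈ Icc (-r') r', (Real.sqrt (Real.pi / a) * (Real.log T - 1) - C1) / (2 * Real.pi) - C2 ≤
      ∑ ρ ∈ W (2 * T), (mu ρ : ℝ) * (ga a (T + u) ((ρ : ℂ) - 1 / 2)).re := by
    intro u hu
    have h2 := hs (T + u) (2 * T) (by linarith [hu.1]) (by linarith [hu.2])
    have h3 := (abs_le.1 (hg (T + u) (by linarith [hu.1]))).1
    have h4 : Real.log T - 1 ≤ Real.log (T + u) := by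
      have h5 : Real.log (T / 2) ≤ Real.log (T + u) := Real.log_le_log (by linarith) (by linarith [hu.1])
      rw [Real.log_div (by linarith) (by norm_num)] at h5
      linarith [Real.log_two_lt_d9]
    have h5 : (Real.sqrt (Real.pi / a) * (Real.log T - 1) - C1) / (2 * Real.pi) ≤ SG a (T + u) := by
      rw [div_le_iff₀ (by positivity)]
      have h6 : Real.sqrt (Real.pi / a) * (Real.log T - 1) ≤ Real.sqrt (Real.pi / a) * Real.log (T + u) :=
        mul_le_mul_of_nonneg_left h4 (Real.sqrt_nonneg _)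
      linarith
    linarith
  have h2 : ∫ u in (-r')..r', ((Real.sqrt (Real.pi / a) * (Real.log T - 1) - C1) / (2 * Real.pi) - C2) ≤
      ∫ u in (-r')..r', ∑ ρ ∈ W (2 * T), (mu ρ : ℝ) * (ga a (T + u) ((ρ : ℂ) - 1 / 2)).re := by
    refine intervalIntegral.integral_mono_on (by linarith) intervalIntegrable_const
      (Continuous.intervalIntegrable ?_ _ _) h1
    exact continuous_finsetSum _ fun ρ _ => (ga_cont a T _).const_mul _
  rw [intervalIntegral.integral_const, smul_eq_mul, intervalIntegral.integral_finsetSum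
    (fun ρ _ => ((ga_cont a T _).const_mul _).intervalIntegrable _ _)] at h2
  have h3 : ∑ ρ ∈ W (2 * T), (mu ρ : ℝ) * Q a r' T ρ = g * ∑ ρ ∈ W (2 * T),
      ∫ u in (-r')..r', (mu ρ : ℝ) * (ga a (T + u) ((ρ : ℂ) - 1 / 2)).re := by
    rw [Finset.mul_sum]
    refine Finset.sum_congr rfl fun ρ _ => ?_
    unfold Q
    rw [intervalIntegral.integral_const_mul]
    ring
  rw [h3]
  refine le_trans (le_of_eq ?_) (mul_le_mul_of_nonneg_left h2 hg0)
  have h4 : g * Real.sqrt (Real.pi / a) = 1 := sqrt_mul_sqrt ha0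
  have h5 : g * ((r' - -r') * ((Real.sqrt (Real.pi / a) * (Real.log T - 1) - C1) / (2 * Real.pi) - C2)) =
      (g * Real.sqrt (Real.pi / a)) * (r' / Real.pi * (Real.log T - 1)) -
      g * (2 * r') * (C1 / (2 * Real.pi) + C2) := by
    field_simp
    ring
  rw [h5, h4]
  ring

/-- the three parts of the integral -/
lemma point_up {r : ℝ → ℝ} {a r' r2 ε1 δ Ca T : ℝ} (hr'0 : 0 < r') (hr2a : r' < r2) (hε10 : 0 < ε1)
    (hε11 : ε1 ≤ 1) (ha2 : 2 ≤ a) (ha3 : 16 * r' / ((r2 - r') ^ 4 * ε1) ≤ a)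
    (ha4 : 2 / ((r2 - r') / r2) ^ 2 ≤ a) (hδb : a * δ ^ 2 ≤ Real.log (1 + ε1))
    (hr : ∀ x : ℝ, |x| < δ → r2 < r x)
    (hCa : Ca = Real.exp a * (Real.sqrt (a / Real.pi) * (2 * r' * (Real.exp (a * r' ^ 2) * 27)))) (ρ : Zt) :
    Q a r' T ρ ≤
      (if δ ≤ |(ρ : ℂ).re - 1 / 2| then Ca * (1 / (1 + ((ρ : ℂ).im - T) ^ 2) ^ 2) else 0) +
      (if |(ρ : ℂ).im - T| < r ((ρ : ℂ).re - 1 / 2) then (1 + ε1) else 0) +
      2 * ε1 * (1 / (1 + ((ρ : ℂ).im - T) ^ 2)) := by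
  have ha0 : 0 < a := by linarith
  have h1 := Q_le (a := a) hr'0.le T ρ
  have h7 := zt_re ρ
  rw [zt_re'] at h7
  obtain ⟨x, hx⟩ : ∃ x : ℝ, x = (ρ : ℂ).re - 1 / 2 := ⟨_, rfl⟩
  obtain ⟨t, ht⟩ : ∃ t : ℝ, t = (ρ : ℂ).im - T := ⟨_, rfl⟩
  rw [← hx, ← ht] at h1
  rw [← hx] at h7
  rw [← hx, ← ht]
  have hG0 : 0 ≤ G a r' t := by
    unfold G
    refine mul_nonneg (Real.sqrt_nonneg _) ?_
    exact intervalIntegral.integral_nonneg (by linarith) fun u _ => (Real.exp_pos _).le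
  have hp3 : 0 ≤ 2 * ε1 * (1 / (1 + t ^ 2)) := by positivity
  have hif : (0 : ℝ) ≤ if |t| < r x then (1 + ε1) else 0 := by
    split_ifs <;> linarith
  by_cases hx2 : δ ≤ |x|
  · rw [if_pos hx2]
    have h2 := G_all hr'0.le ha2 t
    have h3 : Real.exp (a * x ^ 2) ≤ Real.exp a := by
      apply Real.exp_le_exp.2
      have h8 : x ^ 2 ≤ 1 := by
        rw [← sq_abs]
        nlinarith [abs_nonneg x]
      nlinarith
    have h4 : Q a r' T ρ ≤ Ca * (1 / (1 + t ^ 2) ^ 2) := by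
      refine h1.trans ((mul_le_mul h3 h2 hG0 (Real.exp_pos _).le).trans (le_of_eq ?_))
      rw [hCa]; ring
    linarith
  · rw [if_neg hx2]
    rw [not_le] at hx2
    have h3 : Real.exp (a * x ^ 2) ≤ 1 + ε1 := by
      rw [← Real.exp_log (show 0 < 1 + ε1 by linarith)]
      apply Real.exp_le_exp.2
      refine le_trans ?_ hδb
      have : x ^ 2 ≤ δ ^ 2 := by
        rw [← sq_abs]
        exact pow_le_pow_left₀ (abs_nonneg _) hx2.le 2
      exact mul_le_mul_of_nonneg_left this ha0.le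
    rcases lt_or_ge |t| r2 with ht2 | ht2
    · have h4 : |t| < r x := ht2.trans (hr _ hx2)
      rw [if_pos h4]
      have h5 := G_le_one ha0 hr'0.le t
      have h6 : Real.exp (a * x ^ 2) * G a r' t ≤ (1 + ε1) * 1 :=
        mul_le_mul h3 h5 hG0 (by linarith)
      linarith
    · have h5 := G_far hr'0 hr2a hε10 (by linarith) ha3 ha4 ht2
      have h6 : Real.exp (a * x ^ 2) * G a r' t ≤ (1 + ε1) * (ε1 * (1 / (1 + t ^ 2))) :=
        mul_le_mul h3 h5 hG0 (by linarith)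
      have h7 : (1 + ε1) * (ε1 * (1 / (1 + t ^ 2))) ≤ 2 * ε1 * (1 / (1 + t ^ 2)) := by
        have : 0 ≤ ε1 * (1 / (1 + t ^ 2)) := by positivity
        nlinarith
      linarith

/-- the arithmetic at the end -/
lemma final_arith {ε ε1 r0 r' K L C5 S π' : ℝ} (hε10 : 0 < ε1) (hε11 : ε1 ≤ 1) (hK : 0 < K)
    (hr0 : 0 < r0) (hπ : 1 ≤ π') (hL : 0 < L) (hLC : 4 * |C5| < ε * L) (hS0 : 0 ≤ S)
    (hε12 : ε1 * (8 * (1 + r0 + K)) ≤ ε) (hr'2 : r0 / π' - ε / 4 ≤ r' / π')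
    (h : r' / π' * L - C5 + 2 * K ≤ ε1 * L + (1 + ε1) * S + 2 * ε1 * (K * (L + 1))) :
    (r0 / π' - ε) * L ≤ S := by
  by_contra hcon
  push Not at hcon
  have hc0 : 0 ≤ r0 / π' - ε := by
    by_contra h7
    push Not at h7
    have : (r0 / π' - ε) * L < 0 := mul_neg_of_neg_of_pos h7 hL
    linarith
  have h7 : (1 + ε1) * S ≤ (r0 / π' - ε) * L + ε1 * (r0 * L) := by
    have a1 : (1 + ε1) * S ≤ (1 + ε1) * ((r0 / π' - ε) * L) :=
      mul_le_mul_of_nonneg_left hcon.le (by linarith)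
    have a2 : r0 / π' - ε ≤ r0 := by
      have h1 : r0 / π' ≤ r0 := div_le_self hr0.le hπ
      have h2 : 0 < ε := by
        by_contra h3
        push Not at h3
        have := abs_nonneg C5
        nlinarith
      linarith
    have a3 : ε1 * ((r0 / π' - ε) * L) ≤ ε1 * (r0 * L) :=
      mul_le_mul_of_nonneg_left (mul_le_mul_of_nonneg_right a2 hL.le) hε10.le
    linarith
  have h8 : (r0 / π' - ε / 4) * L ≤ r' / π' * L := mul_le_mul_of_nonneg_right hr'2 hL.le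
  have h9 : ε1 * (8 * (1 + r0 + K)) * L ≤ ε * L := mul_le_mul_of_nonneg_right hε12 hL.le
  have h10 : 2 * ε1 * K ≤ 2 * K := by nlinarith
  have h11 := le_abs_self C5
  have h12 : 0 < ε1 * L := by positivity
  have h13 : 0 < ε1 * (r0 * L) := by positivity
  have h14 : 0 < ε1 * (K * L) := by positivity
  nlinarith

/-- **Under the Lindelof hypothesis every region has the expected number of zeros.** -/
theorem many (h : Lind) {r : ℝ → ℝ} (hr : Prof r) {ε : ℝ} (hε : 0 < ε) :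
    ∃ T1 : ℝ, Hyp r (r 0 / Real.pi - ε) T1 := by
  classical
  have hpi := Real.pi_pos
  have hpi3 := Real.pi_gt_three
  have hr0 := hr.pos
  obtain ⟨K, hK, hz⟩ := zsum
  obtain ⟨r', hr'⟩ : ∃ r' : ℝ, r' = max (r 0 - Real.pi * ε / 4) (r 0 / 2) := ⟨_, rfl⟩
  have hr'0 : 0 < r' := lt_of_lt_of_le (half_pos hr0) (by rw [hr']; exact le_max_right _ _)
  have hr'1 : r' < r 0 := by
    rw [hr']
    apply max_lt
    · have : 0 < Real.pi * ε / 4 := by positivity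
      linarith
    · linarith
  have hr'2 : r 0 / Real.pi - ε / 4 ≤ r' / Real.pi := by
    have h1 : r 0 - Real.pi * ε / 4 ≤ r' := by rw [hr']; exact le_max_left _ _
    rw [le_div_iff₀ hpi, sub_mul, div_mul_cancel₀ _ hpi.ne']
    linarith
  obtain ⟨r2, hr2⟩ : ∃ r2 : ℝ, r2 = (r' + r 0) / 2 := ⟨_, rfl⟩
  have hr2a : r' < r2 := by linarith
  have hr2b : r2 < r 0 := by linarith
  obtain ⟨δ1, hδ1, hδ1b⟩ : ∃ δ1 : ℝ, 0 < δ1 ∧ ∀ x : ℝ, |x| < δ1 → r2 < r x := by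
    have h1 : ∀ᶠ x in 𝓝 (0 : ℝ), r2 < r x := hr.cont.eventually (lt_mem_nhds hr2b)
    obtain ⟨δ1, hδ1, h2⟩ := Metric.eventually_nhds_iff.1 h1
    exact ⟨δ1, hδ1, fun x hx => h2 (by rwa [Real.dist_eq, sub_zero])⟩
  obtain ⟨ε1, hε1⟩ : ∃ ε1 : ℝ, ε1 = min 1 (ε / (8 * (1 + r 0 + K))) := ⟨_, rfl⟩
  have hε10 : 0 < ε1 := by rw [hε1]; exact lt_min one_pos (by positivity)
  have hε11 : ε1 ≤ 1 := by rw [hε1]; exact min_le_left _ _
  have hε12 : ε1 * (8 * (1 + r 0 + K)) ≤ ε := by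
    have : ε1 ≤ ε / (8 * (1 + r 0 + K)) := by rw [hε1]; exact min_le_right _ _
    rwa [le_div_iff₀ (by positivity)] at this
  obtain ⟨a, ha⟩ : ∃ a : ℝ, a = max 2 (max (16 * r' / ((r2 - r') ^ 4 * ε1)) (2 / ((r2 - r') / r2) ^ 2)) := ⟨_, rfl⟩
  have ha2 : 2 ≤ a := by rw [ha]; exact le_max_left _ _
  have ha3 : 16 * r' / ((r2 - r') ^ 4 * ε1) ≤ a := by rw [ha]; exact (le_max_left _ _).trans (le_max_right _ _)
  have ha4 : 2 / ((r2 - r') / r2) ^ 2 ≤ a := by rw [ha]; exact (le_max_right _ _).trans (le_max_right _ _)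
  have ha0 : 0 < a := by linarith
  have ha1 : 1 ≤ a := by linarith
  have hlog1 : 0 < Real.log (1 + ε1) := Real.log_pos (by linarith)
  obtain ⟨δ, hδ⟩ : ∃ δ : ℝ, δ = min δ1 (Real.sqrt (Real.log (1 + ε1) / a)) := ⟨_, rfl⟩
  have hδ0 : 0 < δ := by rw [hδ]; exact lt_min hδ1 (Real.sqrt_pos.2 (by positivity))
  have hδa : δ ≤ δ1 := by rw [hδ]; exact min_le_left _ _
  have hδb : a * δ ^ 2 ≤ Real.log (1 + ε1) := by
    have h1 : δ ≤ Real.sqrt (Real.log (1 + ε1) / a) := by rw [hδ]; exact min_le_right _ _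
    have h2 : δ ^ 2 ≤ Real.log (1 + ε1) / a := by
      calc δ ^ 2 ≤ (Real.sqrt (Real.log (1 + ε1) / a)) ^ 2 := pow_le_pow_left₀ hδ0.le h1 2
        _ = _ := Real.sq_sqrt (by positivity)
    rw [le_div_iff₀ ha0] at h2
    linarith
  obtain ⟨Ca, hCa⟩ : ∃ Ca : ℝ, Ca = Real.exp a * (Real.sqrt (a / Real.pi) * (2 * r' * (Real.exp (a * r' ^ 2) * 27))) := ⟨_, rfl⟩
  have hCa0 : 0 < Ca := by rw [hCa]; positivity
  obtain ⟨T3, hT3⟩ := off_sum h hδ0 (show 0 < ε1 / Ca by positivity)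
  obtain ⟨C4, T4, hQ⟩ := Q_low ha1 hr'0
  obtain ⟨C5, hC5⟩ : ∃ C5 : ℝ, C5 = C4 + 2 * K := ⟨_, rfl⟩
  refine ⟨max (max 20 T3) (max T4 (Real.exp (4 * |C5| / ε + 1))), fun T hT => ?_⟩
  have hT20 : 20 ≤ T := ((le_max_left _ _).trans (le_max_left _ _)).trans hT
  have hTT3 : T3 ≤ T := ((le_max_right _ _).trans (le_max_left _ _)).trans hT
  have hTT4 : T4 ≤ T := ((le_max_left _ _).trans (le_max_right _ _)).trans hT
  have hTe : Real.exp (4 * |C5| / ε + 1) ≤ T := ((le_max_right _ _).trans (le_max_right _ _)).trans hT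
  have hT0 : 0 < T := by linarith
  have hL : 4 * |C5| / ε + 1 ≤ Real.log T := by rw [Real.le_log_iff_exp_le hT0]; exact hTe
  have hL1 : 1 ≤ Real.log T := by
    have : 0 ≤ 4 * |C5| / ε := by positivity
    linarith
  have hLC : 4 * |C5| < ε * Real.log T := by
    have h1 : 4 * |C5| / ε < Real.log T := by linarith
    rw [div_lt_iff₀ hε] at h1
    linarith
  set L := Real.log T with hLd
  refine ⟨(W (2 * T)).filter (fun ρ : Zt => |(ρ : ℂ).im - T| < r ((ρ : ℂ).re - 1 / 2)), fun ρ hρ =>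
    (Finset.mem_filter.1 hρ).2, ?_⟩
  set S := ∑ ρ ∈ (W (2 * T)).filter (fun ρ : Zt => |(ρ : ℂ).im - T| < r ((ρ : ℂ).re - 1 / 2)), (mu ρ : ℝ) with hS
  have hS0 : 0 ≤ S := Finset.sum_nonneg fun ρ _ => Nat.cast_nonneg _
  have h1 := hQ T hTT4
  have h2 : ∑ ρ ∈ W (2 * T), (mu ρ : ℝ) * Q a r' T ρ ≤
      Ca * ∑ ρ ∈ (W (2 * T)).filter (fun ρ : Zt => δ ≤ |(ρ : ℂ).re - 1 / 2|),
        (mu ρ : ℝ) * (1 / (1 + ((ρ : ℂ).im - T) ^ 2) ^ 2) + (1 + ε1) * S +
      2 * ε1 * ∑ ρ ∈ W (2 * T), (mu ρ : ℝ) * (1 / (1 + ((ρ : ℂ).im - T) ^ 2)) := by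
    rw [hS, Finset.sum_filter, Finset.sum_filter, Finset.mul_sum, Finset.mul_sum, Finset.mul_sum,
      ← Finset.sum_add_distrib, ← Finset.sum_add_distrib]
    refine Finset.sum_le_sum fun ρ _ => ?_
    have h3 := mul_le_mul_of_nonneg_left (point_up (r := r) (T := T) hr'0 hr2a hε10 hε11 ha2 ha3 ha4 hδb
      (fun x hx => hδ1b x (hx.trans_le hδa)) hCa ρ) (Nat.cast_nonneg (α := ℝ) (mu ρ))
    refine h3.trans (le_of_eq ?_)
    split_ifs <;> ring
  have h3 := hT3 T hTT3 ((W (2 * T)).filter (fun ρ : Zt => δ ≤ |(ρ : ℂ).re - 1 / 2|)) (fun ρ hρ =>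
    (Finset.mem_filter.1 hρ).2)
  have h4 : Ca * ∑ ρ ∈ (W (2 * T)).filter (fun ρ : Zt => δ ≤ |(ρ : ℂ).re - 1 / 2|),
        (mu ρ : ℝ) * (1 / (1 + ((ρ : ℂ).im - T) ^ 2) ^ 2) ≤ ε1 * L := by
    calc _ ≤ Ca * (ε1 / Ca * L) := mul_le_mul_of_nonneg_left h3 hCa0.le
      _ = ε1 * L := by field_simp
  have h5 : ∑ ρ ∈ W (2 * T), (mu ρ : ℝ) * (1 / (1 + ((ρ : ℂ).im - T) ^ 2)) ≤ K * (L + 1) := by
    have b2 := hz T ((W (2 * T)).map (Function.Embedding.subtype _)) (by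
      intro s hs
      rw [Finset.mem_map] at hs
      obtain ⟨u, _, rfl⟩ := hs
      exact u.2)
    rw [Finset.sum_map] at b2
    refine le_trans b2 (mul_le_mul_of_nonneg_left ?_ hK.le)
    unfold Lg
    rw [abs_of_pos hT0]
    have h8 : Real.log (3 + T) ≤ Real.log (2 * T) := Real.log_le_log (by linarith) (by linarith)
    rw [Real.log_mul (by norm_num) (by linarith)] at h8
    linarith [Real.log_two_lt_d9]
  have h6 : 2 * ε1 * ∑ ρ ∈ W (2 * T), (mu ρ : ℝ) * (1 / (1 + ((ρ : ℂ).im - T) ^ 2)) ≤ 2 * ε1 * (K * (L + 1)) :=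
    mul_le_mul_of_nonneg_left h5 (by positivity)
  refine final_arith hε10 hε11 hK hr0 (by linarith) (by linarith) hLC hS0 hε12 hr'2 ?_
  rw [hC5]
  linarith

end Q270LD
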