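import Pool.Agent.Q270.LD.A8

/-! # Counting functions and sharpness -/

set_option autoImplicit false

open Complex Filter Topology Set MeasureTheory
open Pool.Agent.Y23

namespace Q270LD

lemma strip_of_zero {s : ℂ} (h0 : riemannZeta s = 0) (ht : s.im ≠ 0) : 0 < s.re ∧ s.re < 1 := by
  have hs0 : s ≠ 0 := by
    rintro rfl
    exact ht zero_im
  have hΛ : completedRiemannZeta s = 0 := by
    rw [riemannZeta_def_of_ne_zero hs0, div_eq_zero_iff] at h0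
    rcases h0 with h | h
    · exact h
    · rw [Gammaℝ_eq_zero_iff] at h
      obtain ⟨n, hn⟩ := h
      exact absurd (by rw [hn]; simp) ht
  have h1 : s.re < 1 := by
    by_contra hc
    exact riemannZeta_ne_zero_of_one_le_re (not_lt.1 hc) h0
  refine ⟨?_, h1⟩
  by_contra hc
  have hs1 : (1 : ℂ) - s ≠ 0 := by
    intro h
    have := congrArg Complex.re h
    simp at this
    linarith
  have h2 : completedRiemannZeta (1 - s) = 0 := by rw [completedRiemannZeta_one_sub, hΛ]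
  have h3 : riemannZeta (1 - s) = 0 := by rw [riemannZeta_def_of_ne_zero hs1, h2, zero_div]
  exact riemannZeta_ne_zero_of_one_le_re (s := 1 - s) (by simp; linarith) h3

/-- zeros in the region with profile `r` at height `T`, with multiplicity -/
noncomputable def zc (r : ℝ → ℝ) (T : ℝ) : ℕ :=
  ∑ᶠ s ∈ {s : ℂ | riemannZeta s = 0 ∧ |s.im - T| < r (s.re - 1 / 2)}, analyticOrderNatAt riemannZeta s

lemma zc_eq {r : ℝ → ℝ} {r0 T : ℝ} (hr : ∀ x, r x ≤ r0) (hT : r0 < T) :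
    (zc r T : ℝ) = ∑ ρ ∈ (W (2 * T)).filter (fun ρ : Zt => |(ρ : ℂ).im - T| < r ((ρ : ℂ).re - 1 / 2)),
      (mu ρ : ℝ) := by
  classical
  have hset : {s : ℂ | riemannZeta s = 0 ∧ |s.im - T| < r (s.re - 1 / 2)} =
      (((W (2 * T)).filter (fun ρ : Zt => |(ρ : ℂ).im - T| < r ((ρ : ℂ).re - 1 / 2))).map
        (Function.Embedding.subtype _) : Finset ℂ) := by
    ext s
    simp only [Set.mem_ofPred_eq, Finset.coe_map, Set.mem_image, Finset.mem_coe, Finset.mem_filter, mem_W]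
    constructor
    · rintro ⟨h1, h2⟩
      have h3 := abs_lt.1 (h2.trans_le (hr _))
      have h4 : s.im ≠ 0 := by
        intro h5
        linarith [h3.1]
      have h5 := strip_of_zero h1 h4
      refine ⟨⟨s, h1, h5.1, h5.2⟩, ⟨?_, h2⟩, rfl⟩
      show |s.im| ≤ 2 * T
      rw [abs_le]
      constructor <;> linarith [h3.1, h3.2]
    · rintro ⟨ρ, ⟨_, h2⟩, rfl⟩
      exact ⟨ρ.2.1, h2⟩
  unfold zc
  rw [hset, finsum_mem_coe_finset, Finset.sum_map]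
  push_cast
  rfl

lemma hyp_of_ev {r : ℝ → ℝ} {r0 c : ℝ} (hr : ∀ x, r x ≤ r0)
    (h : ∀ᶠ T : ℝ in atTop, c * Real.log T ≤ (zc r T : ℝ)) : ∃ T1 : ℝ, Hyp r c T1 := by
  classical
  obtain ⟨T1, hT1⟩ := eventually_atTop.1 (h.and (eventually_gt_atTop r0))
  refine ⟨T1, fun T hT => ?_⟩
  obtain ⟨h1, h2⟩ := hT1 T hT
  rw [zc_eq hr h2] at h1
  exact ⟨_, fun ρ hρ => (Finset.mem_filter.1 hρ).2, h1⟩

lemma ev_of_hyp {r : ℝ → ℝ} {r0 c T1 : ℝ} (hr : ∀ x, r x ≤ r0) (h : Hyp r c T1) :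
    ∀ᶠ T : ℝ in atTop, c * Real.log T ≤ (zc r T : ℝ) := by
  classical
  filter_upwards [eventually_ge_atTop T1, eventually_gt_atTop r0, eventually_gt_atTop 0] with T hT hT2 hT0
  obtain ⟨F, hF, hF2⟩ := h T hT
  rw [zc_eq hr hT2]
  refine hF2.trans (Finset.sum_le_sum_of_subset_of_nonneg ?_ fun ρ _ _ => Nat.cast_nonneg _)
  intro ρ hρ
  rw [Finset.mem_filter, mem_W]
  refine ⟨?_, hF ρ hρ⟩
  have h3 := abs_lt.1 ((hF ρ hρ).trans_le (hr _))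
  rw [abs_le]
  constructor <;> linarith [h3.1, h3.2]

/-- the constant is the largest possible -/
theorem sharp {r : ℝ → ℝ} (hr : Prof r) {ε : ℝ} (hε : 0 < ε) (T1 : ℝ) : ¬ Hyp r (r 0 / Real.pi + ε) T1 := by
  intro hH
  obtain ⟨K, hK, hm⟩ := master hr.pos
  obtain ⟨A, hA⟩ : ∃ A : ℝ, A = max (max 1 (2 * r 0)) (2 * K / ε) := ⟨_, rfl⟩
  have hA1 : 1 ≤ A := by rw [hA]; exact (le_max_left _ _).trans (le_max_left _ _)
  have hA2 : 2 * r 0 ≤ A := by rw [hA]; exact (le_max_right _ _).trans (le_max_left _ _)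
  have hA0 : 0 < A := by linarith
  have hA3 : K / A ≤ ε / 2 := by
    have h1 : 2 * K / ε ≤ A := by rw [hA]; exact le_max_right _ _
    rw [div_le_iff₀ hε] at h1
    rw [div_le_iff₀ hA0]
    linarith
  obtain ⟨C, hC, hm2⟩ := hm A hA1 hA2
  have hsp : 1 ≤ Real.sqrt Real.pi := by
    rw [Real.one_le_sqrt]
    linarith [Real.pi_gt_three]
  have hc0 : 0 ≤ r 0 / Real.pi + ε := by
    have := div_pos hr.pos Real.pi_pos
    linarith
  obtain ⟨C', hC'⟩ : ∃ C' : ℝ, C' = C * (1 + (r 0 / Real.pi + ε)) := ⟨_, rfl⟩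
  obtain ⟨T, hT⟩ : ∃ T : ℝ, T = max (max 20 (2 * r 0)) (max (2 * T1) (Real.exp (2 * C' / ε + 1))) := ⟨_, rfl⟩
  have hT20 : 20 ≤ T := by rw [hT]; exact (le_max_left _ _).trans (le_max_left _ _)
  have hTr : 2 * r 0 ≤ T := by rw [hT]; exact (le_max_right _ _).trans (le_max_left _ _)
  have hT1 : 2 * T1 ≤ T := by rw [hT]; exact (le_max_left _ _).trans (le_max_right _ _)
  have hTe : Real.exp (2 * C' / ε + 1) ≤ T := by rw [hT]; exact (le_max_right _ _).trans (le_max_right _ _)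
  have hL : 2 * C' / ε + 1 ≤ Real.log T := by rw [Real.le_log_iff_exp_le (by linarith)]; exact hTe
  have hL0 : 0 ≤ Real.log T := Real.log_nonneg (by linarith)
  have hL2 : 2 * C' < ε * Real.log T := by
    have h1 : 2 * C' / ε < Real.log T := by linarith
    rw [div_lt_iff₀ hε] at h1
    linarith
  have h1 := hm2 r _ T1 hc0 hr.le hH T hT20 hTr hT1
  have h2 : 0 ≤ 2 * ∑ ρ ∈ W (2 * T), (mu ρ : ℝ) * ((r 0 - max (r ((ρ : ℂ).re - 1 / 2)) 0) *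
        Real.exp (-(1 / A ^ 2) * ((ρ : ℂ).im - T) ^ 2)) := by
    refine mul_nonneg (by norm_num) (Finset.sum_nonneg fun ρ _ => ?_)
    refine mul_nonneg (Nat.cast_nonneg _) (mul_nonneg ?_ (Real.exp_pos _).le)
    have := max_le (hr.le ((ρ : ℂ).re - 1 / 2)) hr.pos.le
    linarith
  rw [← hC'] at h1
  have e1 : (r 0 / Real.pi - (r 0 / Real.pi + ε)) * (Real.sqrt Real.pi * A) * Real.log T =
      -(ε * (Real.sqrt Real.pi * A) * Real.log T) := by ring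
  rw [e1] at h1
  have h3 : ε * Real.log T ≤ ε * (Real.sqrt Real.pi * A) * Real.log T := by
    have : 1 ≤ Real.sqrt Real.pi * A := by nlinarith
    have h4 : 0 ≤ ε * Real.log T := by positivity
    nlinarith
  have h4 : K * (Real.log T / A) ≤ ε / 2 * Real.log T := by
    calc K * (Real.log T / A) = K / A * Real.log T := by ring
      _ ≤ _ := mul_le_mul_of_nonneg_right hA3 hL0
  linarith

/-- **Main theorem for profiles.** -/
theorem main {r : ℝ → ℝ} (hr : Prof r) :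
    (Lind ↔ ∀ ε : ℝ, 0 < ε → ∀ᶠ T : ℝ in atTop, (r 0 / Real.pi - ε) * Real.log T ≤ (zc r T : ℝ)) ∧
    (∀ κ : ℝ, 0 < κ → ∃ η : ℝ, 0 < η ∧
      ((∀ᶠ T : ℝ in atTop, (r 0 / Real.pi - η) * Real.log T ≤ (zc r T : ℝ)) →
        ∃ C : ℝ, ∀ t : ℝ, ‖riemannZeta (1 / 2 + t * I)‖ ≤ C * (1 + |t|) ^ κ)) ∧
    (∀ ε : ℝ, 0 < ε → ¬ ∀ᶠ T : ℝ in atTop, (r 0 / Real.pi + ε) * Real.log T ≤ (zc r T : ℝ)) := by
  have hq : ∀ κ : ℝ, 0 < κ → ∃ η : ℝ, 0 < η ∧
      ((∀ᶠ T : ℝ in atTop, (r 0 / Real.pi - η) * Real.log T ≤ (zc r T : ℝ)) →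
        ∃ C : ℝ, ∀ t : ℝ, ‖riemannZeta (1 / 2 + t * I)‖ ≤ C * (1 + |t|) ^ κ) := by
    intro κ hκ
    obtain ⟨δ, η', hδ, hη', hb⟩ := backl hκ
    obtain ⟨η, hη, hf⟩ := few hr hδ hη'
    refine ⟨η, hη, fun h => ?_⟩
    obtain ⟨T1, hT1⟩ := hyp_of_ev hr.le h
    obtain ⟨T2, hT2⟩ := hf T1 hT1
    exact hb T2 hT2
  refine ⟨⟨fun h ε hε => ?_, fun h κ hκ => ?_⟩, hq, fun ε hε h => ?_⟩
  · obtain ⟨T1, hT1⟩ := many h hr hε
    exact ev_of_hyp hr.le hT1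
  · obtain ⟨η, hη, h2⟩ := hq κ hκ
    exact h2 (h η hη)
  · obtain ⟨T1, hT1⟩ := hyp_of_ev hr.le h
    exact sharp hr hε T1 hT1

/-- the profile of a disc -/
lemma disc_prof {R : ℝ} (hR : 0 < R) : Prof (fun x => Real.sqrt (R ^ 2 - x ^ 2)) := by
  have h0 : Real.sqrt (R ^ 2 - 0 ^ 2) = R := by
    rw [zero_pow (by norm_num), sub_zero, Real.sqrt_sq hR.le]
  refine ⟨?_, ?_, ?_⟩
  · show 0 < Real.sqrt (R ^ 2 - 0 ^ 2)
    rw [h0]; exact hR
  · exact (by fun_prop : Continuous (fun x : ℝ => Real.sqrt (R ^ 2 - x ^ 2))).continuousAt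
  · intro δ hδ
    show ∃ η : ℝ, 0 < η ∧ ∀ x : ℝ, δ ≤ |x| → Real.sqrt (R ^ 2 - x ^ 2) ≤ Real.sqrt (R ^ 2 - 0 ^ 2) - η
    rw [h0]
    refine ⟨R - Real.sqrt (R ^ 2 - δ ^ 2), ?_, fun x hx => ?_⟩
    · have : Real.sqrt (R ^ 2 - δ ^ 2) < R := by
        rw [Real.sqrt_lt' hR]
        nlinarith
      linarith
    · have h1 : δ ^ 2 ≤ x ^ 2 := by
        rw [← sq_abs x]
        exact pow_le_pow_left₀ hδ.le hx 2
      have := Real.sqrt_le_sqrt (show R ^ 2 - x ^ 2 ≤ R ^ 2 - δ ^ 2 by linarith)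
      linarith

lemma disc_set {R : ℝ} (hR : 0 < R) (T : ℝ) (s : ℂ) :
    |s.im - T| < Real.sqrt (R ^ 2 - (s.re - 1 / 2) ^ 2) ↔ ‖s - (1 / 2 + T * I)‖ < R := by
  have e : s - (1 / 2 + T * I) = ⟨s.re - 1 / 2, s.im - T⟩ := by
    apply Complex.ext <;> simp
  rw [e]
  have h1 : ‖(⟨s.re - 1 / 2, s.im - T⟩ : ℂ)‖ ^ 2 = (s.re - 1 / 2) ^ 2 + (s.im - T) ^ 2 := by
    rw [← Complex.normSq_eq_norm_sq, Complex.normSq_apply]
    ring
  rw [Real.lt_sqrt (abs_nonneg _), sq_abs]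
  constructor
  · intro h
    have h2 : ‖(⟨s.re - 1 / 2, s.im - T⟩ : ℂ)‖ ^ 2 < R ^ 2 := by rw [h1]; linarith
    exact lt_of_pow_lt_pow_left₀ 2 hR.le h2
  · intro h
    have h2 : ‖(⟨s.re - 1 / 2, s.im - T⟩ : ℂ)‖ ^ 2 < R ^ 2 := pow_lt_pow_left₀ h (norm_nonneg _) (by norm_num)
    rw [h1] at h2
    linarith

end Q270LD
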