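import Pool.Agent.Q270.LD.A9

/-! # The upper bound under the Lindelof hypothesis -/

set_option autoImplicit false

open Complex Filter Topology Set MeasureTheory
open Pool.Agent.Y23

namespace Q270LD

lemma ga_re_abs (a T : ℝ) (ρ : Zt) : |(ga a T ((ρ : ℂ) - 1 / 2)).re| ≤
    Real.exp (a * ((ρ : ℂ).re - 1 / 2) ^ 2) * Real.exp (-a * ((ρ : ℂ).im - T) ^ 2) := by
  refine (Complex.abs_re_le_norm _).trans ?_
  rw [ga_norm, zt_im, zt_re']

/-- the finite sum against the full sum -/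
lemma sum_low' {a : ℝ} (ha : 1 ≤ a) : ∃ C : ℝ, 0 < C ∧ ∀ T R : ℝ, 10 ≤ T → 3 / 2 * T ≤ R →
    ∑ ρ ∈ W R, (mu ρ : ℝ) * (ga a T ((ρ : ℂ) - 1 / 2)).re ≤ SG a T + C := by
  obtain ⟨K, hK, hz⟩ := zsum_le
  have ha0 : 0 < a := by linarith
  refine ⟨27 * Real.exp a * K, by positivity, fun T R hT hR => ?_⟩
  have hs1 := ga_summable_re ha0 T
  have hs2 := zsummable T
  set η : ℝ := 27 * Real.exp a / (1 + T ^ 2 / 4) with hη
  have hη0 : 0 ≤ η := by positivity
  have h2 : ∑ ρ ∈ W R, (η * ((mu ρ : ℝ) * (1 / (1 + ((ρ : ℂ).im - T) ^ 2))) +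
        (mu ρ : ℝ) * (ga a T ((ρ : ℂ) - 1 / 2)).re) ≤
      ∑' ρ : Zt, (η * ((mu ρ : ℝ) * (1 / (1 + ((ρ : ℂ).im - T) ^ 2))) +
        (mu ρ : ℝ) * (ga a T ((ρ : ℂ) - 1 / 2)).re) := by
    refine Summable.sum_le_tsum _ (fun ρ hρ => ?_) ((hs2.mul_left η).add hs1)
    rw [mem_W, not_le] at hρ
    have h3 : T ^ 2 / 4 ≤ ((ρ : ℂ).im - T) ^ 2 := by
      rcases abs_cases (ρ : ℂ).im with ⟨h, _⟩ | ⟨h, _⟩
      · rw [h] at hρ; nlinarith
      · rw [h] at hρ; nlinarith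
    have h4 := ga_re_abs a T ρ
    have h5 := gauss_one ((ρ : ℂ).im - T)
    set t := (ρ : ℂ).im - T with ht
    have h6 : Real.exp (a * ((ρ : ℂ).re - 1 / 2) ^ 2) ≤ Real.exp a := by
      apply Real.exp_le_exp.2
      have h7 := zt_re ρ
      rw [zt_re'] at h7
      have h8 : ((ρ : ℂ).re - 1 / 2) ^ 2 ≤ 1 := by
        rw [← sq_abs]
        nlinarith [abs_nonneg ((ρ : ℂ).re - 1 / 2)]
      nlinarith
    have h7 : Real.exp (-a * t ^ 2) ≤ Real.exp (-(t ^ 2)) := Real.exp_le_exp.2 (by nlinarith [sq_nonneg t])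
    have h8 : |(ga a T ((ρ : ℂ) - 1 / 2)).re| ≤ η * (1 / (1 + t ^ 2)) := by
      calc |(ga a T ((ρ : ℂ) - 1 / 2)).re| ≤ Real.exp a * (27 / (1 + t ^ 2) ^ 2) :=
            h4.trans (mul_le_mul h6 (h7.trans h5) (Real.exp_pos _).le (Real.exp_pos _).le)
        _ = 27 * Real.exp a / ((1 + t ^ 2) * (1 + t ^ 2)) := by ring
        _ ≤ 27 * Real.exp a / ((1 + T ^ 2 / 4) * (1 + t ^ 2)) := by gcongr
        _ = _ := by rw [hη, div_mul_div_comm, mul_one]
    have h9 : (0 : ℝ) ≤ mu ρ := Nat.cast_nonneg _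
    have h10 : 0 ≤ η * (1 / (1 + t ^ 2)) + (ga a T ((ρ : ℂ) - 1 / 2)).re := by
      have := neg_abs_le (ga a T ((ρ : ℂ) - 1 / 2)).re
      linarith
    have h11 := mul_nonneg h9 h10
    linarith
  rw [Summable.tsum_add (hs2.mul_left η) hs1, tsum_mul_left, Finset.sum_add_distrib] at h2
  have h1 : 0 ≤ ∑ ρ ∈ W R, η * ((mu ρ : ℝ) * (1 / (1 + ((ρ : ℂ).im - T) ^ 2))) :=
    Finset.sum_nonneg fun ρ _ => by positivity
  have h3 : η * ∑' ρ : Zt, (mu ρ : ℝ) * (1 / (1 + ((ρ : ℂ).im - T) ^ 2)) ≤ 27 * Real.exp a * K := by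
    calc η * ∑' ρ : Zt, (mu ρ : ℝ) * (1 / (1 + ((ρ : ℂ).im - T) ^ 2)) ≤ η * (K * Lg T) :=
          mul_le_mul_of_nonneg_left (hz T) hη0
      _ = 27 * Real.exp a * K * (Lg T / (1 + T ^ 2 / 4)) := by
          rw [hη]; field_simp
      _ ≤ 27 * Real.exp a * K * 1 := by
          refine mul_le_mul_of_nonneg_left ?_ (by positivity)
          rw [div_le_one (by positivity)]
          unfold Lg
          rw [abs_of_nonneg (by linarith)]
          have := Real.log_le_sub_one_of_pos (show 0 < 3 + T by linarith)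
          nlinarith
      _ = _ := mul_one _
  have h4 : SG a T = ∑' ρ : Zt, (mu ρ : ℝ) * (ga a T ((ρ : ℂ) - 1 / 2)).re := rfl
  linarith

/-- upper bound for the sum of the integrals -/
lemma Q_up {a r' : ℝ} (ha : 1 ≤ a) (hr : 0 < r') : ∃ C T0 : ℝ, ∀ T : ℝ, T0 ≤ T →
    ∑ ρ ∈ W (2 * T), (mu ρ : ℝ) * Q a r' T ρ ≤ r' / Real.pi * Real.log T + C := by
  have ha0 : 0 < a := by linarith
  obtain ⟨C1, hC1, hg⟩ := gsum ha0
  obtain ⟨C2, hC2, hs⟩ := sum_low' ha
  have hpi := Real.pi_pos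
  set g := Real.sqrt (a / Real.pi) with hgd
  have hg0 : 0 ≤ g := Real.sqrt_nonneg _
  refine ⟨r' / Real.pi + g * (2 * r') * (C1 / (2 * Real.pi) + C2), max 20 (3 * r'), fun T hT => ?_⟩
  have hT20 : 20 ≤ T := (le_max_left _ _).trans hT
  have hTr : 3 * r' ≤ T := (le_max_right _ _).trans hT
  have h1 : ∀ u ∈ Icc (-r') r', ∑ ρ ∈ W (2 * T), (mu ρ : ℝ) * (ga a (T + u) ((ρ : ℂ) - 1 / 2)).re ≤
      (Real.sqrt (Real.pi / a) * (Real.log T + 1) + C1) / (2 * Real.pi) + C2 := by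
    intro u hu
    have h2 := hs (T + u) (2 * T) (by linarith [hu.1]) (by linarith [hu.2])
    have h3 := (abs_le.1 (hg (T + u) (by linarith [hu.1]))).2
    have h4 : Real.log (T + u) ≤ Real.log T + 1 := by
      have h5 : Real.log (T + u) ≤ Real.log (2 * T) := Real.log_le_log (by linarith [hu.1]) (by linarith [hu.2])
      rw [Real.log_mul (by norm_num) (by linarith)] at h5
      linarith [Real.log_two_lt_d9]
    have h5 : SG a (T + u) ≤ (Real.sqrt (Real.pi / a) * (Real.log T + 1) + C1) / (2 * Real.pi) := by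
      rw [le_div_iff₀ (by positivity)]
      have h6 : Real.sqrt (Real.pi / a) * Real.log (T + u) ≤ Real.sqrt (Real.pi / a) * (Real.log T + 1) :=
        mul_le_mul_of_nonneg_left h4 (Real.sqrt_nonneg _)
      linarith
    linarith
  have h2 : ∫ u in (-r')..r', ∑ ρ ∈ W (2 * T), (mu ρ : ℝ) * (ga a (T + u) ((ρ : ℂ) - 1 / 2)).re ≤
      ∫ u in (-r')..r', ((Real.sqrt (Real.pi / a) * (Real.log T + 1) + C1) / (2 * Real.pi) + C2) := by
    refine intervalIntegral.integral_mono_on (by linarith)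
      (Continuous.intervalIntegrable ?_ _ _) intervalIntegrable_const h1
    exact continuous_finsetSum _ fun ρ _ => (ga_cont a T _).const_mul _
  rw [intervalIntegral.integral_const, smul_eq_mul, intervalIntegral.integral_finsetSum
    (fun ρ _ => ((ga_cont a T _).const_mul _).intervalIntegrable _ _)] at h2
  have h3 : ∑ ρ ∈ W (2 * T), (mu ρ : ℝ) * Q a r' T ρ = g * ∑ ρ ∈ W (2 * T),
      ∫ u in (-r')..r', (mu ρ : ℝ) * (ga a (T + u) ((ρ : ℂ) - 1 / 2)).re := by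
    rw [Finset.mul_sum]
    refine Finset.sum_congr rfl fun ρ _ => ?_
    unfold Q
    rw [intervalIntegral.integral_const_mul]
    ring
  rw [h3]
  refine (mul_le_mul_of_nonneg_left h2 hg0).trans (le_of_eq ?_)
  have h4 : g * Real.sqrt (Real.pi / a) = 1 := sqrt_mul_sqrt ha0
  have h5 : g * ((r' - -r') * ((Real.sqrt (Real.pi / a) * (Real.log T + 1) + C1) / (2 * Real.pi) + C2)) =
      (g * Real.sqrt (Real.pi / a)) * (r' / Real.pi * (Real.log T + 1)) +
      g * (2 * r') * (C1 / (2 * Real.pi) + C2) := by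
    field_simp
    ring
  rw [h5, h4]
  ring

lemma G_nonneg {a r' : ℝ} (hr : 0 ≤ r') (t : ℝ) : 0 ≤ G a r' t := by
  unfold G
  refine mul_nonneg (Real.sqrt_nonneg _) ?_
  exact intervalIntegral.integral_nonneg (by linarith) fun u _ => (Real.exp_pos _).le

/-- inside the interval the smoothed indicator is almost one -/
lemma G_near {a r' r0 ε1 t : ℝ} (hr : 0 < r') (hr0 : r0 < r') (hε : 0 < ε1) (ha : 0 < a)
    (ha1 : 3 / ((r' - r0) ^ 2 * ε1) ≤ a) (ht : |t| ≤ r0) : 1 - ε1 ≤ G a r' t := by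
  obtain ⟨D, hD⟩ : ∃ D : ℝ, D = r' - r0 := ⟨_, rfl⟩
  have hD0 : 0 < D := by linarith
  rw [← hD, div_le_iff₀ (by positivity)] at ha1
  have hg : ∀ b : ℝ, 0 < b → Integrable (fun u : ℝ => Real.exp (-b * (t - u) ^ 2)) := fun b hb => by
    have := (integrable_exp_neg_mul_sq hb).comp_sub_right t
    refine this.congr (Eventually.of_forall fun u => ?_)
    show Real.exp (-b * (u - t) ^ 2) = Real.exp (-b * (t - u) ^ 2)
    congr 1; ring
  have hI : ∀ b : ℝ, ∫ u : ℝ, Real.exp (-b * (t - u) ^ 2) = Real.sqrt (Real.pi / b) := fun b => by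
    rw [← int_shift (a := b) t]
    refine integral_congr_ae (Eventually.of_forall fun u => ?_)
    show Real.exp (-b * (t - u) ^ 2) = Real.exp (-b * (u - t) ^ 2)
    congr 1; ring
  have h1 : Real.sqrt (Real.pi / a) = (∫ u in Ioc (-r') r', Real.exp (-a * (t - u) ^ 2)) +
      ∫ u in (Ioc (-r') r')ᶜ, Real.exp (-a * (t - u) ^ 2) := by
    rw [← hI a, integral_add_compl measurableSet_Ioc (hg a ha)]
  have h2 : ∫ u in (Ioc (-r') r')ᶜ, Real.exp (-a * (t - u) ^ 2) ≤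
      Real.exp (-(a * D ^ 2 / 2)) * Real.sqrt (Real.pi / (a / 2)) := by
    calc ∫ u in (Ioc (-r') r')ᶜ, Real.exp (-a * (t - u) ^ 2) ≤
        ∫ u in (Ioc (-r') r')ᶜ, Real.exp (-(a * D ^ 2 / 2)) * Real.exp (-(a / 2) * (t - u) ^ 2) := by
          refine setIntegral_mono_on (hg a ha).integrableOn ((hg (a / 2) (by positivity)).const_mul _).integrableOn
            measurableSet_Ioc.compl fun u hu => ?_
          rw [← Real.exp_add]
          apply Real.exp_le_exp.2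
          have h3 : r' ≤ |u| := by
            rw [mem_compl_iff, mem_Ioc, not_and_or, not_lt, not_le] at hu
            rcases hu with h | h
            · rw [abs_of_nonpos (by linarith)]; linarith
            · rw [abs_of_nonneg (by linarith)]; linarith
          have h4 : D ≤ |t - u| := by
            have := abs_sub_abs_le_abs_sub u t
            rw [abs_sub_comm] at this
            linarith
          have h5 : D ^ 2 ≤ (t - u) ^ 2 := by
            rw [← sq_abs (t - u)]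
            exact pow_le_pow_left₀ hD0.le h4 2
          nlinarith
      _ ≤ ∫ u : ℝ, Real.exp (-(a * D ^ 2 / 2)) * Real.exp (-(a / 2) * (t - u) ^ 2) :=
          setIntegral_le_integral ((hg (a / 2) (by positivity)).const_mul _)
            (Eventually.of_forall fun u => by positivity)
      _ = _ := by rw [integral_const_mul, hI]
  have h3 : G a r' t = Real.sqrt (a / Real.pi) * ∫ u in Ioc (-r') r', Real.exp (-a * (t - u) ^ 2) := by
    unfold G
    rw [intervalIntegral.integral_of_le (by linarith)]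
  have h4 : Real.sqrt (a / Real.pi) * Real.sqrt (Real.pi / (a / 2)) ≤ 3 / 2 := by
    rw [← Real.sqrt_mul (by positivity)]
    have e : a / Real.pi * (Real.pi / (a / 2)) = 2 := by
      have := Real.pi_pos
      field_simp
    rw [e, Real.sqrt_le_left (by norm_num)]
    norm_num
  have h5 : Real.exp (-(a * D ^ 2 / 2)) ≤ 2 / (a * D ^ 2) := by
    rw [Real.exp_neg, ← one_div, div_le_div_iff₀ (Real.exp_pos _) (by positivity)]
    have := Real.add_one_le_exp (a * D ^ 2 / 2)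
    linarith
  have h6 : Real.exp (-(a * D ^ 2 / 2)) * (3 / 2) ≤ ε1 := by
    calc Real.exp (-(a * D ^ 2 / 2)) * (3 / 2) ≤ 2 / (a * D ^ 2) * (3 / 2) := by gcongr
      _ = 3 / (a * D ^ 2) := by ring
      _ ≤ ε1 := by
          rw [div_le_iff₀ (by positivity)]
          nlinarith
  have h7 := sqrt_mul_sqrt ha
  rw [h1, mul_add, ← h3] at h7
  have h8 : Real.sqrt (a / Real.pi) * ∫ u in (Ioc (-r') r')ᶜ, Real.exp (-a * (t - u) ^ 2) ≤ ε1 := by
    calc _ ≤ Real.sqrt (a / Real.pi) * (Real.exp (-(a * D ^ 2 / 2)) * Real.sqrt (Real.pi / (a / 2))) :=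
          mul_le_mul_of_nonneg_left h2 (Real.sqrt_nonneg _)
      _ = Real.exp (-(a * D ^ 2 / 2)) * (Real.sqrt (a / Real.pi) * Real.sqrt (Real.pi / (a / 2))) := by ring
      _ ≤ Real.exp (-(a * D ^ 2 / 2)) * (3 / 2) := by gcongr
      _ ≤ ε1 := h6
  linarith

/-- lower bound of the integral near the line -/
lemma Q_ge {a r' δ : ℝ} (hr : 0 < r') (ha : 4 ≤ a) (hδ : a * δ ^ 2 ≤ 1) (T : ℝ) (ρ : Zt)
    (hx : |(ρ : ℂ).re - 1 / 2| ≤ δ) :
    G a r' ((ρ : ℂ).im - T) - δ ^ 2 * (Real.sqrt (a / Real.pi) * (2 * r' * (6 * a * (Real.exp (a * r' ^ 2) * 27)))) *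
      (1 / (1 + ((ρ : ℂ).im - T) ^ 2) ^ 2) ≤ Q a r' T ρ := by
  obtain ⟨x, hxd⟩ : ∃ x : ℝ, x = (ρ : ℂ).re - 1 / 2 := ⟨_, rfl⟩
  obtain ⟨t, ht⟩ : ∃ t : ℝ, t = (ρ : ℂ).im - T := ⟨_, rfl⟩
  rw [← hxd] at hx
  rw [← ht]
  have ha0 : 0 < a := by linarith
  have hx2 : x ^ 2 ≤ δ ^ 2 := by
    rw [← sq_abs x]
    exact pow_le_pow_left₀ (abs_nonneg _) hx 2
  have hax : a * x ^ 2 ≤ 1 := (mul_le_mul_of_nonneg_left hx2 ha0.le).trans hδ
  obtain ⟨M, hM⟩ : ∃ M : ℝ, M = δ ^ 2 * (6 * a * (Real.exp (a * r' ^ 2) * (27 / (1 + t ^ 2) ^ 2))) := ⟨_, rfl⟩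
  have key : ∀ u ∈ Icc (-r') r', Real.exp (-a * (t - u) ^ 2) - M ≤ (ga a (T + u) ((ρ : ℂ) - 1 / 2)).re := by
    intro u hu
    rw [ga_re, zt_im, zt_re', ← hxd, show (ρ : ℂ).im - (T + u) = t - u by rw [ht]; ring]
    obtain ⟨s, hs⟩ : ∃ s : ℝ, s = t - u := ⟨_, rfl⟩
    rw [← hs]
    have h1 := Real.one_sub_sq_div_two_le_cos (x := 2 * a * x * s)
    have h2 : 1 ≤ Real.exp (a * x ^ 2) := Real.one_le_exp (by positivity)
    have h3 : Real.exp (a * x ^ 2) ≤ 3 := by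
      have h4 : Real.exp (a * x ^ 2) ≤ Real.exp 1 := Real.exp_le_exp.2 hax
      linarith [Real.exp_one_lt_d9]
    have h4 : 1 - 6 * a ^ 2 * δ ^ 2 * s ^ 2 ≤ Real.exp (a * x ^ 2) * Real.cos (2 * a * x * s) := by
      have h5 : (2 * a * x * s) ^ 2 / 2 = 2 * a ^ 2 * x ^ 2 * s ^ 2 := by ring
      rw [h5] at h1
      have h6 : 2 * a ^ 2 * x ^ 2 * s ^ 2 ≤ 2 * a ^ 2 * δ ^ 2 * s ^ 2 := by
        have : 0 ≤ 2 * a ^ 2 * s ^ 2 := by positivity
        nlinarith
      have h7 : 0 ≤ 2 * a ^ 2 * x ^ 2 * s ^ 2 := by positivity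
      calc 1 - 6 * a ^ 2 * δ ^ 2 * s ^ 2 ≤ Real.exp (a * x ^ 2) * (1 - 2 * a ^ 2 * x ^ 2 * s ^ 2) := by nlinarith
        _ ≤ _ := mul_le_mul_of_nonneg_left h1 (by linarith)
    have h5 : a * s ^ 2 * Real.exp (-a * s ^ 2) ≤ Real.exp (a * r' ^ 2) * (27 / (1 + t ^ 2) ^ 2) := by
      have h6 : a * s ^ 2 ≤ Real.exp (a * s ^ 2 / 2) := by
        have := Real.quadratic_le_exp_of_nonneg (show 0 ≤ a * s ^ 2 / 2 by positivity)
        nlinarith [sq_nonneg (a * s ^ 2 - 2)]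
      have h7 : Real.exp (a * s ^ 2 / 2) * Real.exp (-a * s ^ 2) ≤ Real.exp (a * r' ^ 2) * Real.exp (-(t ^ 2)) := by
        rw [← Real.exp_add, ← Real.exp_add]
        apply Real.exp_le_exp.2
        have h8 : u ^ 2 ≤ r' ^ 2 := by
          rw [← sq_abs u]
          exact pow_le_pow_left₀ (abs_nonneg _) (abs_le.2 hu) 2
        have h9 : t ^ 2 / 2 - u ^ 2 ≤ s ^ 2 := by rw [hs]; nlinarith [sq_nonneg (t - 2 * u)]
        nlinarith [sq_nonneg t]
      calc a * s ^ 2 * Real.exp (-a * s ^ 2) ≤ Real.exp (a * s ^ 2 / 2) * Real.exp (-a * s ^ 2) := by gcongr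
        _ ≤ Real.exp (a * r' ^ 2) * Real.exp (-(t ^ 2)) := h7
        _ ≤ _ := by
          have := gauss_one t
          gcongr
    have h6 : Real.exp (-a * s ^ 2) * (1 - 6 * a ^ 2 * δ ^ 2 * s ^ 2) ≤
        Real.exp (-a * s ^ 2) * (Real.exp (a * x ^ 2) * Real.cos (2 * a * x * s)) :=
      mul_le_mul_of_nonneg_left h4 (Real.exp_pos _).le
    have h7 : 6 * a * δ ^ 2 * (a * s ^ 2 * Real.exp (-a * s ^ 2)) ≤ M := by
      rw [hM]
      calc 6 * a * δ ^ 2 * (a * s ^ 2 * Real.exp (-a * s ^ 2)) ≤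
            6 * a * δ ^ 2 * (Real.exp (a * r' ^ 2) * (27 / (1 + t ^ 2) ^ 2)) := by gcongr
        _ = _ := by ring
    nlinarith
  have h1 : ∫ u in (-r')..r', (Real.exp (-a * (t - u) ^ 2) - M) ≤
      ∫ u in (-r')..r', (ga a (T + u) ((ρ : ℂ) - 1 / 2)).re :=
    intervalIntegral.integral_mono_on (by linarith) (Continuous.intervalIntegrable (by fun_prop) _ _)
      ((ga_cont a T _).intervalIntegrable _ _) key
  rw [intervalIntegral.integral_sub (Continuous.intervalIntegrable (by fun_prop) _ _) intervalIntegrable_const,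
    intervalIntegral.integral_const, smul_eq_mul] at h1
  have h2 := mul_le_mul_of_nonneg_left h1 (Real.sqrt_nonneg (a / Real.pi))
  have h3 : Q a r' T ρ = Real.sqrt (a / Real.pi) * ∫ u in (-r')..r', (ga a (T + u) ((ρ : ℂ) - 1 / 2)).re := rfl
  have h4 : G a r' t = Real.sqrt (a / Real.pi) * ∫ u in (-r')..r', Real.exp (-a * (t - u) ^ 2) := rfl
  rw [h3, h4]
  refine le_trans (le_of_eq ?_) h2
  rw [hM]
  ring

end Q270LD
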